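import Pool.Agent.H62.CYC.DefsP

/-!
# Project CYC, second part: S_PRES in two parts
-/

set_option autoImplicit false

namespace Pool.Agent.H62.CYC

open Finset Filter
open Pool.Agent.W709.VC (rect)
open Pool.Agent.W707.TV (Rh RH)
open scoped Real Topology

/-- the poles `ψ_j = 2 π (2 j + 1) / r` -/
noncomputable def ps (M j : ℕ) : ℝ := 2 * π * (2 * j + 1) / (2 * M + 1)

/-- the sum of the residues -/
noncomputable def Sres (p M k : ℕ) : ℂ :=
  ∑ j ∈ range (M - k), Complex.exp (Complex.I * p * Rh M * (ps M j : ℂ) ^ 2 / (8 * π)) /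
    (2 * Complex.cos (ps M j / 2)) *
    (∏ i ∈ (range (M - k)).erase j, (2 * Complex.cos (ps M j) - 2 * Complex.cos (ps M i)))⁻¹

/-- RES1: algebra -/
def S_RES1 : Prop := ∀ p M k : ℕ, k < M → M + 1 ≤ 2 * k →
  ‖tau M (tp p M) k‖ = (2 * M + 1) * ‖Sres p M k‖

/-- RES2: residues -/
def S_RES2 : Prop := ∀ p M k : ℕ, k < M → M + 1 ≤ 2 * k → ∀ h : ℝ, 0 < h →
  ‖rect (HT p M k) (-π) π (-h) h‖ = 4 * π * ‖Sres p M k‖

theorem pres_of (h1 : S_RES1) (h2 : S_RES2) : S_PRES := by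
  intro p M k hk hk2 h hh
  rw [h1 p M k hk hk2, h2 p M k hk hk2 h hh]
  have := Real.pi_pos
  field_simp

end Pool.Agent.H62.CYC
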