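import Pool.Agent.H62.CYC.DefsR
import Pool.Graph.R_seed8.H776R3.GapVol.Riemann

/-!
# Project CYC, extension: the monodromy `s_2² s_1⁻²` (volume `v_8`)
-/

set_option autoImplicit false

namespace Pool.Agent.H62.CYC

open Finset Matrix
open scoped Real

/-- the transform `τ_k (t)` of the numbers `t_0, …, t_{M-1}` -/
noncomputable def tau (M : ℕ) (t : ℕ → ℂ) (k : ℕ) : ℂ :=
  ∑ b ∈ range M, ((sg M ((b : ℝ) + 1) ^ 2 *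
    ∏ l ∈ range k, (yy M ((b : ℝ) + 1) - yy M ((l : ℝ) + 1)) : ℝ) : ℂ) * t b

/-- `E_k = ∏_{j odd ≤ 2k+1} (2 sin (π j / r))² ∏_{j even, 2 ≤ j ≤ 2k} (2 cos (π j / r))²` -/
noncomputable def Ek (M k : ℕ) : ℝ :=
  (∏ j ∈ range (k + 1), (2 * Real.sin (π * (2 * j + 1) / (2 * M + 1))) ^ 2) *
    ∏ j ∈ range k, (2 * Real.cos (π * (2 * j + 2) / (2 * M + 1))) ^ 2

/-- `E_k σ!(k)² / (σ!(k-c) σ!(k+c+1) σ!(2k+1))`, `k = c + i` -/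
noncomputable def g2 (M c i : ℕ) : ℝ :=
  Ek M (c + i) * sf M (c + i) ^ 2 / (sf M i * sf M (2 * c + i + 1) * sf M (2 * c + 2 * i + 1))

/-- TAU: the Gauss sum -/
def S_TAU : Prop := ∀ M k : ℕ, k < M →
  ‖tau M (fun b => Complex.exp (2 * π * Complex.I / (2 * M + 1)) ^ ((b + 1) ^ 2)) k‖ ^ 2 =
    (2 * M + 1) * Ek M k

/-- TRF2: the trace of `D F D⁻¹ F` for all diagonal unitary matrices `D` -/
def S_TRF2 : Prop := ∀ (M : ℕ) (t : ℕ → ℂ) (c K : ℕ) (F : Matrix (Fin (K + 1)) (Fin (K + 1)) ℝ)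
  (k : ℝ), c + (K + 1) = M → HalfR M c K F k →
  ∑ i : Fin (K + 1), ∑ j : Fin (K + 1), t (c + i) * star (t (c + j)) * (F i j * F j i : ℝ) =
    ((∑ i ∈ range (K + 1), (-1) ^ i * (‖tau M t (c + i)‖ ^ 2 * sf M (c + i) ^ 2 /
      ((2 * M + 1) * (sf M i * sf M (2 * c + i + 1) * sf M (2 * c + 2 * i + 1)))) : ℝ) : ℂ)

/-- V8: the maximum of `Λ(x-γ) + Λ(x+γ) - 2 Λ(x)` -/
def S_V8 : Prop := ∀ x y : ℝ,
  GapVol.lob (x - y) + GapVol.lob (x + y) - 2 * GapVol.lob x ≤ 4 * GapVol.lob (π / 4)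

/-- GR2: the growth of `g2` -/
def S_GR2 : Prop :=
  (∀ ε : ℝ, 0 < ε → ∀ᶠ M : ℕ in Filter.atTop, ∀ c i : ℕ, c + i + 1 ≤ M →
    |g2 M c i| ≤ Real.exp ((2 * M + 1) / (2 * π) * (4 * GapVol.lob (π / 4)) + ε * M)) ∧
  (∀ ε : ℝ, 0 < ε → ∀ᶠ M : ℕ in Filter.atTop, ∃ c i : ℕ, c + i + 1 ≤ M ∧ M ≤ 2 * c ∧
    Real.exp ((2 * M + 1) / (2 * π) * (4 * GapVol.lob (π / 4)) - ε * M) ≤ |g2 M c i|) ∧
  (∀ M c i : ℕ, c + i + 1 ≤ M → M ≤ 2 * c → 0 < (-1) ^ i * g2 M c i)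

end Pool.Agent.H62.CYC
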