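import Pool.Agent.H62.CYC.DefsP
import Pool.Graph.R_pool_sql_team_seeded_c8625f6e.K4H85.AX.Base3

/-!
# Project CYC, third part: `p = 3`: statements

`C3 α b η` (library, K4H85/AX/Base3): `Crit2 (3 / 2) α b η` and `π / 3 < b < π / 2`.
-/

set_option autoImplicit false

namespace Pool.Agent.H62.CYC

open Finset Filter
open Pool.Agent.W709.VC (rect)
open Pool.Agent.W707.TV (Rh)
open Pool.Agent.W719.BX (hp Crit2)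
open Pool.Agent.K4H85.AX (C3)
open scoped Real Topology

/-- LAP, for every `p`: the only use of `4 ≤ p` was `b < π / 2` -/
def S_PLAP3 : Prop := ∀ (p : ℕ) (α b η : ℝ) (k : ℕ → ℕ), b < π / 2 → Crit2 ((p : ℝ) / 2) α b η →
  (∀ M : ℕ, |2 * π * (k M) - (α + π) * Rh M| ≤ 2 * π) →
  ∃ c : ℂ, 0 < c.re ∧ ∀ s : ℝ, Tendsto (fun M : ℕ =>
    HT p M (k M) (-b + s / (Real.sqrt M : ℝ) + η * Complex.I) /
      HT p M (k M) (-b + η * Complex.I)) atTop (𝓝 (Complex.exp (-c * s ^ 2)))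

/-- UP for `p = 3` -/
def S_PUP3 : Prop := ∀ α₀ b₀ η : ℝ, C3 α₀ b₀ η →
  ∀ ε : ℝ, 0 < ε → ∀ᶠ M : ℕ in atTop, ∀ k : ℕ, k < M → M + 1 ≤ 2 * k → ∀ h : ℝ, 0 < h →
    WT M k * ‖rect (HT 3 M k) (-π) π (-h) h‖ ≤
      Real.exp (Rh M / (4 * π) * hp (3 / 2) α₀ b₀ η + ε * M)

/-- LOW for `p = 3` -/
def S_PLOW3 : Prop := ∀ α₀ b₀ η : ℝ, C3 α₀ b₀ η →
  ∀ ε : ℝ, 0 < ε → ∀ᶠ M : ℕ in atTop, ∃ k : ℕ, k < M ∧ M + 1 ≤ 2 * k ∧ ∀ h : ℝ, 0 < h →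
    Real.exp (Rh M / (4 * π) * hp (3 / 2) α₀ b₀ η - ε * M) ≤
      WT M k * ‖rect (HT 3 M k) (-π) π (-h) h‖

end Pool.Agent.H62.CYC
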