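import Pool.Agent.H62.CYC.DefsR

/-!
Project CYC: the bounds for the traces of the powers.
-/

set_option autoImplicit false

namespace Pool.Agent.H62.CYC

open Finset Polynomial

lemma cheb_rec (k : ℕ) (y : ℝ) : (Chebyshev.T ℝ ((k + 2 : ℕ) : ℤ)).eval y =
    2 * y * (Chebyshev.T ℝ ((k + 1 : ℕ) : ℤ)).eval y - (Chebyshev.T ℝ (k : ℤ)).eval y := by
  have h := Chebyshev.T_add_two ℝ (k : ℤ)
  push_cast
  rw [h]
  simp only [eval_sub, eval_mul, eval_ofNat, eval_X]

lemma cheb_step {y : ℝ} (hy : 1 ≤ y) (k : ℕ) : 1 ≤ (Chebyshev.T ℝ (k : ℤ)).eval y ∧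
    y * (Chebyshev.T ℝ (k : ℤ)).eval y ≤ (Chebyshev.T ℝ ((k + 1 : ℕ) : ℤ)).eval y ∧
    (Chebyshev.T ℝ ((k + 1 : ℕ) : ℤ)).eval y ≤ 2 * y * (Chebyshev.T ℝ (k : ℤ)).eval y := by
  induction k with
  | zero =>
    simp only [Nat.cast_zero, Chebyshev.T_zero, eval_one, zero_add, Nat.cast_one, Chebyshev.T_one,
      eval_X]
    exact ⟨le_rfl, by linarith, by linarith⟩
  | succ k ih =>
    obtain ⟨h1, h2, h3⟩ := ih
    have h4 := cheb_rec k y
    have h5 : (Chebyshev.T ℝ (k : ℤ)).eval y ≤ (Chebyshev.T ℝ ((k + 1 : ℕ) : ℤ)).eval y := by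
      nlinarith
    have h6 : 1 ≤ (Chebyshev.T ℝ ((k + 1 : ℕ) : ℤ)).eval y := h1.trans h5
    refine ⟨h6, ?_, ?_⟩
    · rw [h4]
      nlinarith
    · rw [h4]
      linarith

lemma cheb_ge {y : ℝ} (hy : 1 ≤ y) (k : ℕ) : y ^ k ≤ (Chebyshev.T ℝ (k : ℤ)).eval y := by
  induction k with
  | zero => simp
  | succ k ih =>
    have h := (cheb_step hy k).2.1
    calc y ^ (k + 1) = y * y ^ k := pow_succ' y k
      _ ≤ y * (Chebyshev.T ℝ (k : ℤ)).eval y := mul_le_mul_of_nonneg_left ih (by linarith)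
      _ ≤ _ := h

lemma cheb_le {y : ℝ} (hy : 1 ≤ y) (k : ℕ) : (Chebyshev.T ℝ (k : ℤ)).eval y ≤ (2 * y) ^ k := by
  induction k with
  | zero => simp
  | succ k ih =>
    have h := (cheb_step hy k).2.2
    calc (Chebyshev.T ℝ ((k + 1 : ℕ) : ℤ)).eval y ≤ 2 * y * (Chebyshev.T ℝ (k : ℤ)).eval y := h
      _ ≤ 2 * y * (2 * y) ^ k := mul_le_mul_of_nonneg_left ih (by linarith)
      _ = (2 * y) ^ (k + 1) := (pow_succ' _ _).symm

lemma cheb_neg_one {y : ℝ} (hy : -1 ≤ y) (k : ℕ) : -1 ≤ (Chebyshev.T ℝ (k : ℤ)).eval y := by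
  by_cases h : y ≤ 1
  · exact (abs_le.1 (Chebyshev.abs_eval_T_real_le_one (k : ℤ) (abs_le.2 ⟨hy, h⟩))).1
  · have := (cheb_step (not_le.1 h).le k).1
    linarith

lemma cheb_abs {y B : ℝ} (hy : -1 ≤ y) (hB : 1 ≤ B) (hyB : y ≤ B) (k : ℕ) :
    |(Chebyshev.T ℝ (k : ℤ)).eval y| ≤ (2 * B) ^ k := by
  have h1 : (1 : ℝ) ≤ (2 * B) ^ k := one_le_pow₀ (by linarith)
  by_cases h : y ≤ 1
  · exact (Chebyshev.abs_eval_T_real_le_one (k : ℤ) (abs_le.2 ⟨hy, h⟩)).trans h1
  · have h2 := not_le.1 h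
    rw [abs_of_pos (by linarith [(cheb_step h2.le k).1])]
    exact (cheb_le h2.le k).trans (pow_le_pow_left₀ (by linarith) (by linarith) k)

theorem bnd : S_BND := by
  intro n m y T hn hm hy hT
  have hn1 : (1 : ℝ) ≤ n := by exact_mod_cast hn
  have hm1 : (m : ℝ) ≤ n := by exact_mod_cast hm
  have hm0 : (0 : ℝ) ≤ m := Nat.cast_nonneg m
  -- the sum of the `y i`
  have e1 : T 1 = (((n : ℝ) - 2 * m + 2 * ∑ i, y i : ℝ) : ℂ) := by
    rw [hT 1]
    congr 3
    simp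
  have hN : ∀ k : ℕ, ‖T k‖ = |(n : ℝ) - 2 * m + 2 * ∑ i, (Chebyshev.T ℝ (k : ℤ)).eval (y i)| :=
    fun k => by rw [hT k, Complex.norm_real, Real.norm_eq_abs]
  have hN1 : ‖T 1‖ = |(n : ℝ) - 2 * m + 2 * ∑ i, y i| := by
    rw [e1, Complex.norm_real, Real.norm_eq_abs]
  have hsum : -(m : ℝ) ≤ ∑ i, y i := by
    have := Finset.card_nsmul_le_sum univ y (-1) fun i _ => hy i
    simpa using this
  -- each `y i` is bounded
  have hyi : ∀ i, y i ≤ ‖T 1‖ + 2 * n := by
    intro i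
    have h1 : -((m : ℝ) - 1) ≤ ∑ j ∈ univ.erase i, y j := by
      have := Finset.card_nsmul_le_sum (univ.erase i) y (-1) fun j _ => hy j
      rw [card_erase_of_mem (mem_univ i), card_univ, Fintype.card_fin, nsmul_eq_mul] at this
      have hm' : 1 ≤ m := by have := i.2; omega
      rw [Nat.cast_sub hm'] at this
      push_cast at this
      linarith
    have h2 : y i + ∑ j ∈ univ.erase i, y j = ∑ j, y j := add_sum_erase _ _ (mem_univ i)
    have h3 : (n : ℝ) - 2 * m + 2 * ∑ i, y i ≤ ‖T 1‖ := by rw [hN1]; exact le_abs_self _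
    have h4 := norm_nonneg (T 1)
    linarith
  refine ⟨?_, ?_⟩
  · intro k
    rw [hN k]
    set B := ‖T 1‖ + 2 * n with hB
    have hB1 : 1 ≤ B := by
      have := norm_nonneg (T 1)
      linarith
    have h1 : |∑ i, (Chebyshev.T ℝ (k : ℤ)).eval (y i)| ≤ m * (2 * B) ^ k := by
      refine (abs_sum_le_sum_abs _ _).trans ?_
      have := Finset.sum_le_card_nsmul univ (fun i => |(Chebyshev.T ℝ (k : ℤ)).eval (y i)|)
        ((2 * B) ^ k) fun i _ => cheb_abs (hy i) hB1 (hyi i) k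
      simpa using this
    have h2 : (1 : ℝ) ≤ (2 * B) ^ k := one_le_pow₀ (by linarith)
    have h3 : (2 * ‖T 1‖ + 4 * n) = 2 * B := by rw [hB]; ring
    rw [h3]
    have h4 : |(n : ℝ) - 2 * m| ≤ n := by rw [abs_le]; constructor <;> linarith
    calc |(n : ℝ) - 2 * m + 2 * ∑ i, (Chebyshev.T ℝ (k : ℤ)).eval (y i)|
        ≤ |(n : ℝ) - 2 * m| + |2 * ∑ i, (Chebyshev.T ℝ (k : ℤ)).eval (y i)| := abs_add_le _ _
      _ ≤ n + 2 * (m * (2 * B) ^ k) := by
          rw [abs_mul, abs_two]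
          linarith
      _ ≤ n * (2 * B) ^ k + 2 * (n * (2 * B) ^ k) := by
          have := mul_le_mul_of_nonneg_left h2 (by linarith : (0 : ℝ) ≤ n)
          have h5 := mul_le_mul_of_nonneg_right hm1 (by linarith : (0 : ℝ) ≤ (2 * B) ^ k)
          linarith
      _ = 3 * n * (2 * B) ^ k := by ring
  · intro k hk h4
    -- the trace is positive
    have h5 : ‖T 1‖ = (n : ℝ) - 2 * m + 2 * ∑ i, y i := by
      rw [hN1]
      apply abs_of_nonneg
      by_contra h
      rw [hN1, abs_of_neg (not_le.1 h)] at h4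
      linarith
    have hmpos : 0 < m := by
      rcases Nat.eq_zero_or_pos m with h | h
      · subst h
        rw [h5] at h4
        simp at h4
        linarith
      · exact h
    have hmpos' : (0 : ℝ) < m := by exact_mod_cast hmpos
    -- the largest `y i`
    obtain ⟨i, -, hi⟩ := Finset.exists_max_image (univ : Finset (Fin m)) y ⟨⟨0, hmpos⟩, mem_univ _⟩
    have h6 : ∑ j, y j ≤ m * y i := by
      have := Finset.sum_le_card_nsmul univ y (y i) fun j _ => hi j (mem_univ j)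
      simpa using this
    set z := (‖T 1‖ - n) / (2 * n) with hz
    have hz1 : 1 ≤ z := by
      rw [hz, le_div_iff₀ (by linarith)]
      linarith
    have h7 : z ≤ y i := by
      rw [hz, div_le_iff₀ (by linarith)]
      have h8 : ‖T 1‖ - n ≤ 2 * (m * y i) := by rw [h5]; linarith
      have h9 : 0 ≤ y i := by
        by_contra h
        have := mul_neg_of_pos_of_neg hmpos' (not_le.1 h)
        linarith
      have h10 : (m : ℝ) * y i ≤ n * y i := mul_le_mul_of_nonneg_right hm1 h9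
      linarith
    have h8 : z ^ k ≤ (Chebyshev.T ℝ (k : ℤ)).eval (y i) :=
      (pow_le_pow_left₀ (by linarith) h7 k).trans (cheb_ge (hz1.trans h7) k)
    have h9 : -((m : ℝ) - 1) ≤ ∑ j ∈ univ.erase i, (Chebyshev.T ℝ (k : ℤ)).eval (y j) := by
      have := Finset.card_nsmul_le_sum (univ.erase i)
        (fun j => (Chebyshev.T ℝ (k : ℤ)).eval (y j)) (-1) fun j _ => cheb_neg_one (hy j) k
      rw [card_erase_of_mem (mem_univ i), card_univ, Fintype.card_fin, nsmul_eq_mul,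
        Nat.cast_sub (by omega : 1 ≤ m)] at this
      push_cast at this
      linarith
    have h10 : (Chebyshev.T ℝ (k : ℤ)).eval (y i) +
        ∑ j ∈ univ.erase i, (Chebyshev.T ℝ (k : ℤ)).eval (y j) =
        ∑ j, (Chebyshev.T ℝ (k : ℤ)).eval (y j) :=
      add_sum_erase _ (fun j => (Chebyshev.T ℝ (k : ℤ)).eval (y j)) (mem_univ i)
    rw [hN k]
    refine le_trans ?_ (le_abs_self _)
    rw [← h10]
    linarith

end Pool.Agent.H62.CYC
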