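import Pool.Agent.H62.CYC.Defs
import Pool.Agent.H62.CYC.Bnd

/-!
Project CYC: assembly in one block.
-/

set_option autoImplicit false

namespace Pool.Agent.H62.CYC

open Finset Matrix
open Pool.Agent.H62.TV (sh sh_ne sh_norm)
open Pool.Agent.H62.TB (mer cor crv mu ltr rho)
open scoped Real

variable {M c K : ℕ}

/-! ### Real and complex matrices -/

lemma toC_mul {n : ℕ} (A B : Matrix (Fin n) (Fin n) ℝ) : toC (A * B) = toC A * toC B := by
  unfold toC
  ext i j
  simp [Matrix.mul_apply]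

lemma toC_one {n : ℕ} : toC (1 : Matrix (Fin n) (Fin n) ℝ) = 1 := by
  unfold toC
  ext i j
  by_cases h : i = j
  · subst h; simp
  · simp [h]

lemma toC_apply {n : ℕ} (A : Matrix (Fin n) (Fin n) ℝ) (i j : Fin n) : toC A i j = (A i j : ℂ) := rfl

lemma toC_neg {n : ℕ} (A : Matrix (Fin n) (Fin n) ℝ) : toC (-A) = -toC A := by
  unfold toC
  ext i j
  simp

lemma toC_H {n : ℕ} (A : Matrix (Fin n) (Fin n) ℝ) : (toC A)ᴴ = toC Aᵀ := by
  unfold toC
  ext i j
  simp [Matrix.conjTranspose_apply]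

lemma toC_diag {n : ℕ} (J : Fin n → ℝ) :
    toC (diagonal J) = diagonal fun i => (J i : ℂ) := by
  unfold toC
  ext i j
  by_cases h : i = j
  · subst h; simp
  · simp [h]

/-! ### The half twist -/

theorem half_of (h1 : S_FE) (h2 : S_STRC) : S_HALF := by
  intro M c K hM
  obtain ⟨Fe, e1, e2, e3, e4, e5⟩ := h1 M c K hM
  obtain ⟨F, k, hF, rfl⟩ := h2 M c K hM Fe e1 e2 e3
  exact ⟨F, k, hF, e4, e5⟩

lemma mu_norm (M a : ℕ) : ‖mu (sh M) a‖ = 1 := by
  unfold mu
  rw [norm_mul, norm_pow, norm_pow, norm_neg, norm_one, one_pow, sh_norm, one_pow, one_mul]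

lemma mu_ne (M a : ℕ) : mu (sh M) a ≠ 0 := by
  intro h
  have := mu_norm M a
  rw [h, norm_zero] at this
  exact zero_ne_one this

lemma mu_star (M a : ℕ) : star (mu (sh M) a) = (mu (sh M) a)⁻¹ := by
  have h : mu (sh M) a * star (mu (sh M) a) = 1 := by
    have := Complex.mul_conj (mu (sh M) a)
    rw [Complex.star_def, this, Complex.normSq_eq_norm_sq, mu_norm]
    norm_num
  exact eq_inv_of_mul_eq_one_right h

lemma mer_inv (n c M : ℕ) : (mer n c (sh M))⁻¹ = diagonal fun i : Fin n => (mu (sh M) (c + i))⁻¹ := by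
  unfold mer
  apply Matrix.inv_eq_right_inv
  rw [Matrix.diagonal_mul_diagonal, ← Matrix.diagonal_one]
  congr 1
  funext i
  exact mul_inv_cancel₀ (mu_ne _ _)

lemma mer_mul_inv (n c M : ℕ) : mer n c (sh M) * (mer n c (sh M))⁻¹ = 1 := by
  rw [mer_inv]
  unfold mer
  rw [Matrix.diagonal_mul_diagonal, ← Matrix.diagonal_one]
  congr 1
  funext i
  exact mul_inv_cancel₀ (mu_ne _ _)

lemma mer_inv_mul (n c M : ℕ) : (mer n c (sh M))⁻¹ * mer n c (sh M) = 1 := by
  rw [mer_inv]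
  unfold mer
  rw [Matrix.diagonal_mul_diagonal, ← Matrix.diagonal_one]
  congr 1
  funext i
  exact inv_mul_cancel₀ (mu_ne _ _)

section
variable {F : Matrix (Fin (K + 1)) (Fin (K + 1)) ℝ} {k : ℝ}

lemma Half.sqC (h : Half M c K F k) : toC F * toC F = 1 := by
  rw [← toC_mul, h.real.sq, toC_one]

lemma Half.F00 (h : Half M c K F k) : F 0 0 = k := by
  rw [h.real.frm 0 0]
  simp [Qp, Jc]

lemma Half.cor_inv (h : Half M c K F k) :
    (cor (K + 1) c (sh M))⁻¹ = toC F * (mer (K + 1) c (sh M))⁻¹ * toC F := by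
  apply Matrix.inv_eq_right_inv
  rw [h.cor_eq]
  calc toC F * mer (K + 1) c (sh M) * toC F * (toC F * (mer (K + 1) c (sh M))⁻¹ * toC F)
      = toC F * mer (K + 1) c (sh M) * (toC F * toC F) * (mer (K + 1) c (sh M))⁻¹ * toC F := by
        simp only [Matrix.mul_assoc]
    _ = toC F * (mer (K + 1) c (sh M) * (mer (K + 1) c (sh M))⁻¹) * toC F := by
        rw [h.sqC]; simp only [Matrix.mul_assoc, Matrix.mul_one]
    _ = 1 := by rw [mer_mul_inv, Matrix.mul_one, h.sqC]

/-- changing the sign -/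
lemma Half.neg (h : Half M c K F k) : Half M c K (-F) (-k) where
  real :=
    { sq := by rw [neg_mul_neg, h.real.sq]
      tr := by rw [Matrix.trace_neg, abs_neg]; exact h.real.tr
      int := by rw [Matrix.neg_mul, h.real.int, Matrix.mul_neg]
      frm := fun i j => by
        rw [Matrix.neg_apply, h.real.frm i j]
        ring
      adj := fun i j => by
        rw [Matrix.neg_apply, Matrix.neg_apply, mul_neg, mul_neg, h.real.adj i j]
      ksq := by rw [neg_sq]; exact h.real.ksq }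
  cor_eq := by
    rw [toC_neg, Matrix.neg_mul, neg_mul_neg]
    exact h.cor_eq
  brd := by
    obtain ⟨ξ, h1, h2⟩ := h.brd
    refine ⟨-ξ, by rw [norm_neg, h1], ?_⟩
    rw [toC_neg, Matrix.neg_mul, neg_mul_neg, h2, Matrix.mul_neg, Matrix.neg_mul,
      neg_smul, smul_neg, neg_neg]

lemma Half.norm_sum (h : Half M c K F k) :
    ‖∑ j : Fin (K + 1), (F 0 j : ℂ) * mu (sh M) (c + j) * F j 0‖ = |k| := by
  obtain ⟨ξ, h1, h2⟩ := h.brd
  have h3 := congrFun (congrFun h2 0) 0
  have e1 : (toC F * mer (K + 1) c (sh M) * toC F) 0 0 =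
      ∑ j : Fin (K + 1), (F 0 j : ℂ) * mu (sh M) (c + j) * F j 0 := by
    rw [Matrix.mul_apply]
    refine sum_congr rfl fun j _ => ?_
    unfold mer
    rw [Matrix.mul_diagonal]
    rfl
  rw [e1] at h3
  rw [h3, Matrix.smul_apply, mer_inv, Matrix.mul_diagonal, Matrix.diagonal_mul, smul_eq_mul,
    norm_mul, norm_mul, norm_mul, h1, norm_inv, mu_norm, toC_apply, h.F00, Complex.norm_real,
    Real.norm_eq_abs]
  norm_num

end

theorem star_of (h1 : S_HALF) (h2 : S_TRF) : S_STAR := by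
  intro M c K hM
  obtain ⟨F, k, hF⟩ := h1 M c K hM
  have h3 := h2 M (mu (sh M)) (mu_norm M) (fun c' K' hc' => by
    obtain ⟨F', k', hF'⟩ := h1 M c' K' hc'
    exact ⟨F', k', hF'.real, hF'.norm_sum⟩) c K F k hM hF.real
  rw [← h3, hF.cor_inv, mer_inv]
  unfold mer
  rw [Matrix.trace]
  refine sum_congr rfl fun i _ => ?_
  rw [Matrix.diag_apply, ← Matrix.mul_assoc, ← Matrix.mul_assoc, Matrix.mul_apply]
  refine sum_congr rfl fun j _ => ?_
  rw [Matrix.mul_diagonal, Matrix.diagonal_mul, mu_star, toC_apply, toC_apply]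
  push_cast
  ring

end Pool.Agent.H62.CYC
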