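import Pool.Agent.H62.CYC.Asm

/-!
Project CYC: the words `[w, Δ]` in one block.
-/

set_option autoImplicit false

namespace Pool.Agent.H62.CYC

open Finset Matrix
open Pool.Agent.H62.TV (sh sh_ne sh_norm)
open Pool.Agent.H62.TB (mer cor crv mu ltr rho)
open scoped Real

/-- the inverse word -/
def winv (w : List (Bool × Bool)) : List (Bool × Bool) := (w.map fun l => (l.1, !l.2)).reverse

/-- the commutator of a word with the half twist -/
def comm (w : List (Bool × Bool)) : List (Bool × Bool) :=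
  w ++ [(false, true), (true, true), (false, true)] ++ winv w ++
    [(false, false), (true, false), (false, false)]

variable {M c K : ℕ} {F : Matrix (Fin (K + 1)) (Fin (K + 1)) ℝ} {k : ℝ}

lemma rho_append (n c : ℕ) (A : ℂ) (w w' : List (Bool × Bool)) :
    rho n c A (w ++ w') = rho n c A w * rho n c A w' := by
  unfold rho
  rw [List.map_append, List.prod_append]

lemma rho_flat (n c : ℕ) (A : ℂ) (w : List (Bool × Bool)) (p : ℕ) :
    rho n c A (List.replicate p w).flatten = rho n c A w ^ p := by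
  induction p with
  | zero => simp [rho]
  | succ p ih => rw [List.replicate_succ, List.flatten_cons, rho_append, ih, pow_succ']

lemma unit_of_mul {n : ℕ} {A B : Matrix (Fin n) (Fin n) ℂ} (h : A * B = 1) : IsUnit A.det := by
  have h1 := congrArg Matrix.det h
  rw [Matrix.det_mul, Matrix.det_one] at h1
  exact IsUnit.of_mul_eq_one _ h1

lemma Half.mer_unit (_ : Half M c K F k) : IsUnit (mer (K + 1) c (sh M)).det :=
  unit_of_mul (mer_mul_inv _ _ _)

lemma Half.cor_unit (h : Half M c K F k) : IsUnit (cor (K + 1) c (sh M)).det := by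
  rw [h.cor_eq, Matrix.det_mul, Matrix.det_mul]
  exact ((unit_of_mul h.sqC).mul h.mer_unit).mul (unit_of_mul h.sqC)

lemma Half.ltr_unit (h : Half M c K F k) (l : Bool × Bool) :
    IsUnit (ltr (K + 1) c (sh M) l).det := by
  have h1 := h.mer_unit
  have h2 := h.cor_unit
  unfold ltr
  rcases l with ⟨_ | _, _ | _⟩
  · simpa using Matrix.isUnit_nonsing_inv_det _ h2
  · simpa using h2
  · simpa using Matrix.isUnit_nonsing_inv_det _ h1
  · simpa using h1

lemma Half.ltr_not (h : Half M c K F k) (l : Bool × Bool) :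
    ltr (K + 1) c (sh M) (l.1, !l.2) = (ltr (K + 1) c (sh M) l)⁻¹ := by
  have h1 := h.mer_unit
  have h2 := h.cor_unit
  unfold ltr
  rcases l with ⟨_ | _, _ | _⟩
  · simp [Matrix.nonsing_inv_nonsing_inv _ h2]
  · simp
  · simp [Matrix.nonsing_inv_nonsing_inv _ h1]
  · simp

lemma Half.rho_unit (h : Half M c K F k) (w : List (Bool × Bool)) :
    IsUnit (rho (K + 1) c (sh M) w).det := by
  induction w with
  | nil => simp [rho]
  | cons l w ih =>
    have e1 : rho (K + 1) c (sh M) (l :: w) = ltr (K + 1) c (sh M) l * rho (K + 1) c (sh M) w := by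
      simp [rho]
    rw [e1, Matrix.det_mul]
    exact (h.ltr_unit l).mul ih

lemma Half.rho_inv (h : Half M c K F k) (w : List (Bool × Bool)) :
    rho (K + 1) c (sh M) (winv w) = (rho (K + 1) c (sh M) w)⁻¹ := by
  induction w with
  | nil => simp [rho, winv]
  | cons l w ih =>
    have e1 : rho (K + 1) c (sh M) (l :: w) = ltr (K + 1) c (sh M) l * rho (K + 1) c (sh M) w := by
      simp [rho]
    have e2 : winv (l :: w) = winv w ++ [(l.1, !l.2)] := by simp [winv]
    have e3 : rho (K + 1) c (sh M) [(l.1, !l.2)] = ltr (K + 1) c (sh M) (l.1, !l.2) := by simp [rho]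
    rw [e2, rho_append, ih, e3, h.ltr_not, e1, Matrix.mul_inv_rev]

/-- the half twist -/
lemma Half.delta (h : Half M c K F k) : ∃ ξ : ℂ, ‖ξ‖ = 1 ∧
    rho (K + 1) c (sh M) [(false, true), (true, true), (false, true)] = ξ • toC F := by
  obtain ⟨ξ, h1, h2⟩ := h.brd
  refine ⟨ξ, h1, ?_⟩
  have e1 : rho (K + 1) c (sh M) [(false, true), (true, true), (false, true)] =
      cor (K + 1) c (sh M) * (mer (K + 1) c (sh M) * cor (K + 1) c (sh M)) := by
    simp [rho, ltr]
  have e2 : cor (K + 1) c (sh M) =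
      ξ • ((mer (K + 1) c (sh M))⁻¹ * toC F * (mer (K + 1) c (sh M))⁻¹) := by
    rw [h.cor_eq, h2]
  rw [e1]
  nth_rewrite 2 [e2]
  rw [h.cor_eq]
  set D := mer (K + 1) c (sh M) with hD
  have h3 : D * D⁻¹ = 1 := mer_mul_inv _ _ _
  calc toC F * D * toC F * (D * (ξ • (D⁻¹ * toC F * D⁻¹)))
      = ξ • (toC F * D * toC F * ((D * D⁻¹) * toC F * D⁻¹)) := by
        rw [Matrix.mul_smul, Matrix.mul_smul]
        simp only [Matrix.mul_assoc]
    _ = ξ • (toC F * D * (toC F * toC F) * D⁻¹) := by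
        rw [h3, Matrix.one_mul]
        simp only [Matrix.mul_assoc]
    _ = ξ • (toC F * (D * D⁻¹)) := by
        rw [h.sqC, Matrix.mul_one]
        simp only [Matrix.mul_assoc]
    _ = ξ • toC F := by rw [h3, Matrix.mul_one]

/-- **the commutator in the block** -/
lemma Half.comm (h : Half M c K F k) (w : List (Bool × Bool)) :
    rho (K + 1) c (sh M) (comm w) =
      rho (K + 1) c (sh M) w * toC F * (rho (K + 1) c (sh M) w)⁻¹ * toC F := by
  obtain ⟨ξ, h1, h2⟩ := h.delta
  have hξ : ξ ≠ 0 := by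
    intro h3
    rw [h3, norm_zero] at h1
    exact zero_ne_one h1
  have e1 : winv [(false, true), (true, true), (false, true)] =
      [(false, false), (true, false), (false, false)] := by simp [winv]
  have h3 : (ξ • toC F)⁻¹ = ξ⁻¹ • toC F := by
    apply Matrix.inv_eq_right_inv
    rw [Matrix.smul_mul, Matrix.mul_smul, smul_smul, mul_inv_cancel₀ hξ, one_smul, h.sqC]
  unfold CYC.comm
  rw [← e1, rho_append, rho_append, rho_append, h.rho_inv, h.rho_inv, h2, h3]
  simp only [Matrix.mul_smul, Matrix.smul_mul, smul_smul, inv_mul_cancel₀ hξ, mul_inv_cancel₀ hξ,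
    one_smul]

/-! ### The invariant form -/

/-- the invariant form as a complex matrix -/
noncomputable def Jm (M c K : ℕ) : Matrix (Fin (K + 1)) (Fin (K + 1)) ℂ :=
  diagonal fun i : Fin (K + 1) => ((Jc M c i : ℝ) : ℂ)

lemma Half.adjC (h : Half M c K F k) : (toC F)ᴴ * Jm M c K = Jm M c K * toC F := by
  have e1 : Jm M c K = toC (diagonal fun i : Fin (K + 1) => Jc M c i) := by
    rw [toC_diag]
    rfl
  rw [e1, toC_H, ← toC_mul, ← toC_mul]
  congr 1
  ext i j
  rw [Matrix.mul_diagonal, Matrix.diagonal_mul, Matrix.transpose_apply, mul_comm, h.real.adj i j]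

lemma un_mer : (mer (K + 1) c (sh M))ᴴ * Jm M c K * mer (K + 1) c (sh M) = Jm M c K := by
  unfold mer Jm
  rw [Matrix.diagonal_conjTranspose, Matrix.diagonal_mul_diagonal, Matrix.diagonal_mul_diagonal]
  congr 1
  funext i
  rw [Pi.star_apply, mu_star]
  have := mu_ne M (c + i)
  field_simp

lemma un_mul {n : ℕ} {J A B : Matrix (Fin n) (Fin n) ℂ} (hA : Aᴴ * J * A = J)
    (hB : Bᴴ * J * B = J) : (A * B)ᴴ * J * (A * B) = J := by
  rw [Matrix.conjTranspose_mul]
  calc Bᴴ * Aᴴ * J * (A * B) = Bᴴ * (Aᴴ * J * A) * B := by simp only [Matrix.mul_assoc]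
    _ = J := by rw [hA, hB]

lemma un_inv {n : ℕ} {J A : Matrix (Fin n) (Fin n) ℂ} (hA : Aᴴ * J * A = J) (hu : IsUnit A.det) :
    (A⁻¹)ᴴ * J * A⁻¹ = J := by
  have h1 : A * A⁻¹ = 1 := Matrix.mul_nonsing_inv _ hu
  have h2 : (A⁻¹)ᴴ * Aᴴ = 1 := by rw [← Matrix.conjTranspose_mul, h1, Matrix.conjTranspose_one]
  calc (A⁻¹)ᴴ * J * A⁻¹ = (A⁻¹)ᴴ * (Aᴴ * J * A) * A⁻¹ := by rw [hA]
    _ = ((A⁻¹)ᴴ * Aᴴ) * J * (A * A⁻¹) := by simp only [Matrix.mul_assoc]
    _ = J := by rw [h1, h2, Matrix.one_mul, Matrix.mul_one]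

lemma Half.un_F (h : Half M c K F k) : (toC F)ᴴ * Jm M c K * toC F = Jm M c K := by
  rw [h.adjC, Matrix.mul_assoc, h.sqC, Matrix.mul_one]

lemma Half.un_cor (h : Half M c K F k) :
    (cor (K + 1) c (sh M))ᴴ * Jm M c K * cor (K + 1) c (sh M) = Jm M c K := by
  rw [h.cor_eq]
  exact un_mul (un_mul h.un_F un_mer) h.un_F

lemma Half.un_ltr (h : Half M c K F k) (l : Bool × Bool) :
    (ltr (K + 1) c (sh M) l)ᴴ * Jm M c K * ltr (K + 1) c (sh M) l = Jm M c K := by
  have h1 := h.mer_unit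
  have h2 := h.cor_unit
  have h3 := un_mer (M := M) (c := c) (K := K)
  have h4 := h.un_cor
  have h5 := un_inv h3 h1
  have h6 := un_inv h4 h2
  unfold ltr
  rcases l with ⟨_ | _, _ | _⟩
  · simpa using h6
  · simpa using h4
  · simpa using h5
  · simpa using h3

lemma Half.un_rho (h : Half M c K F k) (w : List (Bool × Bool)) :
    (rho (K + 1) c (sh M) w)ᴴ * Jm M c K * rho (K + 1) c (sh M) w = Jm M c K := by
  induction w with
  | nil => simp [rho]
  | cons l w ih =>
    have e1 : rho (K + 1) c (sh M) (l :: w) = ltr (K + 1) c (sh M) l * rho (K + 1) c (sh M) w := by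
      simp [rho]
    rw [e1]
    exact un_mul (h.un_ltr l) ih

/-- **the traces of the powers in a block** -/
theorem blk (hH : S_HALF) (hT : S_TRG) (hP : S_POS) (hL : S_LA1) {M c K : ℕ} (hM : c + (K + 1) = M)
    (w : List (Bool × Bool)) : ∃ (m : ℕ) (y : Fin m → ℝ), m ≤ K + 1 ∧ (∀ i, -1 ≤ y i) ∧ ∀ p : ℕ,
    (rho (K + 1) c (sh M) (List.replicate p (comm w)).flatten).trace =
      ((((K + 1 : ℕ) : ℝ) - 2 * m + 2 * ∑ i, (Polynomial.Chebyshev.T ℝ (p : ℤ)).eval (y i) : ℝ) :
        ℂ) := by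
  obtain ⟨F₀, k₀, h₀⟩ := hH M c K hM
  have hsg : ∀ j : ℕ, 1 ≤ j → j ≤ M → 0 < sg M j := fun j h1 h2 => by
    refine hT.2.2.2.1 M j (by exact_mod_cast h1) ?_
    have : (j : ℝ) ≤ M := by exact_mod_cast h2
    linarith
  have hsf : ∀ j : ℕ, j ≤ M → 0 < sf M j := fun j hj => by
    unfold sf
    refine prod_pos fun i hi => ?_
    rw [mem_range] at hi
    have := hsg (i + 1) (by omega) (by omega)
    push_cast at this
    exact this
  have hk0 : k₀ ≠ 0 := by
    intro h
    have h1 := h₀.real.ksq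
    have h2 := hsf (c + 1) (by omega)
    rw [h] at h1
    have h3 : 0 < sf M (c + 1) ^ 2 / (2 * M + 1 : ℝ) := by positivity
    rw [← h1] at h3
    norm_num at h3
  -- the sign
  obtain ⟨F, k, h, hs1, hs2⟩ : ∃ F k, Half M c K F k ∧ (M ≤ 2 * c → 0 < k) ∧
      (2 * c < M → 0 < (-1) ^ (M + 1) * k) := by
    by_cases hc : M ≤ 2 * c
    · rcases lt_or_gt_of_ne hk0 with h1 | h1
      · exact ⟨-F₀, -k₀, h₀.neg, fun _ => by linarith, fun h2 => by omega⟩
      · exact ⟨F₀, k₀, h₀, fun _ => h1, fun h2 => by omega⟩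
    · have h3 : (-1 : ℝ) ^ (M + 1) * k₀ ≠ 0 :=
        mul_ne_zero (pow_ne_zero _ (by norm_num)) hk0
      rcases lt_or_gt_of_ne h3 with h1 | h1
      · exact ⟨-F₀, -k₀, h₀.neg, fun h2 => by omega, fun _ => by linarith⟩
      · exact ⟨F₀, k₀, h₀, fun h2 => by omega, fun _ => h1⟩
  have hpos := hP M c K F k hM h.real hs1 hs2
  -- positivity for complex vectors
  have hposC : ∀ x : Fin (K + 1) → ℂ, toC F *ᵥ x = x → x ≠ 0 →
      0 < ∑ i : Fin (K + 1), Jc M c i * ‖x i‖ ^ 2 := by
    intro x hx hx0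
    have hre : F *ᵥ (fun i => (x i).re) = fun i => (x i).re := by
      funext i
      have h1 := congrArg Complex.re (congrFun hx i)
      rw [Matrix.mulVec, dotProduct] at h1 ⊢
      rw [Complex.re_sum] at h1
      rw [← h1]
      refine sum_congr rfl fun j _ => ?_
      rw [toC_apply, Complex.re_ofReal_mul]
    have him : F *ᵥ (fun i => (x i).im) = fun i => (x i).im := by
      funext i
      have h1 := congrArg Complex.im (congrFun hx i)
      rw [Matrix.mulVec, dotProduct] at h1 ⊢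
      rw [Complex.im_sum] at h1
      rw [← h1]
      refine sum_congr rfl fun j _ => ?_
      rw [toC_apply, Complex.im_ofReal_mul]
    have e1 : ∑ i : Fin (K + 1), Jc M c i * ‖x i‖ ^ 2 =
        ∑ i : Fin (K + 1), Jc M c i * (x i).re ^ 2 + ∑ i : Fin (K + 1), Jc M c i * (x i).im ^ 2 := by
      rw [← sum_add_distrib]
      refine sum_congr rfl fun i _ => ?_
      rw [← Complex.normSq_eq_norm_sq, Complex.normSq_apply]
      ring
    rw [e1]
    by_cases h1 : (fun i => (x i).re) = 0
    · have h2 : (fun i => (x i).im) ≠ 0 := by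
        intro h3
        apply hx0
        funext i
        exact Complex.ext (congrFun h1 i) (congrFun h3 i)
      have h4 := hpos _ him h2
      have h5 : ∑ i : Fin (K + 1), Jc M c i * (x i).re ^ 2 = 0 := by
        refine sum_eq_zero fun i _ => ?_
        rw [show (x i).re = 0 from congrFun h1 i]
        ring
      rw [h5, zero_add]
      exact h4
    · have h4 := hpos _ hre h1
      by_cases h2 : (fun i => (x i).im) = 0
      · have h5 : ∑ i : Fin (K + 1), Jc M c i * (x i).im ^ 2 = 0 := by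
          refine sum_eq_zero fun i _ => ?_
          rw [show (x i).im = 0 from congrFun h2 i]
          ring
        rw [h5, add_zero]
        exact h4
      · exact add_pos h4 (hpos _ him h2)
  -- the form is not degenerate
  have hJ : ∀ i : Fin (K + 1), Jc M c i ≠ 0 := by
    intro i
    unfold Jc
    refine prod_ne_zero_iff.2 fun j hj => ?_
    rw [mem_range] at hj
    have hi := i.2
    unfold be
    have h1 := (hsg (j + 1) (by omega) (by omega)).ne'
    have h2 := (hsg (c + j + 1) (by omega) (by omega)).ne'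
    have h3 := (hsg (c + j + 2) (by omega) (by omega)).ne'
    have h4 : sg M (2 * (c : ℝ) + 1 + ((j + 1 : ℕ) : ℝ)) ≠ 0 := by
      rcases le_or_gt (2 * c + 1 + (j + 1)) M with h5 | h5
      · have := (hsg (2 * c + 1 + (j + 1)) (by omega) h5).ne'
        push_cast at this ⊢
        exact this
      · refine (hT.2.2.2.2 M _ ?_ ?_).ne
        · have : ((M : ℝ) + 1) ≤ 2 * (c : ℝ) + 1 + ((j + 1 : ℕ) : ℝ) := by exact_mod_cast h5
          linarith
        · have : 2 * (c : ℝ) + 1 + ((j + 1 : ℕ) : ℝ) + 1 ≤ 2 * M + 1 := by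
            have : 2 * c + 1 + (j + 1) + 1 ≤ 2 * M + 1 := by omega
            exact_mod_cast this
          linarith
    push_cast at h1 h2 h3 h4 ⊢
    refine div_ne_zero (mul_ne_zero h1 h4) (mul_ne_zero ?_ ?_)
    · rw [show (c : ℝ) + ((j : ℝ) + 1) = (c : ℝ) + j + 1 by ring]
      exact h2
    · rw [show (c : ℝ) + ((j : ℝ) + 1) + 1 = (c : ℝ) + j + 2 by ring]
      exact h3
  obtain ⟨m, y, hm, hy, hk⟩ := hL (K + 1) (fun i => Jc M c i) (toC F) (rho (K + 1) c (sh M) w)
    (rho (K + 1) c (sh M) w)⁻¹ hJ h.sqC (Matrix.mul_nonsing_inv _ (h.rho_unit w)) (h.un_rho w)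
    h.adjC hposC
  refine ⟨m, y, hm, hy, fun p => ?_⟩
  rw [rho_flat, h.comm w, hk p]

end Pool.Agent.H62.CYC
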