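import Pool.Agent.H62.CYC.DefsR
import Pool.Agent.H62.TB.Brg

/-!
# Project CYC: the statements of the tasks about the representations
-/

set_option autoImplicit false

namespace Pool.Agent.H62.CYC

open Finset Matrix
open Pool.Agent.H62.TV (sh)
open Pool.Agent.H62.TB (mer cor crv Lm Um J0 Dg)
open scoped Real

/-- `F` is the half twist in the block `c`, `F = ± Δ / scalar`; `k = F_{00}` -/
structure Half (M c K : ℕ) (F : Matrix (Fin (K + 1)) (Fin (K + 1)) ℝ) (k : ℝ) : Prop where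
  real : HalfR M c K F k
  cor_eq : cor (K + 1) c (sh M) = toC F * mer (K + 1) c (sh M) * toC F
  brd : ∃ ξ : ℂ, ‖ξ‖ = 1 ∧ toC F * mer (K + 1) c (sh M) * toC F =
    ξ • ((mer (K + 1) c (sh M))⁻¹ * toC F * (mer (K + 1) c (sh M))⁻¹)

/-! ### Statements -/

/-- HZ: the half twist in the model -/
def S_HZ : Prop := ∀ (v : ℂ), ‖v‖ = 1 → ∀ (hv : v ≠ 0) (K : ℕ), Pool.Agent.Y482.CY.Nz v K →
  ∃ Fz : Matrix (Fin (K + 1)) (Fin (K + 1)) ℂ, Fz * Fz = 1 ∧ ‖Fz.trace‖ ≤ 1 ∧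
    Fz * Lm v K = Um v K * Fz ∧ ∃ ξ : ℂ, ‖ξ‖ = 1 ∧ J0 v K * Dg v K = ξ • Fz

/-- FE: the half twist in the block, a complex matrix -/
def S_FE : Prop := ∀ M c K : ℕ, c + (K + 1) = M →
  ∃ Fe : Matrix (Fin (K + 1)) (Fin (K + 1)) ℂ, Fe * Fe = 1 ∧ ‖Fe.trace‖ ≤ 1 ∧
    Fe * toC (aR M c K) = toC (bR M c K) * Fe ∧
    cor (K + 1) c (sh M) = Fe * mer (K + 1) c (sh M) * Fe ∧
    ∃ ξ : ℂ, ‖ξ‖ = 1 ∧ Fe * mer (K + 1) c (sh M) * Fe =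
      ξ • ((mer (K + 1) c (sh M))⁻¹ * Fe * (mer (K + 1) c (sh M))⁻¹)

/-- HALF: the half twist in the block -/
def S_HALF : Prop := ∀ M c K : ℕ, c + (K + 1) = M →
  ∃ (F : Matrix (Fin (K + 1)) (Fin (K + 1)) ℝ) (k : ℝ), Half M c K F k

/-- STAR: the trace of `s_2 s_1⁻¹` -/
def S_STAR : Prop := ∀ M c K : ℕ, c + (K + 1) = M →
  (mer (K + 1) c (sh M) * (cor (K + 1) c (sh M))⁻¹).trace =
    ((∑ i ∈ range (K + 1), (-1) ^ i * (sf M (2 * c + 2 * i + 1) / (sf M i * sf M (2 * c + i + 1))) :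
      ℝ) : ℂ)

/-- GR: the growth of the binomials -/
def S_GR : Prop :=
  (∀ ε : ℝ, 0 < ε → ∀ᶠ M : ℕ in Filter.atTop, ∀ n k : ℕ, k ≤ n → n < 2 * M + 1 →
    |sf M n / (sf M k * sf M (n - k))| ≤
      Real.exp ((2 * M + 1) / (2 * π) * (3 * GapVol.lob (π / 3)) + ε * M)) ∧
  (∀ ε : ℝ, 0 < ε → ∀ᶠ M : ℕ in Filter.atTop, ∃ c i : ℕ, c + i + 1 ≤ M ∧ M ≤ 2 * c ∧
    Real.exp ((2 * M + 1) / (2 * π) * (3 * GapVol.lob (π / 3)) - ε * M) ≤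
      |sf M (2 * c + 2 * i + 1) / (sf M i * sf M (2 * c + i + 1))|) ∧
  (∀ M c i : ℕ, c + i + 1 ≤ M → M ≤ 2 * c →
    0 < (-1) ^ i * (sf M (2 * c + 2 * i + 1) / (sf M i * sf M (2 * c + i + 1))))

end Pool.Agent.H62.CYC
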