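import Pool.Agent.H62.CYC.DefsR

/-!
# Project CYC: LA1 in two parts
-/

set_option autoImplicit false

namespace Pool.Agent.H62.CYC

open Finset Matrix

/-- LD: simultaneous diagonalisation on the fixed space of the involution `F` -/
def S_LD : Prop := ∀ (n : ℕ) (J : Fin n → ℝ) (F Q : Matrix (Fin n) (Fin n) ℂ),
  F * F = 1 → Q * Q = Q →
  Fᴴ * diagonal (fun i => (J i : ℂ)) = diagonal (fun i => (J i : ℂ)) * F →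
  Qᴴ * diagonal (fun i => (J i : ℂ)) = diagonal (fun i => (J i : ℂ)) * Q →
  (∀ x : Fin n → ℂ, F *ᵥ x = x → x ≠ 0 → 0 < ∑ i, J i * ‖x i‖ ^ 2) →
  (∀ x : Fin n → ℂ, Q *ᵥ x = x → 0 ≤ ∑ i, J i * ‖x i‖ ^ 2) →
  ∃ (m : ℕ) (V : Matrix (Fin n) (Fin m) ℂ) (c : Fin m → ℝ), m ≤ n ∧ (∀ i, 0 ≤ c i) ∧
    F * V = V ∧ Vᴴ * diagonal (fun i => (J i : ℂ)) * V = 1 ∧
    Vᴴ * diagonal (fun i => (J i : ℂ)) * Q * V = diagonal (fun i => (c i : ℂ)) ∧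
    V * Vᴴ * diagonal (fun i => (J i : ℂ)) = (1 / 2 : ℂ) • (1 + F)

/-- LT: the traces -/
def S_LT : Prop := ∀ (n m : ℕ) (W : Matrix (Fin m) (Fin n) ℂ) (F Q : Matrix (Fin n) (Fin n) ℂ)
  (V : Matrix (Fin n) (Fin m) ℂ) (c : Fin m → ℝ),
  F * F = 1 → Q * Q = Q → Q.trace = ((1 / 2 : ℂ) • (1 + F)).trace →
  W * V = 1 → W * Q * V = diagonal (fun i => (c i : ℂ)) → V * W = (1 / 2 : ℂ) • (1 + F) →
  ∀ k : ℕ, ((((2 : ℂ) • Q - 1) * F) ^ k).trace =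
      (((n : ℝ) - 2 * m + 2 * ∑ i, (Polynomial.Chebyshev.T ℝ (k : ℤ)).eval (2 * c i - 1) : ℝ) : ℂ)

end Pool.Agent.H62.CYC
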