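import Pool.Agent.H62.CYC.DefsX
import Pool.Graph.R_seed8.W719.BX.Defs
import Pool.Graph.R_seed8.W707.TV.Defs
import Pool.Graph.R_seed8.R807.IN4

/-!
# Project CYC, second part: the monodromies `s_2^p s_1^{-p}`, `p ≥ 4`: definitions and statements

`r = 2 M + 1`, `Rh M = r / 2`.  `RH`, `path`, `rect`, `Lf`, `hp`, `Crit2` are those of the library.
-/

set_option autoImplicit false

namespace Pool.Agent.H62.CYC

open Finset Filter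
open Pool.Agent.W709.VC (rect path Lf ell)
open Pool.Agent.W707.TV (Rh RH)
open Pool.Agent.W719.BX (hp Crit2)
open scoped Real Topology

/-- the numbers `t_b`, up to a constant factor -/
noncomputable def tp (p M b : ℕ) : ℂ :=
  Complex.exp (π * Complex.I * p * (Rh M - (b + 1)) ^ 2 / (2 * M + 1))

/-- the integrand; its poles in the strip `|Re ψ| ≤ π` are `± 2 π (2 j + 1) / r`, `j < M - k` -/
noncomputable def HT (p M k : ℕ) (ψ : ℂ) : ℂ :=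
  Complex.exp (Complex.I * p * Rh M * ψ ^ 2 / (8 * π)) *
    (RH M k (ψ + π) * (2 * Complex.cos ((ψ + π) / 2))) * Complex.sin (ψ / 2) /
    Complex.sin (Rh M * ψ)

/-- the weight `∏_{j < M - k} (2 cos (π (2 j + 1) / r))²` -/
noncomputable def WT (M k : ℕ) : ℝ :=
  ∏ j ∈ range (M - k), (2 * Real.cos (π * (2 * j + 1) / (2 * M + 1))) ^ 2

/-- the weight of the term `i` in the block `c` -/
noncomputable def wg (M c i : ℕ) : ℝ :=
  sf M (c + i) ^ 2 / (sf M i * sf M (2 * c + i + 1) * sf M (2 * c + 2 * i + 1))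

/-! ### Statements -/

/-- RES: the transform as a contour integral -/
def S_PRES : Prop := ∀ p M k : ℕ, k < M → M + 1 ≤ 2 * k → ∀ h : ℝ, 0 < h →
  ‖tau M (tp p M) k‖ = (2 * M + 1) / (4 * π) * ‖rect (HT p M k) (-π) π (-h) h‖

/-- PATH: deformation of the contour -/
def S_PPATH : Prop := ∀ p M k : ℕ, ∀ h η b : ℝ, 0 < h → h ≤ η → |b| ≤ π →
  rect (HT p M k) (-π) π (-h) h = -2 * path (HT p M k) h η b

/-- VERT: the vertical sides -/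
def S_PVERT : Prop := ∀ p M k : ℕ, k < M → M + 1 ≤ 2 * k → ∀ y : ℝ, 0 ≤ y →
  WT M k * ‖HT p M k (π + y * Complex.I)‖ ≤ 2 * Real.cosh y ∧
  WT M k * ‖HT p M k (-π + y * Complex.I)‖ ≤ 2 * Real.cosh y * Real.exp (p * Rh M * y / 4)

/-- PBF: the size of the integrand off the real axis, bounded error -/
def S_PPBF : Prop := ∀ (p : ℕ) (h H : ℝ), 0 < h → ∃ C : ℝ, 0 ≤ C ∧ ∀ M k : ℕ, k < M →
  ∀ b η : ℝ, h ≤ η → η ≤ H →
    |Real.log ‖HT p M k (-b + η * Complex.I)‖ - Rh M / (4 * π) *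
      (hp ((p : ℝ) / 2) (2 * π * k / Rh M - π) b η -
        8 * GapVol.lob ((2 * π * k / Rh M - π) / 2))| ≤ C

/-- LOGW: the weight -/
def S_PLOGW : Prop := ∀ ε : ℝ, 0 < ε → ∀ᶠ M : ℕ in atTop, ∀ k : ℕ, k < M → M + 1 ≤ 2 * k →
  |Real.log (WT M k) - Rh M / (4 * π) * (8 * GapVol.lob ((2 * π * k / Rh M - π) / 2))| ≤ ε * M

/-- LAP: the pointwise limit at the critical point -/
def S_PLAP : Prop := ∀ (p : ℕ) (α b η : ℝ) (k : ℕ → ℕ), 4 ≤ p → Crit2 ((p : ℝ) / 2) α b η →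
  (∀ M : ℕ, |2 * π * (k M) - (α + π) * Rh M| ≤ 2 * π) →
  ∃ c : ℂ, 0 < c.re ∧ ∀ s : ℝ, Tendsto (fun M : ℕ =>
    HT p M (k M) (-b + s / (Real.sqrt M : ℝ) + η * Complex.I) /
      HT p M (k M) (-b + η * Complex.I)) atTop (𝓝 (Complex.exp (-c * s ^ 2)))

/-- UP: the upper bound for large `k` -/
def S_PUP : Prop := ∀ (p : ℕ) (α₀ b₀ η : ℝ), 4 ≤ p → Crit2 ((p : ℝ) / 2) α₀ b₀ η →
  ∀ ε : ℝ, 0 < ε → ∀ᶠ M : ℕ in atTop, ∀ k : ℕ, k < M → M + 1 ≤ 2 * k → ∀ h : ℝ, 0 < h →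
    WT M k * ‖rect (HT p M k) (-π) π (-h) h‖ ≤
      Real.exp (Rh M / (4 * π) * hp ((p : ℝ) / 2) α₀ b₀ η + ε * M)

/-- LOW: the lower bound for one `k` -/
def S_PLOW : Prop := ∀ (p : ℕ) (α₀ b₀ η : ℝ), 4 ≤ p → Crit2 ((p : ℝ) / 2) α₀ b₀ η →
  ∀ ε : ℝ, 0 < ε → ∀ᶠ M : ℕ in atTop, ∃ k : ℕ, k < M ∧ M + 1 ≤ 2 * k ∧ ∀ h : ℝ, 0 < h →
    Real.exp (Rh M / (4 * π) * hp ((p : ℝ) / 2) α₀ b₀ η - ε * M) ≤
      WT M k * ‖rect (HT p M k) (-π) π (-h) h‖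

/-- WGU: the weights, upper bound -/
def S_WGU : Prop := ∀ ε : ℝ, 0 < ε → ∀ᶠ M : ℕ in atTop, ∀ c i : ℕ, c + i < M →
  M + 1 ≤ 2 * (c + i) → |wg M c i| ≤ WT M (c + i) ^ 2 * Real.exp (ε * M)

/-- WGL: the weights, lower bound in the middle block -/
def S_WGL : Prop := ∀ ε : ℝ, 0 < ε → ∀ᶠ M : ℕ in atTop, ∀ k : ℕ, k < M → M + 1 ≤ 2 * k →
  ∃ c i : ℕ, c + i = k ∧ M ≤ 2 * c ∧ WT M k ^ 2 * Real.exp (-(ε * M)) ≤ |wg M c i|

/-- SML: the terms with small `k` -/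
def S_PSML : Prop := ∀ ε : ℝ, 0 < ε → ∀ᶠ M : ℕ in atTop, ∀ t : ℕ → ℂ, (∀ b, ‖t b‖ = 1) →
  ∀ c i : ℕ, 2 * (c + i) ≤ M → c + i < M → ‖tau M t (c + i)‖ ^ 2 * |wg M c i| ≤
    Real.exp ((2 * M + 1) / (2 * π) * (4 * GapVol.lob (π / 4)) + ε * M)

/-- SGN: the signs -/
def S_PSGN : Prop := ∀ M c i : ℕ, c + i + 1 ≤ M → M ≤ 2 * c → 0 < (-1) ^ i * wg M c i

/-- PVOL: the volume of the layered triangulation, from the library theorem on the bundles with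
fibre the four-punctured sphere -/
def S_PVOL : Prop := ∀ (p n : ℕ), 4 ≤ p → 1 ≤ n → ∀ α b η : ℝ, Crit2 ((p : ℝ) / 2) α b η →
  Pool.Agent.R807.IN.hV (List.replicate n (List.replicate p true ++ List.replicate p false)).flatten =
    2 * n * hp ((p : ℝ) / 2) α b η

end Pool.Agent.H62.CYC
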