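import Mathlib

/-!
# Project CYC: the Chen-Yang conjecture for the cyclic covers of the figure-eight knot complement:
real definitions and the statements of the tasks which need only Mathlib

`r = 2 M + 1`, `c + (K + 1) = M`: the block with the colour `2 c` of the boundary has the dimension
`K + 1`.
-/

set_option autoImplicit false

namespace Pool.Agent.H62.CYC

open Finset Matrix
open scoped Real

/-! ### Definitions -/

/-- `σ(x) = 2 sin (2 π x / r)` -/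
noncomputable def sg (M : ℕ) (x : ℝ) : ℝ := 2 * Real.sin (2 * π * x / (2 * M + 1))

/-- `σ(1) ⋯ σ(n)` -/
noncomputable def sf (M n : ℕ) : ℝ := ∏ j ∈ range n, sg M ((j : ℝ) + 1)

/-- `Y(x) = -2 cos (4 π x / r)`, so that `σ(x + l) σ(x - l) = Y(x) - Y(l)` -/
noncomputable def yy (M : ℕ) (x : ℝ) : ℝ := -2 * Real.cos (4 * π * x / (2 * M + 1))

/-- the product of the two entries `β_j = σ(j) σ(2c+1+j) / (σ(c+j) σ(c+j+1))` -/
noncomputable def be (M c j : ℕ) : ℝ :=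
  sg M j * sg M (2 * c + 1 + j) / (sg M ((c : ℝ) + j) * sg M ((c : ℝ) + j + 1))

/-- the invariant form: `J_j = β_1 ⋯ β_j` -/
noncomputable def Jc (M c j : ℕ) : ℝ := ∏ i ∈ range j, be M c (i + 1)

/-- the eigenvalue `λ_a = -2 cos (2 π (a + 1) / r)` of the curve operators -/
noncomputable def lm (M a : ℕ) : ℝ := -2 * Real.cos (2 * π * ((a : ℝ) + 1) / (2 * M + 1))

/-- the monic polynomials `Q_{j+1} = x Q_j - β_j Q_{j-1}` -/
noncomputable def Qp (M c : ℕ) : ℕ → ℝ → ℝ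
  | 0, _ => 1
  | 1, x => x
  | (j + 2), x => x * Qp M c (j + 1) x - be M c (j + 1) * Qp M c j x

/-- the curve operator of the core, a real matrix -/
noncomputable def aR (M c K : ℕ) : Matrix (Fin (K + 1)) (Fin (K + 1)) ℝ := fun i j =>
  if (i : ℕ) = j + 1 then 1
  else if (i : ℕ) + 1 = j then be M c j
  else if (i : ℕ) = j ∧ (i : ℕ) = K then
    Real.sin (π * (2 * c + 1) / (2 * M + 1)) / Real.sin (π / (2 * M + 1))
  else 0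

/-- the curve operator of the meridian -/
noncomputable def bR (M c K : ℕ) : Matrix (Fin (K + 1)) (Fin (K + 1)) ℝ :=
  diagonal fun i => lm M (c + i)

/-- a real matrix as a complex matrix -/
noncomputable def toC {n : ℕ} (F : Matrix (Fin n) (Fin n) ℝ) : Matrix (Fin n) (Fin n) ℂ :=
  F.map fun x => (x : ℂ)

/-- `F` is (the real form of) the half twist in the block `c`; `k = F_{00}` -/
structure HalfR (M c K : ℕ) (F : Matrix (Fin (K + 1)) (Fin (K + 1)) ℝ) (k : ℝ) : Prop where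
  sq : F * F = 1
  tr : |F.trace| ≤ 1
  int : F * aR M c K = bR M c K * F
  frm : ∀ i j : Fin (K + 1), F i j =
    k * Qp M c j (lm M c) * Qp M c i (lm M (c + j)) / Jc M c i
  adj : ∀ i j : Fin (K + 1), Jc M c i * F i j = Jc M c j * F j i
  ksq : k ^ 2 = sf M (c + 1) ^ 2 / (2 * M + 1)

/-! ### Statements -/

/-- TRG: trigonometry and signs -/
def S_TRG : Prop :=
  (∀ (M : ℕ) (x l : ℝ), sg M (x + l) * sg M (x - l) = yy M x - yy M l) ∧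
  (∀ (M : ℕ) (x : ℝ), sg M x ^ 2 = yy M x + 2) ∧
  (∀ M a : ℕ, lm M a ^ 2 = 2 - yy M ((a : ℝ) + 1)) ∧
  (∀ (M : ℕ) (x : ℝ), 0 < x → 2 * x < 2 * M + 1 → 0 < sg M x) ∧
  (∀ (M : ℕ) (x : ℝ), 2 * M + 1 < 2 * x → x < 2 * M + 1 → sg M x < 0)

/-- QC: closed formulas: `Q_j(λ_c)`, `J_j` -/
def S_QC : Prop :=
  (∀ M c j : ℕ, c + j + 1 ≤ M → Qp M c j (lm M c) =
    (-1) ^ j * ∏ i ∈ range j, (sg M (2 * c + 2 + i) / sg M ((c : ℝ) + 1 + i))) ∧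
  (∀ M c j : ℕ, c + j + 1 ≤ M → Jc M c j =
    sf M j * sf M (2 * c + 1 + j) * sf M c * sf M (c + 1) /
      (sf M (2 * c + 1) * sf M (c + j) * sf M (c + j + 1))) ∧
  (∀ M c j : ℕ, c + j + 1 ≤ M → Qp M c j (lm M c) ^ 2 / Jc M c j =
    sg M ((c : ℝ) + j + 1) ^ 2 * (∏ l ∈ range c, (yy M ((c : ℝ) + j + 1) - yy M ((l : ℝ) + 1))) /
      (sg M ((c : ℝ) + 1) * sf M (2 * c + 1)))

/-- OC: the sum of the weights -/
def S_OC : Prop := ∀ M c : ℕ, c + 1 ≤ M →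
  ∑ N ∈ range M, sg M ((N : ℝ) + 1) ^ 2 *
    ∏ l ∈ range c, (yy M ((N : ℝ) + 1) - yy M ((l : ℝ) + 1)) =
    (2 * M + 1) * sf M (2 * c + 1) / (sf M c * sf M (c + 1))

/-- LA2: the signature lemma -/
def S_LA2 : Prop := ∀ (n : ℕ) (J g : Fin n → ℝ) (F Y : Matrix (Fin n) (Fin n) ℝ), F * F = 1 →
  (∀ i j, J i * F i j = J j * F j i) → Y.det ≠ 0 →
  Yᵀ * diagonal J * F * Y = diagonal g →
  3 * (n : ℝ) + F.trace < 2 * (((univ.filter fun i => 0 < J i).card : ℝ) +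
    ((univ.filter fun i => 0 < g i).card : ℝ)) + 4 →
  ∀ x : Fin n → ℝ, F *ᵥ x = x → x ≠ 0 → 0 < ∑ i, J i * x i ^ 2

/-- POS: the invariant form is positive on the fixed vectors of the half twist -/
def S_POS : Prop := ∀ (M c K : ℕ) (F : Matrix (Fin (K + 1)) (Fin (K + 1)) ℝ) (k : ℝ),
  c + (K + 1) = M → HalfR M c K F k →
  (M ≤ 2 * c → 0 < k) → (2 * c < M → 0 < (-1) ^ (M + 1) * k) →
  ∀ x : Fin (K + 1) → ℝ, F *ᵥ x = x → x ≠ 0 → 0 < ∑ i : Fin (K + 1), Jc M c i * x i ^ 2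

/-- STRC: the structure of an involution which exchanges the two curve operators -/
def S_STRC : Prop := ∀ M c K : ℕ, c + (K + 1) = M →
  ∀ Fe : Matrix (Fin (K + 1)) (Fin (K + 1)) ℂ, Fe * Fe = 1 → ‖Fe.trace‖ ≤ 1 →
  Fe * toC (aR M c K) = toC (bR M c K) * Fe →
  ∃ (F : Matrix (Fin (K + 1)) (Fin (K + 1)) ℝ) (k : ℝ), HalfR M c K F k ∧ toC F = Fe

/-- TRD: divided differences; the nodes are `y 1, …, y M`, written `y (N + 1)`, `N < M` -/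
def S_TRD : Prop := ∀ (M : ℕ) (y w : ℕ → ℝ) (f : ℕ → ℕ → ℝ) (U : ℕ → Polynomial ℝ) (t s : ℕ → ℂ),
  (∀ i < M, ∀ j < M, i ≠ j → y i ≠ y j) → (∀ i < M, w i ≠ 0) →
  (∀ i < M, ∀ j < M, f i j = f j i) →
  (∀ i < M, (U i).natDegree ≤ i) → (∀ i < M, ∀ j < M, f i j = w j * (U i).eval (y j)) →
  ∑ i ∈ range M, ∑ j ∈ range M, t i * s j * (f i j : ℂ) =
    ∑ k ∈ range M,
      (∑ i ∈ range M, (w i : ℂ) * (∏ l ∈ range k, ((y i : ℂ) - y l)) * t i) *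
      (∑ i ∈ range M, (w i : ℂ) * (∏ l ∈ range k, ((y i : ℂ) - y l)) * s i) *
      (((U k).coeff k : ℝ) : ℂ) / ((w k : ℂ) * ∏ l ∈ range k, ((y k : ℂ) - y l))

/-- TRF: the trace of `D F D⁻¹ F`, `D = diag (t_c, t_{c+1}, …)` -/
def S_TRF : Prop := ∀ (M : ℕ) (t : ℕ → ℂ), (∀ a, ‖t a‖ = 1) →
  (∀ c K : ℕ, c + (K + 1) = M → ∃ (F : Matrix (Fin (K + 1)) (Fin (K + 1)) ℝ) (k : ℝ),
    HalfR M c K F k ∧ ‖∑ j : Fin (K + 1), (F 0 j : ℂ) * t (c + j) * F j 0‖ = |k|) →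
  ∀ (c K : ℕ) (F : Matrix (Fin (K + 1)) (Fin (K + 1)) ℝ) (k : ℝ), c + (K + 1) = M →
  HalfR M c K F k →
  ∑ i : Fin (K + 1), ∑ j : Fin (K + 1), t (c + i) * star (t (c + j)) * (F i j * F j i : ℝ) =
    ((∑ i ∈ range (K + 1), (-1) ^ i * (sf M (2 * c + 2 * i + 1) / (sf M i * sf M (2 * c + i + 1))) :
      ℝ) : ℂ)

/-- LA1: a product of two reflections -/
def S_LA1 : Prop := ∀ (n : ℕ) (J : Fin n → ℝ) (F X X' : Matrix (Fin n) (Fin n) ℂ),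
  (∀ i, J i ≠ 0) → F * F = 1 → X * X' = 1 →
  Xᴴ * diagonal (fun i => (J i : ℂ)) * X = diagonal (fun i => (J i : ℂ)) →
  Fᴴ * diagonal (fun i => (J i : ℂ)) = diagonal (fun i => (J i : ℂ)) * F →
  (∀ x : Fin n → ℂ, F *ᵥ x = x → x ≠ 0 → 0 < ∑ i, J i * ‖x i‖ ^ 2) →
  ∃ (m : ℕ) (y : Fin m → ℝ), m ≤ n ∧ (∀ i, -1 ≤ y i) ∧ ∀ k : ℕ,
    ((X * F * X' * F) ^ k).trace =
      (((n : ℝ) - 2 * m + 2 * ∑ i, (Polynomial.Chebyshev.T ℝ (k : ℤ)).eval (y i) : ℝ) : ℂ)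

/-- BND: the bounds for the traces of the powers -/
def S_BND : Prop := ∀ (n m : ℕ) (y : Fin m → ℝ) (T : ℕ → ℂ), 1 ≤ n → m ≤ n → (∀ i, -1 ≤ y i) →
  (∀ k : ℕ, T k =
      (((n : ℝ) - 2 * m + 2 * ∑ i, (Polynomial.Chebyshev.T ℝ (k : ℤ)).eval (y i) : ℝ) : ℂ)) →
  (∀ k : ℕ, ‖T k‖ ≤ 3 * n * (2 * ‖T 1‖ + 4 * n) ^ k) ∧
  (∀ k : ℕ, 1 ≤ k → 4 * (n : ℝ) ≤ ‖T 1‖ → 2 * ((‖T 1‖ - n) / (2 * n)) ^ k - 3 * n ≤ ‖T k‖)

end Pool.Agent.H62.CYC
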