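import Pool.Agent.H62.CYC.Gen2
import Pool.Agent.H62.CYC.DefsP
import Pool.Graph.R_seed8.W709.QAT.Calc
import Pool.Graph.R_seed8.W709.VC.Up

/-!
Project CYC: the limit for `s_2^p s_1^{-p}`, `p ≥ 4`, from the analytic statements.
-/

set_option autoImplicit false

namespace Pool.Agent.H62.CYC

open Finset Matrix Filter Topology
open Pool.Agent.H62.TV (sh sh_ne sh_norm)
open Pool.Agent.H62.TB (mer cor crv mu ltr rho tvt tvt_eq)
open Pool.Agent.W709.VC (rect)
open Pool.Agent.W707.TV (Rh)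
open Pool.Agent.W719.BX (hp Crit2)
open scoped Real

/-- the terms -/
noncomputable def gP (p M c i : ℕ) : ℝ := ‖tau M (tp p M) (c + i)‖ ^ 2 * wg M c i / (2 * M + 1)

lemma tp_norm (p M b : ℕ) : ‖tp p M b‖ = 1 := by
  unfold tp
  have e : (π * Complex.I * p * ((Rh M : ℂ) - (b + 1)) ^ 2 / (2 * M + 1) : ℂ) =
      ((π * p * (Rh M - (b + 1)) ^ 2 / (2 * M + 1) : ℝ) : ℂ) * Complex.I := by
    push_cast
    ring
  rw [e, Complex.norm_exp_ofReal_mul_I]

/-- the transform for the powers of the twist coefficients -/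
lemma tau_tp (p M k : ℕ) : ‖tau M (fun b => mu (sh M) b ^ p) k‖ = ‖tau M (tp p M) k‖ := by
  have hr : (2 * (M : ℂ) + 1) ≠ 0 := by
    have : (2 * (M : ℝ) + 1) ≠ 0 := by positivity
    exact_mod_cast this
  set κ : ℂ := Complex.exp (((π * p * (2 * M + 1) / 4 + π * p / (2 * M + 1) : ℝ) : ℂ) * Complex.I) *
    (-1) ^ p with hκ
  have hκ1 : ‖κ‖ = 1 := by
    rw [hκ, norm_mul, Complex.norm_exp_ofReal_mul_I, norm_pow, norm_neg, norm_one, one_pow, mul_one]
  have e1 : tau M (tp p M) k = κ * tau M (fun b => mu (sh M) b ^ p) k := by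
    unfold tau
    rw [mul_sum]
    refine sum_congr rfl fun b _ => ?_
    have e2 : tp p M b = κ * mu (sh M) b ^ p := by
      have e4 : mu (sh M) b = (-1) ^ b * Complex.exp (((π * (b ^ 2 + 2 * b) / (2 * M + 1) : ℝ) : ℂ) *
          Complex.I) := by
        unfold mu sh
        rw [← Complex.exp_nat_mul]
        congr 2
        push_cast
        ring
      have e5 : ((-1 : ℂ) ^ b) ^ p * (-1) ^ p = Complex.exp (-(((π * p * (b + 1) : ℝ) : ℂ) *
          Complex.I)) := by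
        have : (-1 : ℂ) = Complex.exp (-(π * Complex.I)) := by
          rw [Complex.exp_neg, Complex.exp_pi_mul_I]
          norm_num
        rw [← pow_mul, ← pow_add, this, ← Complex.exp_nat_mul]
        congr 1
        push_cast
        ring
      rw [e4, mul_pow, hκ]
      have e6 : Complex.exp (((π * p * (2 * M + 1) / 4 + π * p / (2 * M + 1) : ℝ) : ℂ) * Complex.I) *
          (-1) ^ p * (((-1 : ℂ) ^ b) ^ p *
          Complex.exp (((π * (b ^ 2 + 2 * b) / (2 * M + 1) : ℝ) : ℂ) * Complex.I) ^ p) =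
          (((-1 : ℂ) ^ b) ^ p * (-1) ^ p) *
          (Complex.exp (((π * p * (2 * M + 1) / 4 + π * p / (2 * M + 1) : ℝ) : ℂ) * Complex.I) *
          Complex.exp (((π * (b ^ 2 + 2 * b) / (2 * M + 1) : ℝ) : ℂ) * Complex.I) ^ p) := by ring
      have hrR : (2 * (M : ℝ) + 1) ≠ 0 := by positivity
      have e7 : π * p * (Rh M - ((b : ℝ) + 1)) ^ 2 / (2 * M + 1) = -(π * p * (b + 1)) +
          ((π * p * (2 * M + 1) / 4 + π * p / (2 * M + 1)) +
            p * (π * (b ^ 2 + 2 * b) / (2 * M + 1))) := by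
        unfold Rh
        field_simp
        ring
      rw [e6, e5, ← Complex.exp_nat_mul, ← Complex.exp_add, ← Complex.exp_add]
      unfold tp
      congr 1
      have e8 := congrArg (fun x : ℝ => (x : ℂ) * Complex.I) e7
      push_cast at e8 ⊢
      linear_combination e8
    rw [e2]
    ring
  rw [e1, norm_mul, hκ1, one_mul]

/-- the trace -/
lemma tc_starP (hH : S_HALF) (hR : S_TRF2) (p : ℕ) {M c : ℕ} (hc : c < M) :
    tc (comm (List.replicate p (true, true))) M c =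
      ((∑ i ∈ range (M - c), (-1) ^ i * gP p M c i : ℝ) : ℂ) := by
  obtain ⟨K, hK⟩ : ∃ K, M - c = K + 1 := ⟨M - c - 1, by omega⟩
  have hM : c + (K + 1) = M := by omega
  obtain ⟨F, k, h⟩ := hH M c K hM
  have h1 := hR M (fun b => mu (sh M) b ^ p) c K F k hM h.real
  unfold tc
  rw [hK, h.comm]
  have e1 : rho (K + 1) c (sh M) (List.replicate p (true, true)) =
      diagonal fun i : Fin (K + 1) => mu (sh M) (c + i) ^ p := by
    have e0 : rho (K + 1) c (sh M) (List.replicate p (true, true)) =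
        mer (K + 1) c (sh M) ^ p := by
      unfold rho
      rw [List.map_replicate, List.prod_replicate]
      rfl
    rw [e0]
    unfold mer
    rw [Matrix.diagonal_pow]
    rfl
  have e2 : (diagonal fun i : Fin (K + 1) => mu (sh M) (c + i) ^ p)⁻¹ =
      diagonal fun i : Fin (K + 1) => star (mu (sh M) (c + i) ^ p) := by
    apply Matrix.inv_eq_right_inv
    rw [Matrix.diagonal_mul_diagonal, ← Matrix.diagonal_one]
    congr 1
    funext i
    rw [star_pow, mu_star, inv_pow]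
    exact mul_inv_cancel₀ (pow_ne_zero _ (mu_ne _ _))
  rw [e1, e2]
  have e3 : (diagonal (fun i : Fin (K + 1) => mu (sh M) (c + i) ^ p) * toC F *
      diagonal (fun i : Fin (K + 1) => star (mu (sh M) (c + i) ^ p)) * toC F).trace =
      ∑ i : Fin (K + 1), ∑ j : Fin (K + 1), mu (sh M) (c + i) ^ p *
        star (mu (sh M) (c + j) ^ p) * (F i j * F j i : ℝ) := by
    rw [Matrix.trace]
    refine sum_congr rfl fun i _ => ?_
    rw [Matrix.diag_apply, Matrix.mul_apply]
    refine sum_congr rfl fun j _ => ?_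
    rw [Matrix.mul_diagonal, Matrix.diagonal_mul, toC_apply, toC_apply]
    push_cast
    ring
  rw [e3]
  refine h1.trans ?_
  congr 1
  refine sum_congr rfl fun i hi => ?_
  rw [tau_tp]
  unfold gP wg
  congr 1
  rw [mul_comm (2 * (M : ℝ) + 1), ← div_div, mul_div_assoc (‖tau M (tp p M) (c + i)‖ ^ 2)]

lemma bnd_val (hB : Pool.Agent.W719.BX.S_BND) {p : ℕ} (hp4 : 4 ≤ p) {α b η : ℝ} (hC : Crit2 ((p : ℝ) / 2) α b η) :
    0 < hp ((p : ℝ) / 2) α b η ∧ 4 * GapVol.lob (π / 4) ≤ hp ((p : ℝ) / 2) α b η / 2 := by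
  have h1 := (hB ((p : ℝ) / 2) α b η (by
    have : (4 : ℝ) ≤ p := by exact_mod_cast hp4
    linarith) hC).1
  have h2 := Pool.Agent.W709.VC.lob6_pos
  have h3 := Pool.Agent.W709.QAT.lob_max (π / 4)
  constructor <;> linarith

lemma Rh_eq (M : ℕ) : Rh M / (4 * π) * 2 = (2 * M + 1) / (2 * π) / 2 := by
  unfold Rh
  field_simp
  ring

/-- polynomial factors are absorbed -/
lemma poly_small {ε : ℝ} (hε : 0 < ε) : ∀ᶠ M : ℕ in atTop, 2 * (M : ℝ) + 1 ≤ Real.exp (ε * M) := by
  filter_upwards [eventually_ge_atTop (max 1 ⌈6 / ε ^ 2⌉₊)] with M hM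
  have hM1 : 1 ≤ M := le_trans (le_max_left _ _) hM
  have h3 : (1 : ℝ) ≤ M := by exact_mod_cast hM1
  have h4 : 6 / ε ^ 2 ≤ M := (Nat.le_ceil _).trans (by exact_mod_cast le_trans (le_max_right _ _) hM)
  rw [div_le_iff₀ (by positivity)] at h4
  have h5 := Real.quadratic_le_exp_of_nonneg (show 0 ≤ ε * M by positivity)
  have h6 : 6 * (M : ℝ) ≤ M * ε ^ 2 * M := mul_le_mul_of_nonneg_right h4 (by linarith)
  have h7 : (ε * M) ^ 2 = M * ε ^ 2 * M := by ring
  have h8 : 0 ≤ ε * M := by positivity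
  linarith

/-- **the upper bound for the terms** -/
lemma gP_upper (hB : Pool.Agent.W719.BX.S_BND) (hRes : S_PRES) (hUp : S_PUP) (hW : S_WGU) (hS : S_PSML) {p : ℕ}
    (hp4 : 4 ≤ p) {α b η : ℝ} (hC : Crit2 ((p : ℝ) / 2) α b η) :
    ∀ ε : ℝ, 0 < ε → ∀ᶠ M : ℕ in atTop, ∀ c i : ℕ, c + i + 1 ≤ M →
      |gP p M c i| ≤ Real.exp ((2 * M + 1) / (2 * π) * (hp ((p : ℝ) / 2) α b η / 2) + ε * M) := by
  intro ε hε
  have hpi := Real.pi_pos
  obtain ⟨hV0, hV1⟩ := bnd_val hB hp4 hC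
  set V := hp ((p : ℝ) / 2) α b η with hV
  filter_upwards [hUp p α b η hp4 hC (ε / 4) (by positivity), hW (ε / 4) (by positivity),
    hS ε hε, poly_small (show 0 < ε / 4 by positivity), eventually_ge_atTop 1]
    with M h1 h2 h3 h4 hM1 c i hci
  have hM : (1 : ℝ) ≤ M := by exact_mod_cast hM1
  have hr : (0 : ℝ) < 2 * M + 1 := by linarith
  have eabs : |gP p M c i| = ‖tau M (tp p M) (c + i)‖ ^ 2 * |wg M c i| / (2 * M + 1) := by
    unfold gP
    rw [abs_div, abs_mul, abs_of_pos hr, abs_of_nonneg (by positivity)]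
  rw [eabs, div_le_iff₀ hr]
  by_cases hk : M + 1 ≤ 2 * (c + i)
  · have a1 := h1 (c + i) (by omega) hk 1 one_pos
    have a2 := h2 c i (by omega) hk
    have a3 := hRes p M (c + i) (by omega) hk 1 one_pos
    set T := ‖rect (HT p M (c + i)) (-π) π (-1) 1‖ with hT
    have hT0 : 0 ≤ T := norm_nonneg _
    have hWT : 0 ≤ WT M (c + i) := by
      unfold WT
      exact prod_nonneg fun j _ => by positivity
    rw [a3]
    calc ((2 * (M : ℝ) + 1) / (4 * π) * T) ^ 2 * |wg M c i|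
        ≤ ((2 * (M : ℝ) + 1) / (4 * π) * T) ^ 2 * (WT M (c + i) ^ 2 * Real.exp (ε / 4 * M)) :=
          mul_le_mul_of_nonneg_left a2 (by positivity)
      _ = ((2 * (M : ℝ) + 1) / (4 * π)) ^ 2 * (WT M (c + i) * T) ^ 2 * Real.exp (ε / 4 * M) := by
          ring
      _ ≤ ((2 * (M : ℝ) + 1) / (4 * π)) ^ 2 *
          Real.exp (Rh M / (4 * π) * V + ε / 4 * M) ^ 2 * Real.exp (ε / 4 * M) := by
          refine mul_le_mul_of_nonneg_right ?_ (Real.exp_pos _).le
          refine mul_le_mul_of_nonneg_left ?_ (by positivity)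
          exact pow_le_pow_left₀ (by positivity) a1 2
      _ = ((2 * (M : ℝ) + 1) / (4 * π)) ^ 2 *
          Real.exp ((2 * M + 1) / (2 * π) * (V / 2) + 3 * (ε / 4) * M) := by
          rw [mul_assoc, ← Real.exp_nat_mul, ← Real.exp_add]
          congr 2
          have := Rh_eq M
          push_cast
          linear_combination V * this
      _ ≤ ((2 * (M : ℝ) + 1) * Real.exp (ε / 4 * M)) *
          Real.exp ((2 * M + 1) / (2 * π) * (V / 2) + 3 * (ε / 4) * M) := by
          refine mul_le_mul_of_nonneg_right ?_ (Real.exp_pos _).le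
          have h5 : ((2 * (M : ℝ) + 1) / (4 * π)) ^ 2 ≤ (2 * (M : ℝ) + 1) ^ 2 := by
            refine pow_le_pow_left₀ (by positivity) ?_ 2
            refine div_le_self hr.le ?_
            linarith [Real.pi_gt_three]
          nlinarith
      _ = Real.exp ((2 * M + 1) / (2 * π) * (V / 2) + ε * M) * (2 * M + 1) := by
          rw [mul_assoc, ← Real.exp_add, mul_comm]
          congr 2
          ring
  · have a1 := h3 (tp p M) (tp_norm p M) c i (by omega) (by omega)
    refine a1.trans ?_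
    have h5 : Real.exp ((2 * M + 1) / (2 * π) * (4 * GapVol.lob (π / 4)) + ε * M) ≤
        Real.exp ((2 * M + 1) / (2 * π) * (V / 2) + ε * M) := by
      refine Real.exp_le_exp.2 ?_
      have := mul_le_mul_of_nonneg_left hV1 (show 0 ≤ (2 * (M : ℝ) + 1) / (2 * π) by positivity)
      linarith
    refine h5.trans (le_mul_of_one_le_right (Real.exp_pos _).le (by linarith))

/-- **the lower bound for one term** -/
lemma gP_lower (hRes : S_PRES) (hLow : S_PLOW) (hW : S_WGL) {p : ℕ}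
    (hp4 : 4 ≤ p) {α b η : ℝ} (hC : Crit2 ((p : ℝ) / 2) α b η) :
    ∀ ε : ℝ, 0 < ε → ∀ᶠ M : ℕ in atTop, ∃ c i : ℕ, c + i + 1 ≤ M ∧ M ≤ 2 * c ∧
      Real.exp ((2 * M + 1) / (2 * π) * (hp ((p : ℝ) / 2) α b η / 2) - ε * M) ≤ |gP p M c i| := by
  intro ε hε
  have hpi := Real.pi_pos
  set V := hp ((p : ℝ) / 2) α b η with hV
  have e4 : ∀ᶠ M : ℕ in atTop, 16 * π ^ 2 ≤ Real.exp (ε / 4 * M) := by
    have : Tendsto (fun M : ℕ => Real.exp (ε / 4 * (M : ℝ))) atTop atTop :=
      Real.tendsto_exp_atTop.comp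
        (Tendsto.const_mul_atTop (by positivity) tendsto_natCast_atTop_atTop)
    exact this.eventually_ge_atTop _
  filter_upwards [hLow p α b η hp4 hC (ε / 4) (by positivity), hW (ε / 4) (by positivity),
    e4, eventually_ge_atTop 1] with M h1 h2 h3 hM1
  have hM : (1 : ℝ) ≤ M := by exact_mod_cast hM1
  have hr : (0 : ℝ) < 2 * M + 1 := by linarith
  obtain ⟨k, hkM, hk, a1⟩ := h1
  obtain ⟨c, i, hci, hc, a2⟩ := h2 k hkM hk
  have a1 := a1 1 one_pos
  have a3 := hRes p M k hkM hk 1 one_pos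
  refine ⟨c, i, by omega, hc, ?_⟩
  subst hci
  have eabs : |gP p M c i| = ‖tau M (tp p M) (c + i)‖ ^ 2 * |wg M c i| / (2 * M + 1) := by
    unfold gP
    rw [abs_div, abs_mul, abs_of_pos hr, abs_of_nonneg (by positivity)]
  set T := ‖rect (HT p M (c + i)) (-π) π (-1) 1‖ with hT
  rw [eabs, a3, le_div_iff₀ hr]
  have h5 : Real.exp ((2 * M + 1) / (2 * π) * (V / 2) - ε * M) * (16 * π ^ 2) ≤
      Real.exp (Rh M / (4 * π) * V - ε / 4 * M) ^ 2 * Real.exp (-(ε / 4 * M)) := by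
    calc Real.exp ((2 * M + 1) / (2 * π) * (V / 2) - ε * M) * (16 * π ^ 2)
        ≤ Real.exp ((2 * M + 1) / (2 * π) * (V / 2) - ε * M) * Real.exp (ε / 4 * M) :=
          mul_le_mul_of_nonneg_left h3 (Real.exp_pos _).le
      _ = Real.exp (Rh M / (4 * π) * V - ε / 4 * M) ^ 2 * Real.exp (-(ε / 4 * M)) := by
          rw [← Real.exp_nat_mul, ← Real.exp_add, ← Real.exp_add]
          congr 1
          have := Rh_eq M
          push_cast
          linear_combination (-V) * this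
  calc Real.exp ((2 * M + 1) / (2 * π) * (V / 2) - ε * M) * (2 * (M : ℝ) + 1)
      ≤ Real.exp ((2 * M + 1) / (2 * π) * (V / 2) - ε * M) * (2 * (M : ℝ) + 1) ^ 2 := by
        refine mul_le_mul_of_nonneg_left ?_ (Real.exp_pos _).le
        nlinarith
    _ = (Real.exp ((2 * M + 1) / (2 * π) * (V / 2) - ε * M) * (16 * π ^ 2)) *
        ((2 * (M : ℝ) + 1) / (4 * π)) ^ 2 := by
        field_simp
        ring
    _ ≤ (Real.exp (Rh M / (4 * π) * V - ε / 4 * M) ^ 2 * Real.exp (-(ε / 4 * M))) *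
        ((2 * (M : ℝ) + 1) / (4 * π)) ^ 2 :=
        mul_le_mul_of_nonneg_right h5 (by positivity)
    _ ≤ ((WT M (c + i) * T) ^ 2 * Real.exp (-(ε / 4 * M))) *
        ((2 * (M : ℝ) + 1) / (4 * π)) ^ 2 := by
        refine mul_le_mul_of_nonneg_right ?_ (by positivity)
        refine mul_le_mul_of_nonneg_right ?_ (Real.exp_pos _).le
        exact pow_le_pow_left₀ (Real.exp_pos _).le a1 2
    _ = ((2 * (M : ℝ) + 1) / (4 * π) * T) ^ 2 * (WT M (c + i) ^ 2 * Real.exp (-(ε / 4 * M))) := by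
        ring
    _ ≤ ((2 * (M : ℝ) + 1) / (4 * π) * T) ^ 2 * |wg M c i| :=
        mul_le_mul_of_nonneg_left a2 (by positivity)

/-- **the limit** -/
theorem lr_limP (hH : S_HALF) (hR : S_TRF2) (hB : Pool.Agent.W719.BX.S_BND) (hRes : S_PRES) (hUp : S_PUP)
    (hLow : S_PLOW) (hWU : S_WGU) (hWL : S_WGL) (hS : S_PSML) (hSg : S_PSGN) {p : ℕ}
    (hp4 : 4 ≤ p) {α b η : ℝ} (hC : Crit2 ((p : ℝ) / 2) α b η) :
    Tendsto (fun M : ℕ => sc M * Real.log (tvt (comm (List.replicate p (true, true))) (2 * M + 1)))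
      atTop (𝓝 (hp ((p : ℝ) / 2) α b η)) := by
  have h1 := gen_lim0 (G := gP p) (W := hp ((p : ℝ) / 2) α b η / 2)
    (fun M c hc => tc_starP hH hR p hc)
    (gP_upper hB hRes hUp hWU hS hp4 hC) (gP_lower hRes hLow hWL hp4 hC)
    (fun M c i h1 h2 => by
      have h3 := hSg M c i h1 h2
      unfold gP
      have e1 : (-1 : ℝ) ^ i * (‖tau M (tp p M) (c + i)‖ ^ 2 * wg M c i / (2 * M + 1)) =
          ‖tau M (tp p M) (c + i)‖ ^ 2 * ((-1) ^ i * wg M c i) / (2 * M + 1) := by ring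
      rw [e1]
      positivity)
  have e2 : 2 * (hp ((p : ℝ) / 2) α b η / 2) = hp ((p : ℝ) / 2) α b η := by ring
  rw [e2] at h1
  exact h1

end Pool.Agent.H62.CYC
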