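import Pool.Agent.H62.CYC.Fam
import Pool.Agent.H62.CYC.DefsT
import Pool.Graph.R_pool_sql_team_seeded_c8625f6e.K4H85.AX.Bnd3

/-!
Project CYC, third part: the limit for `s_2^3 s_1^{-3}`.
-/

set_option autoImplicit false

namespace Pool.Agent.H62.CYC

open Finset Matrix Filter Topology
open Pool.Agent.H62.TV (sh sh_ne sh_norm)
open Pool.Agent.H62.TB (mer cor crv mu ltr rho tvt tvt_eq)
open Pool.Agent.W709.VC (rect)
open Pool.Agent.W707.TV (Rh)
open Pool.Agent.W719.BX (hp Crit2)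
open Pool.Agent.K4H85.AX (C3)
open scoped Real

lemma bnd_val3 {α b η : ℝ} (hC : C3 α b η) :
    0 < hp (3 / 2) α b η ∧ 4 * GapVol.lob (π / 4) ≤ hp (3 / 2) α b η / 2 := by
  have h1 := hC.val
  have h2 := Pool.Agent.W709.VC.lob6_pos
  have h3 := Pool.Agent.W709.QAT.lob_max (π / 4)
  constructor <;> linarith

/-- **the upper bound for the terms** -/
lemma gP_upper3 (hRes : S_PRES) (hUp : S_PUP3) (hW : S_WGU) (hS : S_PSML)
    {α b η : ℝ} (hC : C3 α b η) :
    ∀ ε : ℝ, 0 < ε → ∀ᶠ M : ℕ in atTop, ∀ c i : ℕ, c + i + 1 ≤ M →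
      |gP 3 M c i| ≤ Real.exp ((2 * M + 1) / (2 * π) * (hp (3 / 2) α b η / 2) + ε * M) := by
  intro ε hε
  have hpi := Real.pi_pos
  obtain ⟨hV0, hV1⟩ := bnd_val3 hC
  set V := hp (3 / 2) α b η with hV
  filter_upwards [hUp α b η hC (ε / 4) (by positivity), hW (ε / 4) (by positivity),
    hS ε hε, poly_small (show 0 < ε / 4 by positivity), eventually_ge_atTop 1]
    with M h1 h2 h3 h4 hM1 c i hci
  have hM : (1 : ℝ) ≤ M := by exact_mod_cast hM1
  have hr : (0 : ℝ) < 2 * M + 1 := by linarith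
  have eabs : |gP 3 M c i| = ‖tau M (tp 3 M) (c + i)‖ ^ 2 * |wg M c i| / (2 * M + 1) := by
    unfold gP
    rw [abs_div, abs_mul, abs_of_pos hr, abs_of_nonneg (by positivity)]
  rw [eabs, div_le_iff₀ hr]
  by_cases hk : M + 1 ≤ 2 * (c + i)
  · have a1 := h1 (c + i) (by omega) hk 1 one_pos
    have a2 := h2 c i (by omega) hk
    have a3 := hRes 3 M (c + i) (by omega) hk 1 one_pos
    set T := ‖rect (HT 3 M (c + i)) (-π) π (-1) 1‖ with hT
    have hT0 : 0 ≤ T := norm_nonneg _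
    have hWT : 0 ≤ WT M (c + i) := by
      unfold WT
      exact prod_nonneg fun j _ => by positivity
    rw [a3]
    calc ((2 * (M : ℝ) + 1) / (4 * π) * T) ^ 2 * |wg M c i|
        ≤ ((2 * (M : ℝ) + 1) / (4 * π) * T) ^ 2 * (WT M (c + i) ^ 2 * Real.exp (ε / 4 * M)) :=
          mul_le_mul_of_nonneg_left a2 (by positivity)
      _ = ((2 * (M : ℝ) + 1) / (4 * π)) ^ 2 * (WT M (c + i) * T) ^ 2 * Real.exp (ε / 4 * M) := by
          ring
      _ ≤ ((2 * (M : ℝ) + 1) / (4 * π)) ^ 2 *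
          Real.exp (Rh M / (4 * π) * V + ε / 4 * M) ^ 2 * Real.exp (ε / 4 * M) := by
          refine mul_le_mul_of_nonneg_right ?_ (Real.exp_pos _).le
          refine mul_le_mul_of_nonneg_left ?_ (by positivity)
          exact pow_le_pow_left₀ (by positivity) a1 2
      _ = ((2 * (M : ℝ) + 1) / (4 * π)) ^ 2 *
          Real.exp ((2 * M + 1) / (2 * π) * (V / 2) + 3 * (ε / 4) * M) := by
          rw [mul_assoc, ← Real.exp_nat_mul, ← Real.exp_add]
          congr 2
          have := Rh_eq M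
          push_cast
          linear_combination V * this
      _ ≤ ((2 * (M : ℝ) + 1) * Real.exp (ε / 4 * M)) *
          Real.exp ((2 * M + 1) / (2 * π) * (V / 2) + 3 * (ε / 4) * M) := by
          refine mul_le_mul_of_nonneg_right ?_ (Real.exp_pos _).le
          have h5 : ((2 * (M : ℝ) + 1) / (4 * π)) ^ 2 ≤ (2 * (M : ℝ) + 1) ^ 2 := by
            refine pow_le_pow_left₀ (by positivity) ?_ 2
            refine div_le_self hr.le ?_
            linarith [Real.pi_gt_three]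
          nlinarith
      _ = Real.exp ((2 * M + 1) / (2 * π) * (V / 2) + ε * M) * (2 * M + 1) := by
          rw [mul_assoc, ← Real.exp_add, mul_comm]
          congr 2
          ring
  · have a1 := h3 (tp 3 M) (tp_norm 3 M) c i (by omega) (by omega)
    refine a1.trans ?_
    have h5 : Real.exp ((2 * M + 1) / (2 * π) * (4 * GapVol.lob (π / 4)) + ε * M) ≤
        Real.exp ((2 * M + 1) / (2 * π) * (V / 2) + ε * M) := by
      refine Real.exp_le_exp.2 ?_
      have := mul_le_mul_of_nonneg_left hV1 (show 0 ≤ (2 * (M : ℝ) + 1) / (2 * π) by positivity)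
      linarith
    refine h5.trans (le_mul_of_one_le_right (Real.exp_pos _).le (by linarith))

/-- **the lower bound for one term** -/
lemma gP_lower3 (hRes : S_PRES) (hLow : S_PLOW3) (hW : S_WGL)
    {α b η : ℝ} (hC : C3 α b η) :
    ∀ ε : ℝ, 0 < ε → ∀ᶠ M : ℕ in atTop, ∃ c i : ℕ, c + i + 1 ≤ M ∧ M ≤ 2 * c ∧
      Real.exp ((2 * M + 1) / (2 * π) * (hp (3 / 2) α b η / 2) - ε * M) ≤ |gP 3 M c i| := by
  intro ε hε
  have hpi := Real.pi_pos
  set V := hp (3 / 2) α b η with hV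
  have e4 : ∀ᶠ M : ℕ in atTop, 16 * π ^ 2 ≤ Real.exp (ε / 4 * M) := by
    have : Tendsto (fun M : ℕ => Real.exp (ε / 4 * (M : ℝ))) atTop atTop :=
      Real.tendsto_exp_atTop.comp
        (Tendsto.const_mul_atTop (by positivity) tendsto_natCast_atTop_atTop)
    exact this.eventually_ge_atTop _
  filter_upwards [hLow α b η hC (ε / 4) (by positivity), hW (ε / 4) (by positivity),
    e4, eventually_ge_atTop 1] with M h1 h2 h3 hM1
  have hM : (1 : ℝ) ≤ M := by exact_mod_cast hM1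
  have hr : (0 : ℝ) < 2 * M + 1 := by linarith
  obtain ⟨k, hkM, hk, a1⟩ := h1
  obtain ⟨c, i, hci, hc, a2⟩ := h2 k hkM hk
  have a1 := a1 1 one_pos
  have a3 := hRes 3 M k hkM hk 1 one_pos
  refine ⟨c, i, by omega, hc, ?_⟩
  subst hci
  have eabs : |gP 3 M c i| = ‖tau M (tp 3 M) (c + i)‖ ^ 2 * |wg M c i| / (2 * M + 1) := by
    unfold gP
    rw [abs_div, abs_mul, abs_of_pos hr, abs_of_nonneg (by positivity)]
  set T := ‖rect (HT 3 M (c + i)) (-π) π (-1) 1‖ with hT
  rw [eabs, a3, le_div_iff₀ hr]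
  have h5 : Real.exp ((2 * M + 1) / (2 * π) * (V / 2) - ε * M) * (16 * π ^ 2) ≤
      Real.exp (Rh M / (4 * π) * V - ε / 4 * M) ^ 2 * Real.exp (-(ε / 4 * M)) := by
    calc Real.exp ((2 * M + 1) / (2 * π) * (V / 2) - ε * M) * (16 * π ^ 2)
        ≤ Real.exp ((2 * M + 1) / (2 * π) * (V / 2) - ε * M) * Real.exp (ε / 4 * M) :=
          mul_le_mul_of_nonneg_left h3 (Real.exp_pos _).le
      _ = Real.exp (Rh M / (4 * π) * V - ε / 4 * M) ^ 2 * Real.exp (-(ε / 4 * M)) := by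
          rw [← Real.exp_nat_mul, ← Real.exp_add, ← Real.exp_add]
          congr 1
          have := Rh_eq M
          push_cast
          linear_combination (-V) * this
  calc Real.exp ((2 * M + 1) / (2 * π) * (V / 2) - ε * M) * (2 * (M : ℝ) + 1)
      ≤ Real.exp ((2 * M + 1) / (2 * π) * (V / 2) - ε * M) * (2 * (M : ℝ) + 1) ^ 2 := by
        refine mul_le_mul_of_nonneg_left ?_ (Real.exp_pos _).le
        nlinarith
    _ = (Real.exp ((2 * M + 1) / (2 * π) * (V / 2) - ε * M) * (16 * π ^ 2)) *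
        ((2 * (M : ℝ) + 1) / (4 * π)) ^ 2 := by
        field_simp
        ring
    _ ≤ (Real.exp (Rh M / (4 * π) * V - ε / 4 * M) ^ 2 * Real.exp (-(ε / 4 * M))) *
        ((2 * (M : ℝ) + 1) / (4 * π)) ^ 2 :=
        mul_le_mul_of_nonneg_right h5 (by positivity)
    _ ≤ ((WT M (c + i) * T) ^ 2 * Real.exp (-(ε / 4 * M))) *
        ((2 * (M : ℝ) + 1) / (4 * π)) ^ 2 := by
        refine mul_le_mul_of_nonneg_right ?_ (by positivity)
        refine mul_le_mul_of_nonneg_right ?_ (Real.exp_pos _).le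
        exact pow_le_pow_left₀ (Real.exp_pos _).le a1 2
    _ = ((2 * (M : ℝ) + 1) / (4 * π) * T) ^ 2 * (WT M (c + i) ^ 2 * Real.exp (-(ε / 4 * M))) := by
        ring
    _ ≤ ((2 * (M : ℝ) + 1) / (4 * π) * T) ^ 2 * |wg M c i| :=
        mul_le_mul_of_nonneg_left a2 (by positivity)

/-- **the limit** -/
theorem lr_limT (hH : S_HALF) (hR : S_TRF2) (hRes : S_PRES) (hUp : S_PUP3)
    (hLow : S_PLOW3) (hWU : S_WGU) (hWL : S_WGL) (hS : S_PSML) (hSg : S_PSGN)
    {α b η : ℝ} (hC : C3 α b η) :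
    Tendsto (fun M : ℕ => sc M * Real.log (tvt (comm (List.replicate 3 (true, true))) (2 * M + 1)))
      atTop (𝓝 (hp (3 / 2) α b η)) := by
  have h1 := gen_lim0 (G := gP 3) (W := hp (3 / 2) α b η / 2)
    (fun M c hc => tc_starP hH hR 3 hc)
    (gP_upper3 hRes hUp hWU hS hC) (gP_lower3 hRes hLow hWL hC)
    (fun M c i h1 h2 => by
      have h3 := hSg M c i h1 h2
      unfold gP
      have e1 : (-1 : ℝ) ^ i * (‖tau M (tp 3 M) (c + i)‖ ^ 2 * wg M c i / (2 * M + 1)) =
          ‖tau M (tp 3 M) (c + i)‖ ^ 2 * ((-1) ^ i * wg M c i) / (2 * M + 1) := by ring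
      rw [e1]
      positivity)
  have e2 : 2 * (hp (3 / 2) α b η / 2) = hp (3 / 2) α b η := by ring
  rw [e2] at h1
  exact h1

end Pool.Agent.H62.CYC
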