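import Pool.Agent.H62.CYC.Defs

/-!
Project CYC: the half twist in the model.
-/

set_option autoImplicit false

namespace Pool.Agent.H62.CYC

open Finset Matrix
open Pool.Agent.Y482.CY (Nz)
open Pool.Agent.Y481.CC (HT)
open Pool.Agent.H62.TV (Gv Hv kap)
open Pool.Agent.H62.TB

variable {v : ℂ} {K : ℕ}

/-- the half twist in the model -/
noncomputable def Fzm (v : ℂ) (K : ℕ) : Matrix (Fin (K + 1)) (Fin (K + 1)) ℂ := fun d e =>
  if (d : ℕ) + e = K then Complex.I ^ K * (-1) ^ (e : ℕ) * v ^ ((K : ℤ) * K - 2 * K * (e : ℕ)) else 0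

lemma Fzm_apply {d e : Fin (K + 1)} (h : (d : ℕ) + e = K) : Fzm v K d e =
    Complex.I ^ K * (-1) ^ (e : ℕ) * v ^ ((K : ℤ) * K - 2 * K * (e : ℕ)) := if_pos h

lemma Fzm_zero {d e : Fin (K + 1)} (h : (d : ℕ) + e ≠ K) : Fzm v K d e = 0 := if_neg h

/-- the opposite index -/
def op (d : Fin (K + 1)) : Fin (K + 1) := ⟨K - d, by omega⟩

lemma op_add (d : Fin (K + 1)) : (op d : ℕ) + d = K := by
  have := d.2
  simp only [op]
  omega

lemma eq_op {d e : Fin (K + 1)} (h : (d : ℕ) + e = K) : e = op d := by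
  have := d.2
  apply Fin.ext
  simp only [op]
  omega

lemma Fzm_mul (A : Matrix (Fin (K + 1)) (Fin (K + 1)) ℂ) (d e : Fin (K + 1)) :
    (Fzm v K * A) d e = Fzm v K d (op d) * A (op d) e := by
  rw [Matrix.mul_apply, sum_eq_single (op d)]
  · intro f _ hf
    rw [Fzm_zero (fun h => hf (eq_op h)), zero_mul]
  · intro h
    exact absurd (mem_univ _) h

lemma mul_Fzm (A : Matrix (Fin (K + 1)) (Fin (K + 1)) ℂ) (d e : Fin (K + 1)) :
    (A * Fzm v K) d e = A d (op e) * Fzm v K (op e) e := by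
  rw [Matrix.mul_apply, sum_eq_single (op e)]
  · intro f _ hf
    have h : ¬ ((f : ℕ) + e = K) := fun h => hf (eq_op (by omega))
    rw [Fzm_zero h, mul_zero]
  · intro h
    exact absurd (mem_univ _) h

lemma op_op (d : Fin (K + 1)) : op (op d) = d := by
  have := d.2
  apply Fin.ext
  simp only [op]
  omega

lemma Fzm_sq (hv : v ≠ 0) : Fzm v K * Fzm v K = 1 := by
  ext d e
  rw [Fzm_mul]
  by_cases h : d = e
  · subst h
    have h1 := op_add d
    rw [Matrix.one_apply_eq, Fzm_apply (by omega : (d : ℕ) + op d = K), Fzm_apply h1]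
    have e1 : v ^ ((K : ℤ) * K - 2 * K * ((op d : ℕ) : ℤ)) * v ^ ((K : ℤ) * K - 2 * K * ((d : ℕ) : ℤ)) =
        1 := by
      rw [← zpow_add₀ hv]
      have : (K : ℤ) * K - 2 * K * ((op d : ℕ) : ℤ) + ((K : ℤ) * K - 2 * K * ((d : ℕ) : ℤ)) = 0 := by
        have h2 : ((op d : ℕ) : ℤ) = (K : ℤ) - (d : ℕ) := by omega
        rw [h2]
        ring
      rw [this, _root_.zpow_zero]
    have e2 : (Complex.I : ℂ) ^ K * Complex.I ^ K * ((-1) ^ (op d : ℕ) * (-1) ^ (d : ℕ)) = 1 := by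
      rw [← pow_add (-1 : ℂ), h1, ← mul_pow, Complex.I_mul_I, ← mul_pow]
      norm_num
    linear_combination (Complex.I ^ K * Complex.I ^ K * ((-1) ^ (op d : ℕ) * (-1) ^ (d : ℕ))) * e1 +
      e2
  · rw [Matrix.one_apply_ne h, Fzm_zero (d := op d) (e := e), mul_zero]
    intro h1
    apply h
    have := op_add d
    exact Fin.ext (by omega)

lemma Fzm_trace (hv1 : ‖v‖ = 1) : ‖(Fzm v K).trace‖ ≤ 1 := by
  rw [Matrix.trace]
  by_cases h : ∃ d : Fin (K + 1), (d : ℕ) + d = K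
  · obtain ⟨d, hd⟩ := h
    rw [sum_eq_single d]
    · rw [Matrix.diag_apply, Fzm_apply hd, norm_mul, norm_mul, norm_pow, norm_pow, norm_neg,
        norm_one, Complex.norm_I, norm_zpow, hv1]
      simp
    · intro e _ he
      rw [Matrix.diag_apply]
      apply Fzm_zero
      intro h1
      exact he (Fin.ext (by omega))
    · intro h1
      exact absurd (mem_univ _) h1
  · rw [sum_eq_zero]
    · simp
    · intro e _
      rw [Matrix.diag_apply]
      exact Fzm_zero fun h1 => h ⟨e, h1⟩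

lemma Fzm_int (hv : v ≠ 0) : Fzm v K * Lm v K = Um v K * Fzm v K := by
  ext d e
  have hd := d.2
  have he := e.2
  have h1 := op_add d
  have h2 := op_add e
  rw [Fzm_mul, mul_Fzm, Fzm_apply (by omega : (d : ℕ) + op d = K), Fzm_apply h2]
  have c1 : ((op d : ℕ) : ℤ) = (K : ℤ) - (d : ℕ) := by omega
  have c2 : ((op e : ℕ) : ℤ) = (K : ℤ) - (e : ℕ) := by omega
  unfold Lm Um
  by_cases h3 : (op d : ℕ) = e
  · have h4 : (d : ℕ) = op e := by omega
    have h5 : (K : ℤ) - ((e : ℕ) : ℤ) = ((d : ℕ) : ℤ) := by omega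
    rw [if_pos h3, if_pos h4, h3, h5, mul_comm]
  · by_cases h4 : (op d : ℕ) = e + 1
    · rw [if_neg h3, if_pos h4, if_neg (by omega), if_pos (by omega)]
      have h5 : ((e : ℕ) : ℤ) = (K : ℤ) - (d : ℕ) - 1 := by omega
      have h6 : (op d : ℕ) = e + 1 := h4
      unfold lo hi
      rw [h6, pow_succ, h5]
      push_cast
      rw [h5]
      have e1 : v ^ ((K : ℤ) * K - 2 * K * ((K : ℤ) - (d : ℕ) - 1 + 1)) * v ^ (K : ℤ) =
          v ^ (-(K : ℤ)) * v ^ ((K : ℤ) * K - 2 * K * ((K : ℤ) - (d : ℕ) - 1)) := by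
        rw [← zpow_add₀ hv, ← zpow_add₀ hv]
        congr 1
        ring
      have e2 : (K : ℤ) - ((K : ℤ) - (d : ℕ) - 1 + 1) + 1 = ((d : ℕ) : ℤ) + 1 := by ring
      have e3 : (K : ℤ) - (d : ℕ) - 1 + 1 = (K : ℤ) - (d : ℕ) := by ring
      rw [e2]
      rw [e3] at e1 ⊢
      linear_combination (-(Complex.I ^ K * (-1) ^ (e : ℕ) * Pool.Agent.H550R3.Jones.br v ((K : ℤ) - (d : ℕ)) *
        (v ^ (((d : ℕ) : ℤ) + 1) + v ^ (-(((d : ℕ) : ℤ) + 1))))) * e1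
    · rw [if_neg h3, if_neg h4, if_neg (by omega), if_neg (by omega), mul_zero, zero_mul]

theorem hz : S_HZ := by
  intro v hv1 hv K hK
  have hn : ∀ n : ℤ, ‖v ^ n‖ = 1 := fun n => by rw [norm_zpow, hv1, _root_.one_zpow]
  refine ⟨Fzm v K, Fzm_sq hv, Fzm_trace hv1, Fzm_int hv,
    (-1) ^ K * v ^ ((K : ℤ) * K) * (Complex.I ^ K)⁻¹, ?_, ?_⟩
  · rw [norm_mul, norm_mul, norm_pow, norm_neg, norm_one, hn, norm_inv, norm_pow, Complex.norm_I]
    simp
  ext d e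
  have hd := d.2
  have he := e.2
  rw [Matrix.smul_apply, smul_eq_mul]
  unfold Dg
  rw [Matrix.mul_diagonal]
  by_cases h : (d : ℕ) + e = K
  · rw [Fzm_apply h]
    have hI : (Complex.I ^ K)⁻¹ * Complex.I ^ K = 1 :=
      inv_mul_cancel₀ (pow_ne_zero _ Complex.I_ne_zero)
    have h1 := congrFun (congrFun (HT_T0 hv hK 1) d) e
    rw [Matrix.transpose_apply, Matrix.smul_apply, Matrix.mul_diagonal, Matrix.diagonal_mul,
      smul_eq_mul] at h1
    unfold HT at h1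
    rw [if_pos (by omega)] at h1
    unfold kap Gv Hv at h1
    have hz : ((d : ℕ) : ℤ) = (K : ℤ) - (e : ℕ) := by omega
    have hke : K - (e : ℕ) = d := by omega
    rw [hke, hz] at h1
    rw [hke]
    unfold tp
    have p1 : ((-1 : ℂ) ^ K) ^ 2 = 1 := by rw [← pow_mul, mul_comm, pow_mul]; norm_num
    have p2 : ((-1 : ℂ) ^ (d : ℕ)) * (-1) ^ (d : ℕ) = 1 := by rw [← mul_pow]; norm_num
    have p3 : ((-1 : ℂ) ^ K) = (-1) ^ (d : ℕ) * (-1) ^ (e : ℕ) := by rw [← pow_add, h]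
    have p4 : ((-1 : ℂ) ^ (e : ℕ)) * (-1) ^ (e : ℕ) = 1 := by rw [← mul_pow]; norm_num
    have q1 : (v ^ (K + 1)) ^ (d : ℕ) = v ^ (((K : ℤ) + 1) * ((K : ℤ) - (e : ℕ))) := by
      rw [← pow_mul, ← zpow_natCast, ← hz]
      congr 1
    -- the entry
    have h2 : J0 v K d e = (-1) ^ (d : ℕ) * v ^ ((K : ℤ) * K - K + (e : ℕ) - K * (e : ℕ)) := by
      set X := J0 v K d e with hX
      rw [mul_pow, p1, one_mul, ← zpow_natCast, ← _root_.zpow_mul] at h1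
      set a₁ : ℤ := -2 * (K : ℤ) * K + (4 * ((1 : ℕ) : ℤ) - 2) * K - 2 * ((e : ℕ) : ℤ) * (((1 : ℕ) : ℤ) - K)
        with ha1
      set a₂ : ℤ := (2 * (((1 : ℕ) : ℤ) - 1) * K - (K : ℤ) * K + K) * ((2 : ℕ) : ℤ) with ha2
      set a₃ : ℤ := (K : ℤ) * (K - ((K : ℤ) - (e : ℕ))) +
        ((K : ℤ) - ((K : ℤ) - (e : ℕ))) * (K - ((K : ℤ) - (e : ℕ))) -
        2 * ((1 : ℕ) : ℤ) * (K - ((K : ℤ) - (e : ℕ))) with ha3
      set a₄ : ℤ := (K : ℤ) - (e : ℕ) - ((K : ℤ) - (e : ℕ)) * ((K : ℤ) - (e : ℕ)) with ha4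
      have r1 : v ^ (-a₂ - a₃ - a₄) * (v ^ a₂ * (v ^ a₃ * X * ((-1) ^ (d : ℕ) * v ^ a₄))) =
          (-1) ^ (d : ℕ) * X := by
        have : v ^ (-a₂ - a₃ - a₄) * (v ^ a₂ * (v ^ a₃ * v ^ a₄)) = 1 := by
          rw [← zpow_add₀ hv, ← zpow_add₀ hv, ← zpow_add₀ hv]
          have : -a₂ - a₃ - a₄ + (a₂ + (a₃ + a₄)) = 0 := by ring
          rw [this, _root_.zpow_zero]
        linear_combination ((-1) ^ (d : ℕ) * X) * this
      have r2 : v ^ (-a₂ - a₃ - a₄) * v ^ a₁ =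
          v ^ ((K : ℤ) * K - K + (e : ℕ) - K * (e : ℕ)) := by
        rw [← zpow_add₀ hv]
        congr 1
        rw [ha1, ha2, ha3, ha4]
        push_cast
        ring
      rw [← h1, r2] at r1
      rw [r1]
      linear_combination (-X) * p2
    rw [h2, q1]
    have q2 : v ^ ((K : ℤ) * K - K + (e : ℕ) - K * (e : ℕ)) * v ^ (((K : ℤ) + 1) * ((K : ℤ) - (e : ℕ))) =
        v ^ ((K : ℤ) * K) * v ^ ((K : ℤ) * K - 2 * K * (e : ℕ)) := by
      rw [← zpow_add₀ hv, ← zpow_add₀ hv]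
      congr 1
      ring
    rw [p3]
    linear_combination ((-1) ^ (d : ℕ)) * q2 - ((-1) ^ (d : ℕ) * v ^ ((K : ℤ) * K) *
      v ^ ((K : ℤ) * K - 2 * K * (e : ℕ))) * p4 * ((Complex.I ^ K)⁻¹ * Complex.I ^ K) -
      ((-1) ^ (d : ℕ) * v ^ ((K : ℤ) * K) * v ^ ((K : ℤ) * K - 2 * K * (e : ℕ))) * hI
  · rw [J0_anti hv hK h, Fzm_zero h, zero_mul, mul_zero]

end Pool.Agent.H62.CYC
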