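import Pool.Agent.H62.CYC.DefsL

/-!
Project CYC: LA1 from its two parts.
-/

set_option autoImplicit false

namespace Pool.Agent.H62.CYC

open Finset Matrix

lemma form_eq {n : ℕ} (J : Fin n → ℝ) (x : Fin n → ℂ) :
    star x ⬝ᵥ (diagonal (fun i => (J i : ℂ)) *ᵥ x) = ((∑ i, J i * ‖x i‖ ^ 2 : ℝ) : ℂ) := by
  rw [dotProduct]
  push_cast
  refine sum_congr rfl fun i _ => ?_
  rw [Matrix.mulVec_diagonal, Pi.star_apply, Complex.star_def]
  have := Complex.conj_mul' (x i)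
  linear_combination (J i : ℂ) * this

theorem la1_of (hD : S_LD) (hT : S_LT) : S_LA1 := by
  intro n J F X X' hJ hF hX hXJ hFJ hpos
  have hX' : X' * X = 1 := mul_eq_one_comm.1 hX
  set Jm : Matrix (Fin n) (Fin n) ℂ := diagonal fun i => (J i : ℂ) with hJm
  set E : Matrix (Fin n) (Fin n) ℂ := (1 / 2 : ℂ) • (1 + F) with hE
  set Q : Matrix (Fin n) (Fin n) ℂ := X * E * X' with hQ
  have hEE : E * E = E := by
    rw [hE, Matrix.smul_mul, Matrix.mul_smul, smul_smul, Matrix.add_mul, Matrix.mul_add,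
      Matrix.mul_add, hF, Matrix.one_mul, Matrix.one_mul, Matrix.mul_one]
    have : (1 : Matrix (Fin n) (Fin n) ℂ) + F + (F + 1) = (2 : ℂ) • (1 + F) := by
      rw [two_smul]; abel
    rw [this, smul_smul]
    norm_num
  have hEJ : Eᴴ * Jm = Jm * E := by
    rw [hE, Matrix.conjTranspose_smul, Matrix.conjTranspose_add, Matrix.conjTranspose_one,
      Matrix.smul_mul, Matrix.mul_smul, Matrix.add_mul, Matrix.mul_add, hFJ, Matrix.one_mul,
      Matrix.mul_one]
    congr 1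
    norm_num [Complex.star_def]
  have hQQ : Q * Q = Q := by
    rw [hQ]
    calc X * E * X' * (X * E * X') = X * E * (X' * X) * E * X' := by simp only [Matrix.mul_assoc]
      _ = X * (E * E) * X' := by rw [hX', Matrix.mul_one]; simp only [Matrix.mul_assoc]
      _ = X * E * X' := by rw [hEE]
  -- `J X' = Xᴴ⁻¹`-type relation
  have hXJ2 : Jm * X = X'ᴴ * Jm := by
    have h1 : X'ᴴ * Xᴴ = 1 := by rw [← Matrix.conjTranspose_mul, hX, Matrix.conjTranspose_one]
    calc Jm * X = (X'ᴴ * Xᴴ) * Jm * X := by rw [h1, Matrix.one_mul]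
      _ = X'ᴴ * (Xᴴ * Jm * X) := by simp only [Matrix.mul_assoc]
      _ = X'ᴴ * Jm := by rw [hXJ]
  have hXJ3 : Xᴴ * Jm = Jm * X' := by
    calc Xᴴ * Jm = Xᴴ * Jm * (X * X') := by rw [hX, Matrix.mul_one]
      _ = (Xᴴ * Jm * X) * X' := by simp only [Matrix.mul_assoc]
      _ = Jm * X' := by rw [hXJ]
  have hQJ : Qᴴ * Jm = Jm * Q := by
    rw [hQ, Matrix.conjTranspose_mul, Matrix.conjTranspose_mul]
    calc X'ᴴ * (Eᴴ * Xᴴ) * Jm = X'ᴴ * Eᴴ * (Xᴴ * Jm) := by simp only [Matrix.mul_assoc]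
      _ = X'ᴴ * (Eᴴ * Jm) * X' := by rw [hXJ3]; simp only [Matrix.mul_assoc]
      _ = (X'ᴴ * Jm) * E * X' := by rw [hEJ]; simp only [Matrix.mul_assoc]
      _ = Jm * (X * E * X') := by rw [← hXJ2]; simp only [Matrix.mul_assoc]
  -- positivity on the range of `Q`
  have hQpos : ∀ x : Fin n → ℂ, Q *ᵥ x = x → 0 ≤ ∑ i, J i * ‖x i‖ ^ 2 := by
    intro x hx
    set y : Fin n → ℂ := X' *ᵥ x with hy
    have hxy : x = X *ᵥ y := by rw [hy, Matrix.mulVec_mulVec, hX, Matrix.one_mulVec]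
    have hEy : E *ᵥ y = y := by
      have h1 := congrArg (fun z => X' *ᵥ z) hx
      simp only [hQ] at h1
      rw [Matrix.mulVec_mulVec] at h1
      have h2 : X' * (X * E * X') = E * X' := by
        calc X' * (X * E * X') = (X' * X) * E * X' := by simp only [Matrix.mul_assoc]
          _ = E * X' := by rw [hX', Matrix.one_mul]
      rw [h2, ← Matrix.mulVec_mulVec] at h1
      exact h1
    have hFy : F *ᵥ y = y := by
      have h1 : F = (2 : ℂ) • E - 1 := by
        rw [hE, smul_smul]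
        norm_num
      rw [h1, Matrix.sub_mulVec, Matrix.smul_mulVec, hEy, Matrix.one_mulVec, two_smul]
      abel
    have h2 : ((∑ i, J i * ‖x i‖ ^ 2 : ℝ) : ℂ) = ((∑ i, J i * ‖y i‖ ^ 2 : ℝ) : ℂ) := by
      rw [← form_eq J x, ← form_eq J y, hxy, Matrix.star_mulVec, ← Matrix.dotProduct_mulVec,
        Matrix.mulVec_mulVec, Matrix.mulVec_mulVec,
        show Xᴴ * diagonal (fun i => (J i : ℂ)) * X = diagonal (fun i => (J i : ℂ)) from hXJ]
    have h3 : (∑ i, J i * ‖x i‖ ^ 2 : ℝ) = ∑ i, J i * ‖y i‖ ^ 2 := by exact_mod_cast h2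
    rw [h3]
    by_cases hy0 : y = 0
    · rw [hy0]
      simp
    · exact (hpos y hFy hy0).le
  obtain ⟨m, V, c, hm, hc, h1, h2, h3, h4⟩ := hD n J F Q hF hQQ hFJ hQJ hpos hQpos
  refine ⟨m, fun i => 2 * c i - 1, hm, fun i => by linarith [hc i], fun k => ?_⟩
  have h5 := hT n m (Vᴴ * Jm) F Q V c hF hQQ (by
      rw [hQ, Matrix.mul_assoc, Matrix.trace_mul_comm, Matrix.mul_assoc, hX', Matrix.mul_one])
    (by rw [← h2]) (by rw [← h3]) (by rw [← h4]; simp only [Matrix.mul_assoc]; rfl) k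
  rw [← h5]
  congr 2
  have h6 : X * F * X' = (2 : ℂ) • Q - 1 := by
    rw [hQ, hE, Matrix.mul_smul, Matrix.smul_mul, smul_smul, Matrix.mul_add, Matrix.mul_one,
      Matrix.add_mul, hX]
    norm_num
  rw [h6]

end Pool.Agent.H62.CYC
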