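import Pool.Agent.H62.CYC.Gen
import Pool.Agent.H62.CYC.DefsX

/-!
Project CYC: the limit for `s_2² s_1⁻²`.
-/

set_option autoImplicit false

namespace Pool.Agent.H62.CYC

open Finset Matrix Filter Topology
open Pool.Agent.H62.TV (sh sh_ne sh_norm)
open Pool.Agent.H62.TB (mer cor crv mu ltr rho tvt tvt_eq)
open scoped Real

/-- the sum for `mu ^ 2` -/
lemma tau_mu (hT : S_TAU) {M k : ℕ} (hk : k < M) :
    ‖tau M (fun b => mu (sh M) b ^ 2) k‖ ^ 2 = (2 * M + 1) * Ek M k := by
  rw [← hT M k hk]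
  set z : ℂ := Complex.exp (2 * π * Complex.I / (2 * M + 1)) with hz
  have hsz : sh M ^ 2 = z := by
    unfold sh
    rw [← Complex.exp_nat_mul, hz]
    congr 1
    push_cast
    ring
  have hz0 : z ≠ 0 := Complex.exp_ne_zero _
  have hz1 : ‖z‖ = 1 := by rw [← hsz, norm_pow, sh_norm, one_pow]
  have e1 : tau M (fun b => z ^ ((b + 1) ^ 2)) k = z * tau M (fun b => mu (sh M) b ^ 2) k := by
    unfold tau
    rw [mul_sum]
    refine sum_congr rfl fun b _ => ?_
    have e2 : z ^ ((b + 1) ^ 2) = z * mu (sh M) b ^ 2 := by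
      unfold mu
      have e3 : (((-1 : ℂ) ^ b) * sh M ^ (b ^ 2 + 2 * b)) ^ 2 = z ^ (b ^ 2 + 2 * b) := by
        rw [mul_pow, ← pow_mul, mul_comm b 2, pow_mul, ← pow_mul (sh M), mul_comm _ 2,
          pow_mul (sh M), hsz]
        norm_num
      rw [e3, ← pow_succ']
      congr 1
      ring
    beta_reduce
    rw [e2]
    ring
  rw [e1, norm_mul, hz1, one_mul]

/-- the trace -/
lemma tc_star2 (hH : S_HALF) (hT : S_TAU) (hR : S_TRF2) {M c : ℕ} (hc : c < M) :
    tc (comm [(true, true), (true, true)]) M c =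
      ((∑ i ∈ range (M - c), (-1) ^ i * g2 M c i : ℝ) : ℂ) := by
  obtain ⟨K, hK⟩ : ∃ K, M - c = K + 1 := ⟨M - c - 1, by omega⟩
  have hM : c + (K + 1) = M := by omega
  obtain ⟨F, k, h⟩ := hH M c K hM
  have h1 := hR M (fun b => mu (sh M) b ^ 2) c K F k hM h.real
  unfold tc
  rw [hK, h.comm]
  have e1 : rho (K + 1) c (sh M) [(true, true), (true, true)] =
      diagonal fun i : Fin (K + 1) => mu (sh M) (c + i) ^ 2 := by
    have : rho (K + 1) c (sh M) [(true, true), (true, true)] =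
        mer (K + 1) c (sh M) * mer (K + 1) c (sh M) := by simp [rho, ltr]
    rw [this]
    unfold mer
    rw [Matrix.diagonal_mul_diagonal]
    congr 1
    funext i
    ring
  have e2 : (diagonal fun i : Fin (K + 1) => mu (sh M) (c + i) ^ 2)⁻¹ =
      diagonal fun i : Fin (K + 1) => star (mu (sh M) (c + i) ^ 2) := by
    apply Matrix.inv_eq_right_inv
    rw [Matrix.diagonal_mul_diagonal, ← Matrix.diagonal_one]
    congr 1
    funext i
    rw [star_pow, mu_star, inv_pow]
    exact mul_inv_cancel₀ (pow_ne_zero _ (mu_ne _ _))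
  rw [e1, e2]
  have e3 : (diagonal (fun i : Fin (K + 1) => mu (sh M) (c + i) ^ 2) * toC F *
      diagonal (fun i : Fin (K + 1) => star (mu (sh M) (c + i) ^ 2)) * toC F).trace =
      ∑ i : Fin (K + 1), ∑ j : Fin (K + 1), mu (sh M) (c + i) ^ 2 *
        star (mu (sh M) (c + j) ^ 2) * (F i j * F j i : ℝ) := by
    rw [Matrix.trace]
    refine sum_congr rfl fun i _ => ?_
    rw [Matrix.diag_apply, Matrix.mul_apply]
    refine sum_congr rfl fun j _ => ?_
    rw [Matrix.mul_diagonal, Matrix.diagonal_mul, toC_apply, toC_apply]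
    push_cast
    ring
  rw [e3]
  refine h1.trans ?_
  congr 1
  refine sum_congr rfl fun i hi => ?_
  rw [mem_range] at hi
  rw [tau_mu hT (show c + i < M by omega)]
  unfold g2
  have hr : (2 * (M : ℝ) + 1) ≠ 0 := by positivity
  rw [mul_assoc (2 * (M : ℝ) + 1), mul_div_mul_left _ _ hr]

/-- **the limit** -/
theorem lr_lim2 (hH : S_HALF) (hT : S_TAU) (hR : S_TRF2) (hG : S_GR2) :
    Tendsto (fun M : ℕ => sc M * Real.log (tvt (comm [(true, true), (true, true)]) (2 * M + 1)))
      atTop (𝓝 (2 * (4 * GapVol.lob (π / 4)))) :=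
  gen_lim (G := g2) (fun M c hc => tc_star2 hH hT hR hc) hG.1 hG.2.1 hG.2.2

end Pool.Agent.H62.CYC
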