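import Pool.Agent.H62.CYC.Lr
import Pool.Agent.H62.CYC.Lr2
import Pool.Agent.H62.CYC.La1
import Pool.Agent.H62.CYC.Hz
import Pool.Agent.H10.CYC.STRC
import Pool.Agent.H27.CYC.Pos
import Pool.Agent.H27.CYC.Trf
import Pool.Agent.H27.CYC.Trf2
import Pool.Agent.H30.CYC.LD
import Pool.Agent.H49.CYC.Gr
import Pool.Agent.H49.CYC.Gr2
import Pool.Agent.H52.CYC.LT
import Pool.Agent.H52.CYC.TRD
import Pool.Agent.H58.CYC.FE
import Pool.Agent.H68.CYC.La2
import Pool.Agent.H68.CYC.Tau

/-!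
Project CYC: the closed statements.
-/

set_option autoImplicit false

namespace Pool.Agent.H62.CYC

open Finset Matrix Filter Topology
open Pool.Agent.H62.TV (sh sh_ne sh_norm vlu vlu_append vlu_pow)
open Pool.Agent.H62.TB (mer cor crv mu ltr rho tvt tvt_eq rho_trace gT_conj sh_Nz)
open Pool.Agent.Y482.CY (Nz)
open scoped Real

theorem half : S_HALF := half_of (Pool.Agent.H58.CYC.fe hz) Pool.Agent.H10.CYC.strc

theorem trg : S_TRG := Pool.Agent.H10.CYC.trg

theorem pos : S_POS := Pool.Agent.H27.CYC.pos trg Pool.Agent.H10.CYC.qc Pool.Agent.H68.CYC.la2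

theorem la1 : S_LA1 := la1_of Pool.Agent.H30.CYC.ld Pool.Agent.H52.CYC.LT.lt

theorem str : S_STAR :=
  star_of half (Pool.Agent.H27.CYC.trf trg Pool.Agent.H10.CYC.qc Pool.Agent.H52.CYC.trd)

theorem trf2 : S_TRF2 :=
  Pool.Agent.H27.CYC.X.trf2 trg Pool.Agent.H10.CYC.qc Pool.Agent.H52.CYC.trd

theorem lim1 : Tendsto (fun M : ℕ => sc M * Real.log (tvt (comm [(true, true)]) (2 * M + 1))) atTop
    (𝓝 (2 * vt)) := lr_lim half str Pool.Agent.H49.CYC.gr

theorem lim2 : Tendsto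
    (fun M : ℕ => sc M * Real.log (tvt (comm [(true, true), (true, true)]) (2 * M + 1))) atTop
    (𝓝 (2 * (4 * GapVol.lob (π / 4)))) :=
  lr_lim2 half (Pool.Agent.H68.CYC.tau_eq trg) trf2 Pool.Agent.H49.CYC.gr2

theorem ineq (w : List (Bool × Bool)) {p : ℕ} (hp : 1 ≤ p) {M : ℕ} (hM : 1 ≤ M) :
    tvt (pw p (comm w)) (2 * M + 1) ≤
      9 * (M : ℝ) ^ 3 * (32 * (M : ℝ) ^ 2) ^ p * (tvt (comm w) (2 * M + 1) + 1) ^ p ∧
    tvt (comm w) (2 * M + 1) ^ p ≤
      18 * (M : ℝ) ^ 2 * (16 * (M : ℝ) ^ 3) ^ p * (tvt (pw p (comm w)) (2 * M + 1) + 1) :=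
  tv_ineq half trg pos la1 w hp hM

theorem equi (w : List (Bool × Bool)) {p : ℕ} (hp : 1 ≤ p) {V : ℝ} (hV : 0 < V) :
    Tendsto (fun M : ℕ => sc M * Real.log (tvt (comm w) (2 * M + 1))) atTop (𝓝 V) ↔
    Tendsto (fun M : ℕ => sc M * Real.log (tvt (pw p (comm w)) (2 * M + 1))) atTop (𝓝 (p * V)) :=
  tv_iff half trg pos la1 w hp hV

/-- conjugate words have the same invariant -/
theorem tvt_conj {u w : List (Bool × Bool)} {i : ℤ}
    (h : ∀ (G : Type) [Group G] (x y : G), x * y * x = y * x * y → ∃ g : G,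
      vlu x y u = g * ((x * y * x) ^ (2 * i) * vlu x y w) * g⁻¹) (M : ℕ) :
    tvt u (2 * M + 1) = tvt w (2 * M + 1) := by
  rw [tvt_eq, tvt_eq]
  refine sum_congr rfl fun c hc => ?_
  rw [mem_range] at hc
  obtain ⟨K, hK⟩ : ∃ K, M - c = K + 1 := ⟨M - c - 1, by omega⟩
  have hN : Nz (sh M) K := fun l h0 hl => sh_Nz (M := M) (K := K) (by omega) l h0 (by omega)
  rw [hK, rho_trace (by omega) hN u, rho_trace (by omega) hN w,
    gT_conj (sh_norm M) (sh_ne M) hN h]

/-- `Δ b⁻¹ Δ⁻¹ = a⁻¹` -/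
lemma half_conj {G : Type} [Group G] {a b : G} (h : a * b * a = b * a * b) :
    a * b * a * b⁻¹ * (a * b * a)⁻¹ = a⁻¹ := by
  have h1 : a * b * a * b⁻¹ = b * a := by rw [h]; group
  have h2 : a * (b * a) = a * b * a := by group
  rw [h1, mul_inv_eq_iff_eq_mul, ← h2]
  group

lemma vlu_comm_one {G : Type} [Group G] {a b : G} (h : a * b * a = b * a * b) :
    vlu a b (comm [(true, true)]) = b * a⁻¹ := by
  have h1 := half_conj h
  have h2 : vlu a b (comm [(true, true)]) = b * (a * b * a * b⁻¹ * (a * b * a)⁻¹) := by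
    simp [vlu, comm, winv]
    group
  rw [h2, h1]

lemma vlu_comm_two {G : Type} [Group G] {a b : G} (h : a * b * a = b * a * b) :
    vlu a b (comm [(true, true), (true, true)]) = b * b * a⁻¹ * a⁻¹ := by
  have h1 := half_conj h
  have h2 : vlu a b (comm [(true, true), (true, true)]) =
      b * b * (a * b * a * b⁻¹ * (a * b * a)⁻¹) * (a * b * a * b⁻¹ * (a * b * a)⁻¹) := by
    simp [vlu, comm, winv]
    group
  rw [h2, h1]

/-- `Δ²` is central -/
lemma full_comm {G : Type} [Group G] {a b : G} (h : a * b * a = b * a * b) :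
    Commute ((a * b * a) ^ (2 : ℤ)) a ∧ Commute ((a * b * a) ^ (2 : ℤ)) b := by
  have h5 : a * b * a * b = a * (a * b * a) := by
    have : a * b * a * b = a * (b * a * b) := by group
    rw [this, ← h]
  have h6 : a * b * a * a = b * (a * b * a) := by
    have : b * (a * b * a) = b * a * b * a := by group
    rw [this, ← h]
  set D := a * b * a with hD
  have e1 : D ^ (2 : ℤ) = D * D := by rw [zpow_two]
  rw [e1]
  constructor
  · change D * D * a = a * (D * D)
    rw [mul_assoc, h6, ← mul_assoc, h5, mul_assoc]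
  · change D * D * b = b * (D * D)
    rw [mul_assoc, h5, ← mul_assoc, h6, mul_assoc]

lemma full_vlu {G : Type} [Group G] {a b : G} (h : a * b * a = b * a * b) (i : ℤ)
    (w : List (Bool × Bool)) : Commute ((a * b * a) ^ (2 * i)) (vlu a b w) := by
  obtain ⟨h1, h2⟩ := full_comm h
  rw [_root_.zpow_mul]
  refine Commute.zpow_left ?_ i
  unfold vlu
  induction w with
  | nil => exact Commute.one_right _
  | cons l w ih =>
    rw [List.map_cons, List.prod_cons]
    refine Commute.mul_right ?_ ih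
    rcases l with ⟨_ | _, _ | _⟩
    · simpa using h1.inv_right
    · simpa using h1
    · simpa using h2.inv_right
    · simpa using h2

end Pool.Agent.H62.CYC
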