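import Pool.Agent.H62.CYC.Fin
import Pool.Agent.H62.CYC.Fam
import Pool.Agent.H62.CYC.DefsQ
import Pool.Graph.R_seed8.W719.BX.Full

/-!
Project CYC: the closed statements for `s_2^p s_1^{-p}`, `p ≥ 4`.
-/

set_option autoImplicit false

namespace Pool.Agent.H62.CYC

open Finset Matrix Filter Topology
open Pool.Agent.H62.TV (sh sh_ne sh_norm vlu vlu_append vlu_pow)
open Pool.Agent.H62.TB (mer cor crv mu ltr rho tvt tvt_eq)
open Pool.Agent.W719.BX (hp Crit2)
open scoped Real

theorem s_bnd : Pool.Agent.W719.BX.S_BND := Pool.Agent.W719.BX.s_bnd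

lemma crit_ex {p : ℕ} (hp4 : 4 ≤ p) : ∃ α b η : ℝ, Crit2 ((p : ℝ) / 2) α b η :=
  W349.BX.crit ((p : ℝ) / 2) (by
    have : (4 : ℝ) ≤ p := by exact_mod_cast hp4
    linarith)

/-- the value of `[s_2^p, Δ]` -/
lemma vlu_rep {G : Type} [Group G] (a b : G) (p : ℕ) :
    vlu a b (List.replicate p (true, true)) = b ^ p := by
  simp [vlu]

lemma vlu_comm_pow {G : Type} [Group G] {a b : G} (h : a * b * a = b * a * b) (p : ℕ) :
    vlu a b (comm (List.replicate p (true, true))) = b ^ p * (a ^ p)⁻¹ := by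
  have h1 := half_conj h
  have h2 : vlu a b (comm (List.replicate p (true, true))) =
      b ^ p * ((a * b * a) * (b ^ p)⁻¹ * (a * b * a)⁻¹) := by
    have e1 : winv (List.replicate p (true, true)) = List.replicate p (true, false) := by
      simp [winv]
    unfold comm
    rw [e1]
    simp only [vlu_append, vlu_rep]
    have e2 : vlu a b (List.replicate p (true, false)) = (b ^ p)⁻¹ := by
      simp [vlu]
    rw [e2]
    simp [vlu]
    group
  have h3 : (a * b * a) * (b ^ p)⁻¹ * (a * b * a)⁻¹ = (a ^ p)⁻¹ := by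
    rw [← inv_pow, ← inv_pow, ← h1]
    exact (conj_pow).symm
  rw [h2, h3]

end Pool.Agent.H62.CYC
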