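import Pool.Agent.H62.CYC.DefsP
import Pool.Agent.H94.CYC.VM
import Pool.Graph.R_seed8.W719.BX.Full

/-!
# Project CYC, second part: the volumes
-/

set_option autoImplicit false

namespace Pool.Agent.H62.CYC

open Finset
open Pool.Agent.W719.BX (hp Crit2 bX bY bZ bAngle bvol)
open Pool.Agent.R807.IN (lett Hinge hX hY hZ hAngle hvol hV)
open scoped Real

/-- the word `s_2^p s_1^{-p}` -/
def up (p : ℕ) : List Bool := List.replicate p true ++ List.replicate p false

lemma up_len (p : ℕ) : (up p).length = 2 * p := by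
  unfold up
  rw [List.length_append, List.length_replicate, List.length_replicate]
  ring

lemma up_getD (p k : ℕ) (hk : k < 2 * p) : (up p).getD k false = decide (k < p) := by
  unfold up
  by_cases h : k < p
  · rw [List.getD_append _ _ _ _ (by rw [List.length_replicate]; exact h), decide_eq_true h,
      List.getD_eq_getElem _ _ (by rw [List.length_replicate]; exact h), List.getElem_replicate]
  · rw [List.getD_append_right _ _ _ _ (by rw [List.length_replicate]; omega), decide_eq_false h,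
      List.getD_eq_getElem _ _ (by rw [List.length_replicate, List.length_replicate]; omega),
      List.getElem_replicate]

lemma up_lett {p : ℕ} (hp1 : 1 ≤ p) (i : ℤ) :
    lett (up p) i = decide (i % (2 * (p : ℤ)) < p) := by
  unfold Pool.Agent.R807.IN.lett
  rw [up_len]
  have h0 : (0 : ℤ) < 2 * (p : ℤ) := by omega
  have e : (((2 * p : ℕ) : ℤ)) = 2 * (p : ℤ) := by push_cast; rfl
  rw [e]
  have h1 := Int.emod_nonneg i h0.ne'
  have h2 := Int.emod_lt_of_pos i h0
  rw [up_getD p _ (by omega), decide_eq_decide]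
  omega

lemma up_hinge {p : ℕ} (hp1 : 1 ≤ p) (i : ℤ) : Hinge (up p) i ↔ (p : ℤ) ∣ i + 1 := by
  unfold Pool.Agent.R807.IN.Hinge
  rw [up_lett hp1, up_lett hp1, ne_eq, decide_eq_decide]
  have h0 : (0 : ℤ) < 2 * (p : ℤ) := by omega
  have h1 := Int.emod_nonneg i h0.ne'
  have h2 := Int.emod_lt_of_pos i h0
  have h3 := Int.emod_add_mul_ediv i (2 * (p : ℤ))
  set m := i % (2 * (p : ℤ)) with hm
  set q := i / (2 * (p : ℤ)) with hq
  have h4 : (i + 1) % (2 * (p : ℤ)) = (m + 1) % (2 * (p : ℤ)) := by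
    rw [hm, Int.emod_add_emod]
  have h5 : (p : ℤ) ∣ i + 1 ↔ (p : ℤ) ∣ m + 1 := by
    have e1 : i + 1 = (m + 1) + p * (2 * q) := by
      rw [← h3]
      ring
    rw [e1]
    exact (Int.dvd_add_left (Dvd.intro _ rfl))
  rw [h4, h5]
  by_cases h6 : m + 1 = 2 * p
  · rw [h6, Int.emod_self]
    constructor
    · intro _
      exact ⟨2, by ring⟩
    · intro _ h
      omega
  · rw [Int.emod_eq_of_lt (by omega) (by omega)]
    constructor
    · intro h
      have : m + 1 = p := by omega
      rw [this]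
    · rintro ⟨c, hc⟩ h
      have hc1 : 0 < c := by
        by_contra hcon
        have : (p : ℤ) * c ≤ 0 := mul_nonpos_of_nonneg_of_nonpos (by omega) (by omega)
        omega
      have hc2 : c < 2 := by
        by_contra hcon
        have : (p : ℤ) * 2 ≤ p * c := mul_le_mul_of_nonneg_left (by omega) (by omega)
        omega
      have hc3 : c = 1 := by omega
      rw [hc3] at hc
      omega

lemma up_X {p : ℕ} (hp1 : 1 ≤ p) (w : ℤ → ℝ) (i : ℤ) :
    hX (up p) (fun j => w (j + 1)) i = bX p w (i + 1) := by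
  unfold Pool.Agent.R807.IN.hX Pool.Agent.W719.BX.bX
  have e1 : i - 1 + 1 = i + 1 - 1 := by ring
  by_cases h : (p : ℤ) ∣ i + 1
  · rw [if_pos ((up_hinge hp1 i).2 h), if_pos h]
    simp only [e1]
  · rw [if_neg (fun h' => h ((up_hinge hp1 i).1 h')), if_neg h]
    simp only [e1]

lemma up_Y {p : ℕ} (hp1 : 1 ≤ p) (w : ℤ → ℝ) (i : ℤ) :
    hY (up p) (fun j => w (j + 1)) i = bY p w (i + 1) := by
  unfold Pool.Agent.R807.IN.hY Pool.Agent.W719.BX.bY
  have e1 : i - 1 + 1 = i + 1 - 1 := by ring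
  by_cases h : (p : ℤ) ∣ i + 1
  · rw [if_pos ((up_hinge hp1 i).2 h), if_pos h]
    simp only [e1]
  · rw [if_neg (fun h' => h ((up_hinge hp1 i).1 h')), if_neg h]
    simp only [e1]

lemma up_Z (w : ℤ → ℝ) (i : ℤ) : hZ (fun j => w (j + 1)) i = bZ w (i + 1) := rfl

lemma up_angle {p : ℕ} (hp1 : 1 ≤ p) (w : ℤ → ℝ) :
    hAngle (up p) (fun j => w (j + 1)) ↔ bAngle p w := by
  unfold Pool.Agent.R807.IN.hAngle Pool.Agent.W719.BX.bAngle
  simp only [up_X hp1, up_Y hp1, up_Z, up_len]
  push_cast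
  constructor
  · rintro ⟨h1, h2⟩
    refine ⟨fun i => ?_, fun i => ?_⟩
    · have := h1 (i - 1)
      have e1 : i - 1 + 2 * (p : ℤ) + 1 = i + 2 * p := by ring
      have e2 : i - 1 + 1 = i := by ring
      rw [e1, e2] at this
      exact this
    · have := h2 (i - 1)
      rw [sub_add_cancel] at this
      exact this
  · rintro ⟨h1, h2⟩
    refine ⟨fun i => ?_, fun i => h2 (i + 1)⟩
    have := h1 (i + 1)
    have e1 : i + 1 + 2 * (p : ℤ) = i + 2 * p + 1 := by ring
    rw [e1] at this
    exact this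

lemma up_vol {p : ℕ} (hp1 : 1 ≤ p) (w : ℤ → ℝ) (hw : ∀ i, w (i + 2 * p) = w i) :
    hvol (up p) (fun j => w (j + 1)) = bvol p w := by
  unfold Pool.Agent.R807.IN.hvol Pool.Agent.W719.BX.bvol
  simp only [up_X hp1, up_Y hp1, up_Z, up_len]
  set F : ℤ → ℝ := fun i => 2 * (GapVol.lob (bX p w i) + GapVol.lob (bY p w i) +
    GapVol.lob (bZ w i)) with hF
  have hper : F (2 * p) = F 0 := by
    have e1 : w (2 * p) = w 0 := by have := hw 0; rwa [zero_add] at this
    have e2 : w (2 * p + 1) = w (0 + 1) := by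
      have := hw 1
      rw [add_comm] at this
      rw [this, zero_add]
    have e3 : w (2 * p - 1) = w (0 - 1) := by
      have := hw (0 - 1)
      rw [← this]
      congr 1
    have e4 : bX p w (2 * p) = bX p w 0 := by
      unfold Pool.Agent.W719.BX.bX
      rw [if_pos (Dvd.intro_left 2 rfl), if_pos (dvd_zero _), e1, e2, e3]
    have e5 : bY p w (2 * p) = bY p w 0 := by
      unfold Pool.Agent.W719.BX.bY
      rw [if_pos (Dvd.intro_left 2 rfl), if_pos (dvd_zero _), e1, e2, e3]
    have e6 : bZ w (2 * p) = bZ w 0 := by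
      unfold Pool.Agent.W719.BX.bZ
      rw [e1]
    rw [hF]
    simp only [e4, e5, e6]
  have h1 : ∑ i ∈ range (2 * p), F ((i : ℤ) + 1) = ∑ i ∈ range (2 * p), F (i : ℤ) := by
    have h2 := Finset.sum_range_succ (fun i : ℕ => F (i : ℤ)) (2 * p)
    have h3 := Finset.sum_range_succ' (fun i : ℕ => F (i : ℤ)) (2 * p)
    push_cast at h2 h3
    linarith
  exact h1

lemma up_set {p : ℕ} (hp1 : 1 ≤ p) : {V : ℝ | ∃ w, hAngle (up p) w ∧ hvol (up p) w = V} =
    {V : ℝ | ∃ w, bAngle p w ∧ bvol p w = V} := by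
  ext V
  constructor
  · rintro ⟨w, hw, hV⟩
    have e : (fun j : ℤ => (fun i : ℤ => w (i - 1)) (j + 1)) = w := by
      funext j
      simp
    have h1 : bAngle p (fun i => w (i - 1)) := (up_angle hp1 _).1 (by rw [e]; exact hw)
    refine ⟨fun i => w (i - 1), h1, ?_⟩
    rw [← up_vol hp1 _ h1.1, e, hV]
  · rintro ⟨w, hw, hV⟩
    exact ⟨fun j => w (j + 1), (up_angle hp1 w).2 hw, by rw [up_vol hp1 w hw.1, hV]⟩

theorem pvol : S_PVOL := by
  intro p n hp4 hn α b η hC
  have h1 := Pool.Agent.W719.BX.s_geo p hp4 α b η hC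
  have h2 : hV (up p) = 2 * hp ((p : ℝ) / 2) α b η := by
    unfold Pool.Agent.R807.IN.hV
    rw [up_set (by omega)]
    exact h1.csSup_eq
  have h3 := Pool.Agent.H94.CYC.volm (up p) n hn
  rw [h2] at h3
  have e : (List.replicate n (List.replicate p true ++ List.replicate p false)).flatten =
      (List.replicate n (up p)).flatten := rfl
  rw [e, h3]
  ring

end Pool.Agent.H62.CYC
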