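import Pool.Agent.H62.CYC.Fin2
import Pool.Agent.H62.CYC.PVol
import Pool.Agent.H14.CYC.Res1
import Pool.Agent.H17.CYC.Res2
import Pool.Agent.H52.CYC.PUp
import Pool.Agent.H52.CYC.PLow
import Pool.Agent.H45.CYC.PLap
import Pool.Agent.H95.CYC.PVert
import Pool.Agent.H94.CYC.PLogw
import Pool.Agent.H39.CYC.Wg
import Pool.Agent.H11.CYC.PPbf
import Pool.Agent.H12.CYC.PSml
import Pool.Graph.R_seed8.W363.BX.MXQ

/-!
Project CYC: the limit for `s_2^p s_1^{-p}`, `p ≥ 4`.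
-/

set_option autoImplicit false

namespace Pool.Agent.H62.CYC

open Finset Matrix Filter Topology
open Pool.Agent.H62.TB (tvt)
open Pool.Agent.W719.BX (hp Crit2)
open scoped Real

theorem pres : S_PRES := pres_of Pool.Agent.H14.CYC.res1 Pool.Agent.H17.CYC.res2

theorem pup : S_PUP :=
  Pool.Agent.H52.CYC.pup Pool.Agent.H11.CYC.ppath Pool.Agent.H95.CYC.pvert
    Pool.Agent.H11.CYC.ppbf Pool.Agent.H94.CYC.plogw s_bnd

theorem plow : S_PLOW :=
  Pool.Agent.H52.CYC.plow Pool.Agent.H11.CYC.ppath Pool.Agent.H95.CYC.pvert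
    Pool.Agent.H11.CYC.ppbf Pool.Agent.H94.CYC.plogw s_bnd Pool.Agent.W363.BX.quad
    Pool.Agent.H45.CYC.plap

theorem lim3 {p : ℕ} (hp4 : 4 ≤ p) {α b η : ℝ} (hC : Crit2 ((p : ℝ) / 2) α b η) :
    Tendsto (fun M : ℕ => sc M * Real.log (tvt (comm (List.replicate p (true, true))) (2 * M + 1)))
      atTop (𝓝 (hp ((p : ℝ) / 2) α b η)) :=
  lr_limP half trf2 s_bnd pres pup plow (Pool.Agent.H39.CYC.wgu Pool.Agent.H94.CYC.plogw)
    (Pool.Agent.H39.CYC.wgl Pool.Agent.H94.CYC.plogw) Pool.Agent.H12.CYC.psml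
    Pool.Agent.H39.CYC.psgn hp4 hC

end Pool.Agent.H62.CYC
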