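import Pool.Agent.H62.CYC.PVol
import Pool.Agent.H62.CYC.DefsT
import Pool.Graph.R_pool_sql_team_seeded_c8625f6e.K4H85.AX.Geo3

/-!
# Project CYC, third part: the volumes for `p = 3`
-/

set_option autoImplicit false

namespace Pool.Agent.H62.CYC

open Finset
open Pool.Agent.W719.BX (hp Crit2)
open Pool.Agent.R807.IN (hV)
open Pool.Agent.K4H85.AX (C3)
open scoped Real

theorem pvol3 {n : ℕ} (hn : 1 ≤ n) {α b η : ℝ} (hC : C3 α b η) :
    hV (List.replicate n (List.replicate 3 true ++ List.replicate 3 false)).flatten =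
      2 * n * hp (3 / 2) α b η := by
  have hcr : Crit2 (((3 : ℕ) : ℝ) / 2) α b η := by exact_mod_cast hC.cr
  have h1 := (Pool.Agent.K4H85.AX.hb_of_crit3 Pool.Agent.W214.BX.alg2 (by norm_num) hC.hi
    hcr).greatest Pool.Agent.W120.VC.tet
  rw [Pool.Agent.K4H85.AX.geo_value3 Pool.Agent.W214.BX.alg2 Pool.Agent.W389.BX.tel (by norm_num)
    hC.hi hcr] at h1
  have e : (((3 : ℕ) : ℝ) / 2) = 3 / 2 := by norm_num
  rw [e] at h1
  have h2 : hV (up 3) = 2 * hp (3 / 2) α b η := by
    unfold Pool.Agent.R807.IN.hV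
    rw [up_set (by norm_num)]
    exact h1.csSup_eq
  have h3 := Pool.Agent.H94.CYC.volm (up 3) n hn
  rw [h2] at h3
  have e2 : (List.replicate n (List.replicate 3 true ++ List.replicate 3 false)).flatten =
      (List.replicate n (up 3)).flatten := rfl
  rw [e2, h3]
  ring

end Pool.Agent.H62.CYC
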