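import Pool.Agent.H62.CYC.Fin3
import Pool.Agent.H62.CYC.Fam3
import Pool.Agent.H62.CYC.PVol3
import Pool.Agent.H62.CYC.PUp3
import Pool.Agent.H62.CYC.PLap3
import Pool.Agent.H52.CYC.PLow3

/-!
Project CYC: the limit for `s_2^3 s_1^{-3}`.
-/

set_option autoImplicit false

namespace Pool.Agent.H62.CYC

open Finset Matrix Filter Topology
open Pool.Agent.H62.TB (tvt)
open Pool.Agent.W719.BX (hp Crit2)
open Pool.Agent.K4H85.AX (C3)
open scoped Real

theorem plow3 : S_PLOW3 :=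
  Pool.Agent.H52.CYC.plow3 Pool.Agent.H11.CYC.ppath Pool.Agent.H95.CYC.pvert
    Pool.Agent.H11.CYC.ppbf Pool.Agent.H94.CYC.plogw L3.plap3

theorem lim_three {α b η : ℝ} (hC : C3 α b η) :
    Tendsto (fun M : ℕ => sc M * Real.log (tvt (comm (List.replicate 3 (true, true))) (2 * M + 1)))
      atTop (𝓝 (hp (3 / 2) α b η)) :=
  lr_limT half trf2 pres
    (pup3 Pool.Agent.H11.CYC.ppath Pool.Agent.H95.CYC.pvert Pool.Agent.H11.CYC.ppbf
      Pool.Agent.H94.CYC.plogw)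
    plow3 (Pool.Agent.H39.CYC.wgu Pool.Agent.H94.CYC.plogw)
    (Pool.Agent.H39.CYC.wgl Pool.Agent.H94.CYC.plogw) Pool.Agent.H12.CYC.psml
    Pool.Agent.H39.CYC.psgn hC

end Pool.Agent.H62.CYC
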