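import Pool.Agent.H62.CYC.Tv

/-!
Project CYC: the limit from a formula for the traces.
-/

set_option autoImplicit false

namespace Pool.Agent.H62.CYC

open Finset Matrix Filter Topology
open Pool.Agent.H62.TV (sh sh_ne sh_norm)
open Pool.Agent.H62.TB (mer cor crv mu ltr rho tvt tvt_eq)
open scoped Real

/-- upper bound -/
lemma gen_upper {w : List (Bool × Bool)} {G : ℕ → ℕ → ℕ → ℝ} {W : ℝ}
    (h : ∀ M c : ℕ, c < M → tc w M c = ((∑ i ∈ range (M - c), (-1) ^ i * G M c i : ℝ) : ℂ))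
    (hG : ∀ ε : ℝ, 0 < ε → ∀ᶠ M : ℕ in atTop, ∀ c i : ℕ, c + i + 1 ≤ M →
      |G M c i| ≤ Real.exp ((2 * M + 1) / (2 * π) * W + ε * M)) {ε : ℝ} (hε : 0 < ε) :
    ∀ᶠ M : ℕ in atTop, tvt w (2 * M + 1) ≤
      (M : ℝ) ^ 3 * Real.exp ((2 * M + 1) / (2 * π) * W + ε * M) ^ 2 := by
  filter_upwards [hG ε hε] with M hM
  rw [tvt_tc]
  set E := Real.exp ((2 * M + 1) / (2 * π) * W + ε * M) with hE
  have h1 : ∀ c ∈ range M, ‖tc w M c‖ ^ 2 ≤ ((M : ℝ) * E) ^ 2 := by
    intro c hc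
    rw [mem_range] at hc
    refine pow_le_pow_left₀ (norm_nonneg _) ?_ 2
    rw [h M c hc, Complex.norm_real, Real.norm_eq_abs]
    refine (abs_sum_le_sum_abs _ _).trans ?_
    have h2 : ∀ i ∈ range (M - c), |(-1) ^ i * G M c i| ≤ E := by
      intro i hi
      rw [mem_range] at hi
      rw [abs_mul, abs_pow, abs_neg, abs_one, one_pow, one_mul]
      exact hM c i (by omega)
    refine (sum_le_card_nsmul _ _ _ h2).trans ?_
    rw [card_range, nsmul_eq_mul]
    refine mul_le_mul_of_nonneg_right ?_ (Real.exp_pos _).le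
    exact_mod_cast Nat.sub_le M c
  refine (sum_le_card_nsmul _ _ _ h1).trans (le_of_eq ?_)
  rw [card_range, nsmul_eq_mul]
  ring

/-- lower bound -/
lemma gen_lower {w : List (Bool × Bool)} {G : ℕ → ℕ → ℕ → ℝ} {W : ℝ}
    (h : ∀ M c : ℕ, c < M → tc w M c = ((∑ i ∈ range (M - c), (-1) ^ i * G M c i : ℝ) : ℂ))
    (hG : ∀ ε : ℝ, 0 < ε → ∀ᶠ M : ℕ in atTop, ∃ c i : ℕ, c + i + 1 ≤ M ∧ M ≤ 2 * c ∧
      Real.exp ((2 * M + 1) / (2 * π) * W - ε * M) ≤ |G M c i|)
    (hs : ∀ M c i : ℕ, c + i + 1 ≤ M → M ≤ 2 * c → 0 < (-1) ^ i * G M c i)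
    {ε : ℝ} (hε : 0 < ε) :
    ∀ᶠ M : ℕ in atTop, Real.exp ((2 * M + 1) / (2 * π) * W - ε * M) ^ 2 ≤
      tvt w (2 * M + 1) := by
  filter_upwards [hG ε hε] with M hM
  obtain ⟨c, i, h1, h2, h3⟩ := hM
  have hc : c < M := by omega
  refine le_trans ?_ (tc_le _ hc)
  refine pow_le_pow_left₀ (Real.exp_pos _).le ?_ 2
  rw [h M c hc, Complex.norm_real, Real.norm_eq_abs]
  refine h3.trans (le_trans ?_ (le_abs_self _))
  have h4 := hs M c i h1 h2
  have e1 : |G M c i| = (-1) ^ i * G M c i := by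
    rw [← abs_of_pos h4, abs_mul, abs_pow, abs_neg, abs_one, one_pow, one_mul]
  rw [e1]
  exact single_le_sum (f := fun i => (-1) ^ i * G M c i)
    (fun j hj => by
      rw [mem_range] at hj
      exact (hs M c j (by omega) h2).le) (mem_range.2 (by omega))

/-- **the limit** -/
theorem gen_lim {w : List (Bool × Bool)} {G : ℕ → ℕ → ℕ → ℝ} {W : ℝ}
    (h : ∀ M c : ℕ, c < M → tc w M c = ((∑ i ∈ range (M - c), (-1) ^ i * G M c i : ℝ) : ℂ))
    (hG1 : ∀ ε : ℝ, 0 < ε → ∀ᶠ M : ℕ in atTop, ∀ c i : ℕ, c + i + 1 ≤ M →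
      |G M c i| ≤ Real.exp ((2 * M + 1) / (2 * π) * W + ε * M))
    (hG2 : ∀ ε : ℝ, 0 < ε → ∀ᶠ M : ℕ in atTop, ∃ c i : ℕ, c + i + 1 ≤ M ∧ M ≤ 2 * c ∧
      Real.exp ((2 * M + 1) / (2 * π) * W - ε * M) ≤ |G M c i|)
    (hs : ∀ M c i : ℕ, c + i + 1 ≤ M → M ≤ 2 * c → 0 < (-1) ^ i * G M c i) :
    Tendsto (fun M : ℕ => sc M * Real.log (tvt w (2 * M + 1))) atTop (𝓝 (2 * W)) := by
  have hp := Real.pi_pos
  -- the main term
  have hmain : Tendsto (fun M : ℕ => sc M * ((2 * M + 1) / (2 * π) * W * 2)) atTop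
      (𝓝 (2 * W)) := by
    have h1 : Tendsto (fun M : ℕ => (sc M * M) * (2 * W / π) + sc M * (W / π)) atTop
        (𝓝 (π * (2 * W / π) + 0 * (W / π))) :=
      (tends_sc_lin.mul_const _).add (tends_sc.mul_const _)
    have e1 : π * (2 * W / π) + 0 * (W / π) = 2 * W := by field_simp; ring
    rw [e1] at h1
    refine h1.congr fun M => ?_
    field_simp
  have hup : ∀ ε : ℝ, Tendsto (fun M : ℕ => sc M * (3 * Real.log M +
      ((2 * M + 1) / (2 * π) * W + ε * M) * 2)) atTop (𝓝 (2 * W + 2 * π * ε)) := by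
    intro ε
    have h1 : Tendsto (fun M : ℕ => 3 * (sc M * Real.log M) +
        sc M * ((2 * M + 1) / (2 * π) * W * 2) + (sc M * M) * (2 * ε)) atTop
        (𝓝 (3 * 0 + 2 * W + π * (2 * ε))) :=
      ((tends_sc_log.const_mul 3).add hmain).add (tends_sc_lin.mul_const _)
    have e1 : 3 * 0 + 2 * W + π * (2 * ε) = 2 * W + 2 * π * ε := by ring
    rw [e1] at h1
    refine h1.congr fun M => ?_
    ring
  have hlo : ∀ ε : ℝ, Tendsto (fun M : ℕ => sc M *
      (((2 * M + 1) / (2 * π) * W - ε * M) * 2)) atTop (𝓝 (2 * W - 2 * π * ε)) := by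
    intro ε
    have h1 : Tendsto (fun M : ℕ =>
        sc M * ((2 * M + 1) / (2 * π) * W * 2) - (sc M * M) * (2 * ε)) atTop
        (𝓝 (2 * W - π * (2 * ε))) := hmain.sub (tends_sc_lin.mul_const _)
    have e1 : 2 * W - π * (2 * ε) = 2 * W - 2 * π * ε := by ring
    rw [e1] at h1
    refine h1.congr fun M => ?_
    ring
  refine tendsto_order.2 ⟨fun x hx => ?_, fun x hx => ?_⟩
  · set ε : ℝ := (2 * W - x) / (4 * π) with hε
    have hε0 : 0 < ε := div_pos (by linarith) (by linarith)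
    have e2 : x < 2 * W - 2 * π * ε := by
      have : 2 * π * ε = (2 * W - x) / 2 := by rw [hε]; field_simp; ring
      linarith
    filter_upwards [gen_lower h hG2 hs hε0, (hlo ε).eventually (lt_mem_nhds e2),
      eventually_ge_atTop 1] with M a1 a2 hM1
    refine a2.trans_le (mul_le_mul_of_nonneg_left ?_ (sc_pos hM1).le)
    have h1 := Real.log_le_log (by positivity) a1
    rw [Real.log_pow, Real.log_exp] at h1
    push_cast at h1
    linarith
  · set ε : ℝ := (x - 2 * W) / (4 * π) with hε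
    have hε0 : 0 < ε := div_pos (by linarith) (by linarith)
    have e2 : 2 * W + 2 * π * ε < x := by
      have : 2 * π * ε = (x - 2 * W) / 2 := by rw [hε]; field_simp; ring
      linarith
    filter_upwards [gen_upper h hG1 hε0, gen_lower h hG2 hs hε0,
      (hup ε).eventually (gt_mem_nhds e2), eventually_ge_atTop 1] with M a1 a0 a2 hM1
    refine lt_of_le_of_lt (mul_le_mul_of_nonneg_left ?_ (sc_pos hM1).le) a2
    have h0 : 0 < tvt w (2 * M + 1) := lt_of_lt_of_le (by positivity) a0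
    have hM0 : (0 : ℝ) < M := by exact_mod_cast hM1
    have h1 := Real.log_le_log h0 a1
    rw [Real.log_mul (by positivity) (by positivity), Real.log_pow, Real.log_pow,
      Real.log_exp] at h1
    push_cast at h1
    linarith

end Pool.Agent.H62.CYC
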