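import Mathlib

/-!
Project CYC: comparison of two sequences which grow exponentially.
-/

set_option autoImplicit false

namespace Pool.Agent.H62.CYC

open Filter Topology
open scoped Real

/-- the factor `2 π / (r - 2)`, `r = 2 M + 1` -/
noncomputable def sc (M : ℕ) : ℝ := 2 * π / (2 * (M : ℝ) - 1)

lemma sc_pos {M : ℕ} (hM : 1 ≤ M) : 0 < sc M := by
  have : (1 : ℝ) ≤ M := by exact_mod_cast hM
  have := Real.pi_pos
  unfold sc
  apply div_pos <;> linarith

lemma tends_sc : Tendsto sc atTop (𝓝 0) := by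
  unfold sc
  apply Tendsto.const_div_atTop
  refine tendsto_atTop_add_const_right _ (-1) ?_
  exact tendsto_natCast_atTop_atTop.const_mul_atTop (by norm_num)

lemma tends_sc_log : Tendsto (fun M : ℕ => sc M * Real.log M) atTop (𝓝 0) := by
  have h1 : Tendsto (fun M : ℕ => Real.log (M : ℝ) / (M : ℝ)) atTop (𝓝 0) :=
    Real.isLittleO_log_id_atTop.tendsto_div_nhds_zero.comp tendsto_natCast_atTop_atTop
  have h2 : Tendsto (fun M : ℕ => 2 * π * (Real.log (M : ℝ) / (M : ℝ))) atTop (𝓝 0) := by
    simpa using h1.const_mul (2 * π)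
  refine squeeze_zero' ?_ ?_ h2
  · filter_upwards [eventually_ge_atTop 1] with M hM
    have : (1 : ℝ) ≤ M := by exact_mod_cast hM
    exact mul_nonneg (sc_pos hM).le (Real.log_nonneg this)
  · filter_upwards [eventually_ge_atTop 1] with M hM
    have h3 : (1 : ℝ) ≤ M := by exact_mod_cast hM
    have hp := Real.pi_pos
    have h4 := Real.log_nonneg h3
    unfold sc
    rw [mul_div_assoc', div_mul_eq_mul_div]
    exact div_le_div_of_nonneg_left (by positivity) (by linarith) (by linarith)

lemma tends_sc_lin : Tendsto (fun M : ℕ => sc M * M) atTop (𝓝 π) := by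
  have h1 : Tendsto (fun M : ℕ => π + π / 2 * (1 / π) * sc M) atTop (𝓝 (π + π / 2 * (1 / π) * 0)) :=
    (tends_sc.const_mul _).const_add _
  rw [mul_zero, add_zero] at h1
  refine h1.congr' ?_
  filter_upwards [eventually_ge_atTop 1] with M hM
  have h3 : (1 : ℝ) ≤ M := by exact_mod_cast hM
  have hp := Real.pi_pos
  have h4 : 2 * (M : ℝ) - 1 ≠ 0 := by linarith
  unfold sc
  field_simp
  ring

/-- **the comparison** -/
theorem compare {x y : ℕ → ℝ} {p q D : ℕ} {C U : ℝ} (hq : 1 ≤ q) (hp : 1 ≤ p) (hC : 1 ≤ C)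
    (hU : 0 < U) (hx : ∀ M, 0 ≤ x M) (hy : ∀ M, 0 ≤ y M)
    (h1 : ∀ M : ℕ, 1 ≤ M → x M ^ p ≤ C * (M : ℝ) ^ D * (y M + 1) ^ q)
    (h2 : ∀ M : ℕ, 1 ≤ M → y M ^ q ≤ C * (M : ℝ) ^ D * (x M + 1) ^ p)
    (hlim : Tendsto (fun M => sc M * Real.log (x M)) atTop (𝓝 U)) :
    Tendsto (fun M => sc M * Real.log (y M)) atTop (𝓝 (p * U / q)) := by
  have hq0 : (0 : ℝ) < q := by exact_mod_cast hq
  have hp0 : (0 : ℝ) < p := by exact_mod_cast hp
  -- the logarithm of the polynomial factor
  set l : ℕ → ℝ := fun M => Real.log C + D * Real.log M with hl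
  have hsl : Tendsto (fun M => sc M * l M) atTop (𝓝 0) := by
    have h3 : Tendsto (fun M => Real.log C * sc M + D * (sc M * Real.log M)) atTop
        (𝓝 (Real.log C * 0 + D * 0)) := (tends_sc.const_mul _).add (tends_sc_log.const_mul _)
    rw [mul_zero, mul_zero, add_zero] at h3
    refine h3.congr fun M => ?_
    rw [hl]
    ring
  have hlog : ∀ M : ℕ, 1 ≤ M → Real.log (C * (M : ℝ) ^ D) = l M := by
    intro M hM
    have : (0 : ℝ) < M := by exact_mod_cast hM
    rw [Real.log_mul (by linarith) (pow_ne_zero _ this.ne'), Real.log_pow]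
  have hpos : ∀ M : ℕ, 1 ≤ M → 0 < C * (M : ℝ) ^ D := by
    intro M hM
    have : (0 : ℝ) < M := by exact_mod_cast hM
    positivity
  -- `x > 1` eventually
  have hx1 : ∀ᶠ M in atTop, 1 < x M := by
    filter_upwards [hlim.eventually (lt_mem_nhds hU), eventually_ge_atTop 1] with M hM hM1
    have h3 : 0 < Real.log (x M) := by
      by_contra h
      have := mul_nonpos_of_nonneg_of_nonpos (sc_pos hM1).le (not_lt.1 h)
      linarith
    by_contra h
    have := Real.log_nonpos (hx M) (not_lt.1 h)
    linarith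
  -- lower bound for `y + 1`
  have hlow : ∀ᶠ M in atTop, p * Real.log (x M) - l M ≤ q * Real.log (y M + 1) := by
    filter_upwards [hx1, eventually_ge_atTop 1] with M hM hM1
    have h3 := Real.log_le_log (by positivity) (h1 M hM1)
    rw [Real.log_pow, Real.log_mul (hpos M hM1).ne'
      (pow_ne_zero _ (by linarith [hy M] : y M + 1 ≠ 0)), Real.log_pow, hlog M hM1] at h3
    linarith
  have hlimlow : Tendsto (fun M => sc M * (p * Real.log (x M) - l M)) atTop (𝓝 (p * U)) := by
    have h3 : Tendsto (fun M => p * (sc M * Real.log (x M)) - sc M * l M) atTop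
        (𝓝 (p * U - 0)) := (hlim.const_mul _).sub hsl
    rw [sub_zero] at h3
    refine h3.congr fun M => ?_
    ring
  have hy1 : ∀ᶠ M in atTop, 1 ≤ y M := by
    have h3 : Tendsto (fun M => sc M * (q * Real.log 2)) atTop (𝓝 0) := by
      simpa using tends_sc.mul_const (q * Real.log 2)
    have hpU : 0 < p * U / 2 := by positivity
    filter_upwards [hlow, hlimlow.eventually (lt_mem_nhds (show p * U / 2 < p * U by linarith)),
      h3.eventually (gt_mem_nhds hpU), eventually_ge_atTop 1] with M a1 a2 a3 hM1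
    by_contra h
    have h4 : y M + 1 ≤ 2 := by linarith [not_le.1 h]
    have h5 := Real.log_le_log (by linarith [hy M]) h4
    have h6 := mul_le_mul_of_nonneg_left h5 hq0.le
    have h7 := mul_le_mul_of_nonneg_left (a1.trans h6) (sc_pos hM1).le
    linarith
  -- the two bounds
  have hL : ∀ᶠ M in atTop, sc M * ((p * Real.log (x M) - l M) / q - Real.log 2) ≤
      sc M * Real.log (y M) := by
    filter_upwards [hlow, hy1, eventually_ge_atTop 1] with M a1 a2 hM1
    refine mul_le_mul_of_nonneg_left ?_ (sc_pos hM1).le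
    have h3 : Real.log (y M + 1) ≤ Real.log 2 + Real.log (y M) := by
      rw [← Real.log_mul (by norm_num) (by linarith)]
      exact Real.log_le_log (by linarith) (by linarith)
    have h4 : (p * Real.log (x M) - l M) / q ≤ Real.log (y M + 1) := by
      rw [div_le_iff₀ hq0]
      linarith
    linarith
  have hR : ∀ᶠ M in atTop, sc M * Real.log (y M) ≤
      sc M * ((l M + p * Real.log 2 + p * Real.log (x M)) / q) := by
    filter_upwards [hx1, hy1, eventually_ge_atTop 1] with M a1 a2 hM1
    refine mul_le_mul_of_nonneg_left ?_ (sc_pos hM1).le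
    have h3 := Real.log_le_log (by positivity) (h2 M hM1)
    rw [Real.log_pow, Real.log_mul (hpos M hM1).ne'
      (pow_ne_zero _ (by linarith : x M + 1 ≠ 0)), Real.log_pow, hlog M hM1] at h3
    have h4 : Real.log (x M + 1) ≤ Real.log 2 + Real.log (x M) := by
      rw [← Real.log_mul (by norm_num) (by linarith)]
      exact Real.log_le_log (by linarith) (by linarith)
    rw [le_div_iff₀ hq0]
    have h5 := mul_le_mul_of_nonneg_left h4 hp0.le
    linarith
  have tL : Tendsto (fun M => sc M * ((p * Real.log (x M) - l M) / q - Real.log 2)) atTop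
      (𝓝 (p * U / q)) := by
    have h3 : Tendsto (fun M => (sc M * (p * Real.log (x M) - l M)) / q - sc M * Real.log 2) atTop
        (𝓝 (p * U / q - 0 * Real.log 2)) := (hlimlow.div_const _).sub (tends_sc.mul_const _)
    rw [zero_mul, sub_zero] at h3
    refine h3.congr fun M => ?_
    ring
  have tR : Tendsto (fun M => sc M * ((l M + p * Real.log 2 + p * Real.log (x M)) / q)) atTop
      (𝓝 (p * U / q)) := by
    have h3 : Tendsto (fun M => (sc M * l M + sc M * (p * Real.log 2) +
        p * (sc M * Real.log (x M))) / q) atTop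
        (𝓝 ((0 + 0 * (p * Real.log 2) + p * U) / q)) :=
      ((hsl.add (tends_sc.mul_const _)).add (hlim.const_mul _)).div_const _
    rw [zero_mul, zero_add, zero_add] at h3
    refine h3.congr fun M => ?_
    ring
  exact tendsto_of_tendsto_of_tendsto_of_le_of_le' tL tR hL hR

/-- odd numbers -/
lemma odd_iff {f : ℕ → ℝ} {l : Filter ℝ} : Tendsto f (atTop ⊓ 𝓟 {r : ℕ | Odd r}) l ↔
    Tendsto (fun M : ℕ => f (2 * M + 1)) atTop l := by
  constructor
  · intro h
    refine h.comp ?_
    rw [tendsto_inf, tendsto_principal]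
    refine ⟨?_, Eventually.of_forall fun M => ⟨M, rfl⟩⟩
    exact tendsto_atTop_mono (fun M => by omega : ∀ M : ℕ, M ≤ 2 * M + 1) tendsto_id
  · intro h
    rw [tendsto_def] at h ⊢
    intro s hs
    have h1 := h s hs
    rw [mem_atTop_sets] at h1
    obtain ⟨N, hN⟩ := h1
    rw [mem_inf_principal]
    filter_upwards [eventually_ge_atTop (2 * N + 1)] with r hr hodd
    obtain ⟨M, rfl⟩ := hodd
    exact hN M (by omega)

end Pool.Agent.H62.CYC
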