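import Pool.Agent.H62.CYC.Gen

/-!
Project CYC: the limit for `s_2 s_1⁻¹`.
-/

set_option autoImplicit false

namespace Pool.Agent.H62.CYC

open Finset Matrix Filter Topology
open Pool.Agent.H62.TV (sh sh_ne sh_norm)
open Pool.Agent.H62.TB (mer cor crv mu ltr rho tvt tvt_eq)
open scoped Real

/-- the volume of the regular ideal tetrahedron -/
noncomputable def vt : ℝ := 3 * GapVol.lob (π / 3)

/-- the trace -/
lemma tc_star (hH : S_HALF) (hS : S_STAR) {M c : ℕ} (hc : c < M) :
    tc (comm [(true, true)]) M c =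
      ((∑ i ∈ range (M - c), (-1) ^ i *
        (sf M (2 * c + 2 * i + 1) / (sf M i * sf M (2 * c + i + 1))) : ℝ) : ℂ) := by
  obtain ⟨K, hK⟩ : ∃ K, M - c = K + 1 := ⟨M - c - 1, by omega⟩
  have hM : c + (K + 1) = M := by omega
  obtain ⟨F, k, h⟩ := hH M c K hM
  unfold tc
  rw [hK, ← hS M c K hM, h.comm, h.cor_inv]
  have e1 : rho (K + 1) c (sh M) [(true, true)] = mer (K + 1) c (sh M) := by simp [rho, ltr]
  rw [e1]
  simp only [Matrix.mul_assoc]

/-- **the limit** -/
theorem lr_lim (hH : S_HALF) (hS : S_STAR) (hG : S_GR) :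
    Tendsto (fun M : ℕ => sc M * Real.log (tvt (comm [(true, true)]) (2 * M + 1))) atTop
      (𝓝 (2 * vt)) := by
  refine gen_lim (G := fun M c i => sf M (2 * c + 2 * i + 1) / (sf M i * sf M (2 * c + i + 1)))
    (fun M c hc => tc_star hH hS hc) (fun ε hε => ?_) hG.2.1 hG.2.2
  filter_upwards [hG.1 ε hε] with M hM c i hci
  have := hM (2 * c + 2 * i + 1) i (by omega) (by omega)
  rw [show 2 * c + 2 * i + 1 - i = 2 * c + i + 1 by omega] at this
  exact this

end Pool.Agent.H62.CYC
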