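import Pool.Agent.H11.CYC.PPath

/-!
Project CYC: the contour integral does not depend on the height.
-/

set_option autoImplicit false

namespace Pool.Agent.H62.CYC

open Finset Filter
open Pool.Agent.H11.CYC (HT_diffAt sin_vert ppath)
open Pool.Agent.W709.VC (rect path)
open scoped Real Topology

lemma rect_top (p M k : ℕ) {h η : ℝ} (hh : 0 < h) (hη : h ≤ η) :
    rect (HT p M k) (-π) π (-h) h = -2 * (Complex.I * (∫ y in (0:ℝ)..η, HT p M k (-π + y * Complex.I)) +
      (∫ x in (-π)..π, HT p M k (x + η * Complex.I)) -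
      Complex.I * (∫ y in (0:ℝ)..η, HT p M k (π + y * Complex.I))) := by
  rw [ppath p M k h η π hh hη (by rw [abs_of_pos Real.pi_pos])]
  have hcl : Continuous fun y : ℝ => HT p M k (-π + y * Complex.I) := by
    rw [continuous_iff_continuousAt]
    intro y
    have := (HT_diffAt p M k (sin_vert (M := M) (ψ := -π + y * Complex.I)
      (Or.inr (by simp)))).continuousAt
    exact ContinuousAt.comp (f := fun y : ℝ => (-π + y * Complex.I : ℂ)) this (by fun_prop)
  have hs : (∫ y in (0:ℝ)..η, HT p M k (-π + y * Complex.I)) =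
      (∫ y in (0:ℝ)..h, HT p M k (-π + y * Complex.I)) +
        ∫ y in h..η, HT p M k (-π + y * Complex.I) :=
    (intervalIntegral.integral_add_adjacent_intervals (hcl.intervalIntegrable _ _)
      (hcl.intervalIntegrable _ _)).symm
  unfold Pool.Agent.W709.VC.path
  rw [intervalIntegral.integral_same, hs]
  ring

/-- **the contour integral does not depend on `h > 0`** -/
theorem rect_indep (p M k : ℕ) {h h' : ℝ} (hh : 0 < h) (hh' : 0 < h') :
    rect (HT p M k) (-π) π (-h) h = rect (HT p M k) (-π) π (-h') h' := by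
  rw [rect_top p M k hh (le_max_left h h'), rect_top p M k hh' (le_max_right h h')]

/-- the contour integral in terms of the path with any `b`, `η` and any small `h'` -/
theorem rect_path (p M k : ℕ) {h h' η b : ℝ} (hh : 0 < h) (hh' : 0 < h') (hη : h' ≤ η)
    (hb : |b| ≤ π) :
    rect (HT p M k) (-π) π (-h) h = -2 * path (HT p M k) h' η b := by
  rw [rect_indep p M k hh hh', ppath p M k h' η b hh' hη hb]

/-- the weight is positive -/
lemma WT_pos {M k : ℕ} (hk : k < M) (hk2 : M + 1 ≤ 2 * k) : 0 < WT M k := by
  unfold WT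
  refine Finset.prod_pos fun j hj => ?_
  have hj' := mem_range.1 hj
  have h1 : 0 < Real.cos (π * (2 * j + 1) / (2 * M + 1)) := by
    have hp := Real.pi_pos
    have h2 : (2 * (j : ℝ) + 1) * 2 < 2 * M + 1 := by
      have : (2 * j + 1) * 2 < 2 * M + 1 := by omega
      exact_mod_cast this
    refine Real.cos_pos_of_mem_Ioo ⟨?_, ?_⟩
    · have : 0 ≤ π * (2 * (j : ℝ) + 1) / (2 * M + 1) := by positivity
      linarith
    · rw [div_lt_iff₀ (by positivity)]
      nlinarith
  positivity

end Pool.Agent.H62.CYC
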