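import Pool.Agent.H62.CYC.Blk
import Pool.Agent.H62.CYC.Lim
import Pool.Agent.H62.TB.Gr

/-!
Project CYC: the Turaev-Viro invariants of the powers of the words `[w, Δ]`.
-/

set_option autoImplicit false

namespace Pool.Agent.H62.CYC

open Finset Matrix Filter Topology
open Pool.Agent.H62.TV (sh sh_ne sh_norm)
open Pool.Agent.H62.TB (mer cor crv mu ltr rho tvt tvt_eq)
open scoped Real

/-- the power of a word -/
def pw (p : ℕ) (w : List (Bool × Bool)) : List (Bool × Bool) := (List.replicate p w).flatten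

lemma pw_one (w : List (Bool × Bool)) : pw 1 w = w := by simp [pw]

/-- the trace in the block `c` -/
noncomputable def tc (w : List (Bool × Bool)) (M c : ℕ) : ℂ := (rho (M - c) c (sh M) w).trace

lemma tvt_tc (w : List (Bool × Bool)) (M : ℕ) :
    tvt w (2 * M + 1) = ∑ c ∈ range M, ‖tc w M c‖ ^ 2 := tvt_eq w M

lemma tvt_nonneg (w : List (Bool × Bool)) (M : ℕ) : 0 ≤ tvt w (2 * M + 1) := by
  rw [tvt_tc]
  exact sum_nonneg fun c _ => by positivity

lemma tc_le (w : List (Bool × Bool)) {M c : ℕ} (hc : c < M) :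
    ‖tc w M c‖ ^ 2 ≤ tvt w (2 * M + 1) := by
  rw [tvt_tc]
  exact single_le_sum (f := fun c => ‖tc w M c‖ ^ 2) (fun c _ => by positivity) (mem_range.2 hc)

/-- the bounds in the blocks -/
lemma tc_bnd (hH : S_HALF) (hT : S_TRG) (hP : S_POS) (hL : S_LA1) (w : List (Bool × Bool))
    {M c : ℕ} (hc : c < M) :
    (∀ p : ℕ, ‖tc (pw p (comm w)) M c‖ ≤
      3 * ((M - c : ℕ) : ℝ) * (2 * ‖tc (comm w) M c‖ + 4 * ((M - c : ℕ) : ℝ)) ^ p) ∧
    (∀ p : ℕ, 1 ≤ p → 4 * ((M - c : ℕ) : ℝ) ≤ ‖tc (comm w) M c‖ →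
      2 * ((‖tc (comm w) M c‖ - ((M - c : ℕ) : ℝ)) / (2 * ((M - c : ℕ) : ℝ))) ^ p -
        3 * ((M - c : ℕ) : ℝ) ≤ ‖tc (pw p (comm w)) M c‖) := by
  obtain ⟨K, hK⟩ : ∃ K, M - c = K + 1 := ⟨M - c - 1, by omega⟩
  obtain ⟨m, y, hm, hy, h⟩ := blk hH hT hP hL (show c + (K + 1) = M by omega) w
  have h1 := bnd (K + 1) m y (fun p => (rho (K + 1) c (sh M) (pw p (comm w))).trace) (by omega) hm hy
    (fun p => h p)
  have e1 : (rho (K + 1) c (sh M) (pw 1 (comm w))) = rho (K + 1) c (sh M) (comm w) := by rw [pw_one]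
  simp only [e1] at h1
  unfold tc
  rw [hK]
  exact h1

/-- **the two inequalities** -/
theorem tv_ineq (hH : S_HALF) (hT : S_TRG) (hP : S_POS) (hL : S_LA1) (w : List (Bool × Bool))
    {p : ℕ} (hp : 1 ≤ p) {M : ℕ} (hM : 1 ≤ M) :
    tvt (pw p (comm w)) (2 * M + 1) ≤
      9 * (M : ℝ) ^ 3 * (32 * (M : ℝ) ^ 2) ^ p * (tvt (comm w) (2 * M + 1) + 1) ^ p ∧
    tvt (comm w) (2 * M + 1) ^ p ≤
      18 * (M : ℝ) ^ 2 * (16 * (M : ℝ) ^ 3) ^ p * (tvt (pw p (comm w)) (2 * M + 1) + 1) := by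
  have hM1 : (1 : ℝ) ≤ M := by exact_mod_cast hM
  set a := tvt (comm w) (2 * M + 1) with ha
  set b := tvt (pw p (comm w)) (2 * M + 1) with hb
  have ha0 : 0 ≤ a := tvt_nonneg _ _
  have hb0 : 0 ≤ b := tvt_nonneg _ _
  have hn : ∀ c < M, (1 : ℝ) ≤ ((M - c : ℕ) : ℝ) ∧ ((M - c : ℕ) : ℝ) ≤ M := fun c hc => by
    constructor
    · exact_mod_cast (show 1 ≤ M - c by omega)
    · exact_mod_cast Nat.sub_le M c
  constructor
  · rw [hb, tvt_tc]
    have h1 : ∀ c ∈ range M, ‖tc (pw p (comm w)) M c‖ ^ 2 ≤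
        9 * (M : ℝ) ^ 2 * (32 * (M : ℝ) ^ 2 * (a + 1)) ^ p := by
      intro c hc
      rw [mem_range] at hc
      obtain ⟨n1, n2⟩ := hn c hc
      have h2 := (tc_bnd hH hT hP hL w hc).1 p
      have h3 : ‖tc (comm w) M c‖ ^ 2 ≤ a := tc_le _ hc
      set t := ‖tc (comm w) M c‖ with ht
      have ht0 : 0 ≤ t := norm_nonneg _
      set n : ℝ := ((M - c : ℕ) : ℝ) with hn'
      have h4 : (2 * t + 4 * n) ^ 2 ≤ 32 * (M : ℝ) ^ 2 * (a + 1) := by
        have h5 : (2 * t + 4 * n) ^ 2 ≤ 8 * t ^ 2 + 32 * n ^ 2 := by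
          nlinarith [sq_nonneg (2 * t - 4 * n)]
        have h6 : n ^ 2 ≤ (M : ℝ) ^ 2 := pow_le_pow_left₀ (by linarith) n2 2
        have h7 : (1 : ℝ) ≤ (M : ℝ) ^ 2 := one_le_pow₀ hM1
        nlinarith
      calc ‖tc (pw p (comm w)) M c‖ ^ 2 ≤ (3 * n * (2 * t + 4 * n) ^ p) ^ 2 :=
            pow_le_pow_left₀ (norm_nonneg _) h2 2
        _ = 9 * n ^ 2 * ((2 * t + 4 * n) ^ 2) ^ p := by
            rw [mul_pow, mul_pow, ← pow_mul, ← pow_mul, mul_comm p 2]
            norm_num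
        _ ≤ 9 * (M : ℝ) ^ 2 * (32 * (M : ℝ) ^ 2 * (a + 1)) ^ p := by
            refine mul_le_mul ?_ (pow_le_pow_left₀ (by positivity) h4 p) (by positivity)
              (by positivity)
            exact mul_le_mul_of_nonneg_left (pow_le_pow_left₀ (by linarith) n2 2) (by norm_num)
    refine (sum_le_card_nsmul _ _ _ h1).trans (le_of_eq ?_)
    rw [card_range, nsmul_eq_mul, mul_pow]
    ring
  · obtain ⟨c, hc, hmax⟩ := Finset.exists_max_image (range M) (fun c => ‖tc (comm w) M c‖)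
      ⟨0, mem_range.2 (by omega)⟩
    rw [mem_range] at hc
    obtain ⟨n1, n2⟩ := hn c hc
    set t := ‖tc (comm w) M c‖ with ht
    have ht0 : 0 ≤ t := norm_nonneg _
    set n : ℝ := ((M - c : ℕ) : ℝ) with hn'
    have h1 : a ≤ M * t ^ 2 := by
      rw [ha, tvt_tc]
      have := sum_le_card_nsmul (range M) (fun c => ‖tc (comm w) M c‖ ^ 2) (t ^ 2)
        fun c hc => pow_le_pow_left₀ (norm_nonneg _) (hmax c hc) 2
      rw [card_range, nsmul_eq_mul] at this
      exact this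
    have hM2 : (1 : ℝ) ≤ (M : ℝ) ^ 2 := one_le_pow₀ hM1
    by_cases h2 : 4 * n ≤ t
    · have h3 := (tc_bnd hH hT hP hL w hc).2 p hp h2
      have h4 : ‖tc (pw p (comm w)) M c‖ ^ 2 ≤ b := tc_le _ hc
      set z := ‖tc (pw p (comm w)) M c‖ with hz
      have hz0 : 0 ≤ z := norm_nonneg _
      have h5 : t / (4 * M) ≤ (t - n) / (2 * n) := by
        rw [div_le_div_iff₀ (by linarith) (by linarith)]
        nlinarith
      have h6 : 2 * (t / (4 * M)) ^ p ≤ z + 3 * M := by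
        have := pow_le_pow_left₀ (by positivity) h5 p
        linarith
      have h7 : 4 * ((t / (4 * M)) ^ p) ^ 2 ≤ 18 * (M : ℝ) ^ 2 * (b + 1) := by
        have h8 : (2 * (t / (4 * M)) ^ p) ^ 2 ≤ (z + 3 * M) ^ 2 :=
          pow_le_pow_left₀ (by positivity) h6 2
        nlinarith [sq_nonneg (z - 3 * M)]
      calc a ^ p ≤ (M * t ^ 2) ^ p := pow_le_pow_left₀ ha0 h1 p
        _ = (16 * (M : ℝ) ^ 3) ^ p * ((t / (4 * M)) ^ p) ^ 2 := by
            rw [← pow_mul, mul_comm p 2, pow_mul, ← mul_pow]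
            congr 1
            have : (M : ℝ) ≠ 0 := by linarith
            field_simp
            ring
        _ ≤ (16 * (M : ℝ) ^ 3) ^ p * (18 * (M : ℝ) ^ 2 * (b + 1)) := by
            refine mul_le_mul_of_nonneg_left ?_ (by positivity)
            have : 0 ≤ ((t / (4 * M)) ^ p) ^ 2 := by positivity
            linarith
        _ = _ := by ring
    · have h3 : t ≤ 4 * M := by linarith [not_le.1 h2]
      have h4 : a ≤ 16 * (M : ℝ) ^ 3 := by
        have := pow_le_pow_left₀ ht0 h3 2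
        nlinarith
      calc a ^ p ≤ (16 * (M : ℝ) ^ 3) ^ p := pow_le_pow_left₀ ha0 h4 p
        _ = 1 * (16 * (M : ℝ) ^ 3) ^ p * 1 := by ring
        _ ≤ 18 * (M : ℝ) ^ 2 * (16 * (M : ℝ) ^ 3) ^ p * (b + 1) := by
            refine mul_le_mul ?_ (by linarith) (by norm_num) (by positivity)
            exact mul_le_mul_of_nonneg_right (by linarith) (by positivity)

/-- **the growth rates of the powers** -/
theorem tv_iff (hH : S_HALF) (hT : S_TRG) (hP : S_POS) (hL : S_LA1) (w : List (Bool × Bool))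
    {p : ℕ} (hp : 1 ≤ p) {V : ℝ} (hV : 0 < V) :
    Tendsto (fun M : ℕ => sc M * Real.log (tvt (comm w) (2 * M + 1))) atTop (𝓝 V) ↔
    Tendsto (fun M : ℕ => sc M * Real.log (tvt (pw p (comm w)) (2 * M + 1))) atTop (𝓝 (p * V)) := by
  have hp0 : (0 : ℝ) < p := by exact_mod_cast hp
  set C : ℝ := 18 * 32 ^ p with hC
  have hC1 : 1 ≤ C := by
    have : (1 : ℝ) ≤ 32 ^ p := one_le_pow₀ (by norm_num)
    rw [hC]
    linarith
  set D : ℕ := 3 + 3 * p with hD
  have i1 : ∀ M : ℕ, 1 ≤ M → tvt (pw p (comm w)) (2 * M + 1) ^ 1 ≤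
      C * (M : ℝ) ^ D * (tvt (comm w) (2 * M + 1) + 1) ^ p := by
    intro M hM
    have hM1 : (1 : ℝ) ≤ M := by exact_mod_cast hM
    have h1 := (tv_ineq hH hT hP hL w hp hM).1
    rw [pow_one]
    refine h1.trans (mul_le_mul_of_nonneg_right ?_ (pow_nonneg (by
      have := tvt_nonneg (comm w) M
      linarith) _))
    calc 9 * (M : ℝ) ^ 3 * (32 * (M : ℝ) ^ 2) ^ p = 9 * 32 ^ p * ((M : ℝ) ^ 3 * (M : ℝ) ^ (2 * p)) := by
          rw [mul_pow, ← pow_mul]
          ring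
      _ ≤ 18 * 32 ^ p * ((M : ℝ) ^ 3 * (M : ℝ) ^ (3 * p)) := by
          refine mul_le_mul ?_ ?_ (by positivity) (by positivity)
          · exact mul_le_mul_of_nonneg_right (by norm_num) (by positivity)
          · exact mul_le_mul_of_nonneg_left (pow_le_pow_right₀ hM1 (by omega)) (by positivity)
      _ = C * (M : ℝ) ^ D := by
          rw [hC, hD, pow_add]
  have i2 : ∀ M : ℕ, 1 ≤ M → tvt (comm w) (2 * M + 1) ^ p ≤
      C * (M : ℝ) ^ D * (tvt (pw p (comm w)) (2 * M + 1) + 1) ^ 1 := by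
    intro M hM
    have hM1 : (1 : ℝ) ≤ M := by exact_mod_cast hM
    have h1 := (tv_ineq hH hT hP hL w hp hM).2
    rw [pow_one]
    refine h1.trans (mul_le_mul_of_nonneg_right ?_ (by
      have := tvt_nonneg (pw p (comm w)) M
      linarith))
    calc 18 * (M : ℝ) ^ 2 * (16 * (M : ℝ) ^ 3) ^ p =
          18 * 16 ^ p * ((M : ℝ) ^ 2 * (M : ℝ) ^ (3 * p)) := by
          rw [mul_pow, ← pow_mul]
          ring
      _ ≤ 18 * 32 ^ p * ((M : ℝ) ^ 3 * (M : ℝ) ^ (3 * p)) := by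
          refine mul_le_mul ?_ ?_ (by positivity) (by positivity)
          · exact mul_le_mul_of_nonneg_left (pow_le_pow_left₀ (by norm_num) (by norm_num) p)
              (by norm_num)
          · exact mul_le_mul_of_nonneg_right (pow_le_pow_right₀ hM1 (by omega)) (by positivity)
      _ = C * (M : ℝ) ^ D := by
          rw [hC, hD, pow_add]
  constructor
  · intro h
    have h1 := compare (x := fun M => tvt (comm w) (2 * M + 1))
      (y := fun M => tvt (pw p (comm w)) (2 * M + 1)) (p := p) (q := 1) (D := D) (C := C) (U := V)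
      le_rfl hp hC1 hV (tvt_nonneg _) (tvt_nonneg _) i2 i1 h
    simpa using h1
  · intro h
    have h1 := compare (x := fun M => tvt (pw p (comm w)) (2 * M + 1))
      (y := fun M => tvt (comm w) (2 * M + 1)) (p := 1) (q := p) (D := D) (C := C) (U := p * V)
      hp le_rfl hC1 (by positivity) (tvt_nonneg _) (tvt_nonneg _) i1 i2 h
    have e1 : ((1 : ℕ) : ℝ) * (p * V) / p = V := by
      push_cast
      field_simp
    rw [e1] at h1
    exact h1

end Pool.Agent.H62.CYC
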